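import Pool.Agent.R598.PM.Mod

/-!
# Permutation models realized by symmetric submodels: without the finiteness of the orbits
-/

set_option autoImplicit false

namespace Pool.Agent.R598.PM

open Pool.Agent.W868 Pool.Agent.W868.PName Pool.Agent.R598.SY
open ZFSet (pair)

variable {I : Type} {D : PD I}

/-- The finite sets in a model. -/
theorem finIn_iff {M : Set ZFSet.{0}} (hM : IsZF M) {Y : ZFSet.{0}} (hY : ∀ z ∈ Y, z ∈ M) :
    FinIn M Y ↔ {z | z ∈ Y}.Finite := by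
  constructor
  · rintro ⟨n, h⟩
    by_contra hS
    exact CR.infIn_of_infinite (M := M) hS n h
  · intro hS
    obtain ⟨Y', hY', h1, n, f, hf, h2⟩ := CR.fin_bij hM _ hS fun z hz => hY z hz
    have h3 : Y' = Y := by
      ext z
      exact h1 z
    rw [h3] at h2
    exact ⟨n, f, hf, h2⟩

theorem fin_mem {M : Set ZFSet.{0}} (hM : IsZF M) {Y : ZFSet.{0}} (hY : ∀ z ∈ Y, z ∈ M)
    (hf : {z | z ∈ Y}.Finite) : Y ∈ M := by
  obtain ⟨Y', hY', h1, -⟩ := CR.fin_bij hM _ hf fun z hz => hY z hz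
  have h3 : Y' = Y := by
    ext z
    exact h1 z
  rwa [h3] at hY'

namespace W

section

variable {π : Pkg (Cd I)} (g : ∀ i : I, bN i ∈ π.N)

include g

theorem val_bN_inj {i k : I} (h : π.val (bN i) = π.val (bN k)) : i = k := by
  by_contra hik
  obtain ⟨n, hn⟩ := (π.val_eq_iff (g i) (g k)).1 h
  exact not_feq_bN hik _ hn

theorem mem_ev {S : Set I} {z : ZFSet.{0}} : z ∈ ev π S ↔ ∃ i ∈ S, z = π.val (bN i) := by
  unfold ev
  rw [π.mem_val]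
  constructor
  · rintro ⟨y, hy, c, hc, -, rfl⟩
    obtain ⟨i, hi, rfl, -⟩ := el_sN.1 hc
    exact ⟨i, hi, rfl⟩
  · rintro ⟨i, hi, rfl⟩
    exact ⟨bN i, g i, ⊤, el_sN.2 ⟨i, hi, rfl, rfl⟩, ⟨0, le_top⟩, rfl⟩

theorem bN_mem_ev {S : Set I} {i : I} : π.val (bN i) ∈ ev π S ↔ i ∈ S := by
  rw [mem_ev g]
  constructor
  · rintro ⟨k, hk, h⟩
    rwa [val_bN_inj g h]
  · exact fun h => ⟨i, h, rfl⟩

theorem ev_subset {S S' : Set I} : ev π S ⊆ ev π S' ↔ S ⊆ S' := by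
  constructor
  · intro h i hi
    exact (bN_mem_ev g).1 (h ((bN_mem_ev g).2 hi))
  · intro h z hz
    obtain ⟨i, hi, rfl⟩ := (mem_ev g).1 hz
    exact (bN_mem_ev g).2 (h hi)

theorem ev_inj {S S' : Set I} (h : ev π S = ev π S') : S = S' := by
  ext i
  rw [← bN_mem_ev g, h, bN_mem_ev g]

theorem ev_inter {S S' : Set I} : ev π S ∩ ev π S' = ev π (S ∩ S') := by
  ext z
  rw [ZFSet.mem_inter]
  constructor
  · rintro ⟨h, h'⟩
    obtain ⟨i, hi, rfl⟩ := (mem_ev g).1 h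
    exact (bN_mem_ev g).2 ⟨hi, (bN_mem_ev g).1 h'⟩
  · intro h
    obtain ⟨i, hi, rfl⟩ := (mem_ev g).1 h
    exact ⟨(bN_mem_ev g).2 hi.1, (bN_mem_ev g).2 hi.2⟩

theorem ev_diff {S S' : Set I} : ev π S \ ev π S' = ev π (S \ S') := by
  ext z
  rw [ZFSet.mem_sdiff]
  constructor
  · rintro ⟨h, h'⟩
    obtain ⟨i, hi, rfl⟩ := (mem_ev g).1 h
    exact (bN_mem_ev g).2 ⟨hi, fun h2 => h' ((bN_mem_ev g).2 h2)⟩
  · intro h
    obtain ⟨i, hi, rfl⟩ := (mem_ev g).1 h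
    exact ⟨(bN_mem_ev g).2 hi.1, fun h2 => hi.2 ((bN_mem_ev g).1 h2)⟩

theorem ev_empty : ev π ∅ = ∅ := by
  rw [ZFSet.eq_empty]
  intro z hz
  obtain ⟨i, hi, -⟩ := (mem_ev g).1 hz
  exact hi

omit g in
theorem ev_mem {S : Set I} (h : S ∈ Dfb D) (h' : sN S ∈ π.N) : ev π S ∈ (sys D).Ms π :=
  ⟨_, ⟨h', hs_sN' h⟩, rfl⟩

variable (D) in
theorem bN_mem (i : I) : π.val (bN i) ∈ (sys D).Ms π := ⟨_, ⟨g i, hs_bN i⟩, rfl⟩

theorem ev_finite {S : Set I} : {z | z ∈ ev π S}.Finite ↔ S.Finite := by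
  have h1 : {z | z ∈ ev π S} = (fun i => π.val (bN i)) '' S := by
    ext z
    rw [Set.mem_ofPred_eq, mem_ev g]
    constructor
    · rintro ⟨i, hi, rfl⟩
      exact ⟨i, hi, rfl⟩
    · rintro ⟨i, hi, rfl⟩
      exact ⟨i, hi, rfl⟩
  rw [h1]
  exact Set.finite_image_iff fun i _ k _ h => val_bN_inj g h

theorem finIn_ev (hM : IsZF ((sys D).Ms π)) {S : Set I} :
    FinIn ((sys D).Ms π) (ev π S) ↔ S.Finite := by
  rw [finIn_iff hM, ev_finite g]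
  intro z hz
  obtain ⟨i, -, rfl⟩ := (mem_ev g).1 hz
  exact bN_mem D g i

/-- The subsets of the set of atoms. -/
theorem exists_dfb {X : ZFSet.{0}} (hX : X ∈ (sys D).Ms π) (hXA : X ⊆ ev π Set.univ) :
    ∃ S ∈ Dfb D, X = ev π S := by
  classical
  obtain ⟨t, ht, rfl, E, H, hH, hE⟩ := exists_supp hX
  refine ⟨{i | π.val (bN i) ∈ π.val t}, ⟨E.image Prod.fst, H, hH, fun τ h1 h2 h3 i hi => ?_⟩, ?_⟩
  · exact move ht (g _) (g _) hE h1 h2 (fun a ha => h3 _ (Finset.mem_image_of_mem _ ha))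
      (fun ρ hρ p => act_bN hρ i p) hi
  · ext z
    rw [mem_ev g]
    constructor
    · intro hz
      obtain ⟨i, -, rfl⟩ := (mem_ev g).1 (hXA hz)
      exact ⟨i, hz, rfl⟩
    · rintro ⟨i, hi, rfl⟩
      exact hi

omit g in
/-- The supports of the sets of sets of atoms. -/
theorem exists_fam {r : ZFSet.{0}} (hr : r ∈ (sys D).Ms π) : ∃ E : Finset I, ∃ H ∈ D.Φ,
    ∀ τ ∈ D.T, τ ∈ H → (∀ i ∈ E, τ i = i) → ∀ S : Set I, sN S ∈ π.N → sN (τ '' S) ∈ π.N →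
      ev π S ∈ r → ev π (τ '' S) ∈ r := by
  classical
  obtain ⟨t, ht, rfl, E, H, hH, hE⟩ := exists_supp hr
  refine ⟨E.image Prod.fst, H, hH, fun τ h1 h2 h3 S hS1 hS2 h => ?_⟩
  unfold ev at h ⊢
  exact move ht hS1 hS2 hE h1 h2
    (fun a ha => h3 _ (Finset.mem_image_of_mem _ ha)) (fun ρ hρ p => act_sN hρ S p) h

/-- The supports of the relations between sets of atoms and atoms. -/
theorem exists_rel {r : ZFSet.{0}} (hr : r ∈ (sys D).Ms π) : ∃ E : Finset I, ∃ H ∈ D.Φ,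
    ∀ τ ∈ D.T, τ ∈ H → (∀ i ∈ E, τ i = i) → ∀ (S : Set I) (i : I), sN S ∈ π.N →
      sN (τ '' S) ∈ π.N →
      pair (ev π S) (π.val (bN i)) ∈ r → pair (ev π (τ '' S)) (π.val (bN (τ i))) ∈ r := by
  classical
  obtain ⟨t, ht, rfl, E, H, hH, hE⟩ := exists_supp hr
  refine ⟨E.image Prod.fst, H, hH, fun τ h1 h2 h3 S i hS1 hS2 h => ?_⟩
  unfold ev at h ⊢
  rw [← π.val_opN hS1 (g i)] at h
  rw [← π.val_opN hS2 (g (τ i))]
  refine move ht (π.opN_mem hS1 (g i)) (π.opN_mem hS2 (g (τ i))) hE h1 h2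
    (fun a ha => h3 _ (Finset.mem_image_of_mem _ ha)) (fun ρ hρ p => ?_) h
  rw [act_opN ((sys D).top ρ)]
  exact feq_opN (act_sN hρ S p) (act_bN hρ i p)

omit g in
theorem mem_vN {𝒱 : Set (Set I)} (h : ∀ S ∈ 𝒱, sN S ∈ π.N) {z : ZFSet.{0}} :
    z ∈ π.val (vN 𝒱) ↔ ∃ S ∈ 𝒱, z = ev π S := by
  rw [π.mem_val]
  constructor
  · rintro ⟨y, hy, c, hc, -, rfl⟩
    obtain ⟨S, hS, rfl, -⟩ := el_vN.1 hc
    exact ⟨S, hS, rfl⟩
  · rintro ⟨S, hS, rfl⟩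
    exact ⟨sN S, h S hS, ⊤, el_vN.2 ⟨S, hS, rfl, rfl⟩, ⟨0, le_top⟩, rfl⟩

end

variable (D) in
/-- The existence of the model. -/
theorem exists_model [Countable I] (X : Set (PName (Cd I)))
    (hX : X.Countable) : ∃ π : Pkg (Cd I), (∀ i : I, bN i ∈ π.N) ∧ IsZF ((sys D).Ms π) ∧
      ((sys D).Ms π).Countable ∧ X ⊆ π.N := by
  obtain ⟨π, hA, -, hcl⟩ := exists_pkg (sys D).rules (Set.Finite.countable (by
    unfold Sys.rules
    exact Set.toFinite _)) (X ∪ Set.range bN)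
    (hX.union (Set.countable_range _)) ⊤
  have hCld : (sys D).Cld π := fun ρ hρ => hcl ρ hρ
  have hM : IsZF ((sys D).Ms π) := SY.T_ZF.main SY.T_TRU.main SY.T_SEP.main _ _ π hCld
  exact ⟨π, fun i => hA (Or.inr ⟨i, rfl⟩), hM,
    (π.cnt.mono fun _ h => h.1).image _, fun x hx => hA (Or.inl hx)⟩

end W

end Pool.Agent.R598.PM
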