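import Pool.Agent.R598.PM.FS

/-!
# A dyadically filterbase infinite set with a Dedekind-finite power set
-/

set_option autoImplicit false

namespace Pool.Agent.R598.PM

open Pool.Agent.W868 Pool.Agent.W868.PName Pool.Agent.R598.SY
open ZFSet (pair)

/-- The power set of the set of atoms is Dedekind-finite. -/
theorem weakDFin {I : Type} {D : PD I} (hof : OF D) {π : Pkg (Cd I)} (g : Gd D π) :
    WeakDFin ((sys D).Ms π) (ev π Set.univ) := by
  rintro Q - hQ ⟨f, hf, ⟨h1, h2⟩, h3⟩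
  obtain ⟨E, H, hH, hE⟩ := exists_seq g hf
  have key : ∀ n : ℕ, ∃ S, Sup D E H S ∧ pair (nat n) (ev π S) ∈ f := by
    intro n
    obtain ⟨X, hX, hu⟩ := h2 (nat n) (mem_omega_iff.2 ⟨n, rfl⟩)
    obtain ⟨hXM, hXA⟩ := (hQ X).1 (ZFSet.pair_mem_prod.1 (h1 hX)).2
    obtain ⟨S, hS, rfl⟩ := exists_dfb g hXM hXA
    refine ⟨S, fun τ h4 h5 h6 i hi => ?_, hX⟩
    have h7 := ev_inj g (hu _ (hE τ h4 h5 h6 n S hS hX))
    rw [← h7]
    exact ⟨i, hi, rfl⟩
  choose S hS hSf using key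
  have hfin := hof.finite E hH
  refine Set.infinite_univ (α := ℕ) (Set.Finite.of_finite_image (f := S) (hfin.subset ?_) ?_)
  · rintro _ ⟨n, -, rfl⟩
    exact hS n
  · intro n _ m _ hnm
    have h4 := hSf n
    have h5 := hSf m
    rw [hnm] at h4
    exact nat_injective (h3 _ _ _ h4 h5)

namespace Dy

/-- The index of the class of `x` at the level `n`. -/
def ix : ℕ → ℕ × Finset ℕ → ℕ
  | 0, _ => 0
  | n + 1, x => 2 * ix n x + if n ∈ x.2 then 1 else 0

theorem ix_lt (n : ℕ) (x : ℕ × Finset ℕ) : ix n x < 2 ^ n := by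
  induction n with
  | zero => exact Nat.one_pos
  | succ n ih =>
    have h1 : ix (n + 1) x = 2 * ix n x + if n ∈ x.2 then 1 else 0 := rfl
    rw [h1, pow_succ]
    split_ifs <;> omega

theorem ix_pred {n : ℕ} {x y : ℕ × Finset ℕ} (h : ix (n + 1) x = ix (n + 1) y) :
    ix n x = ix n y := by
  have h1 : ix (n + 1) x = 2 * ix n x + if n ∈ x.2 then 1 else 0 := rfl
  have h2 : ix (n + 1) y = 2 * ix n y + if n ∈ y.2 then 1 else 0 := rfl
  rw [h1, h2] at h
  split_ifs at h <;> omega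

theorem ix_mono (n m : ℕ) (h : n ≤ m) (x y : ℕ × Finset ℕ) : ix m x = ix m y → ix n x = ix n y := by
  induction m, h using Nat.le_induction with
  | base => exact id
  | succ m _ ih => exact fun h => ih (ix_pred h)

theorem ix_congr {n : ℕ} {x y : ℕ × Finset ℕ} (h : ∀ k < n, (k ∈ x.2 ↔ k ∈ y.2)) :
    ix n x = ix n y := by
  induction n with
  | zero => rfl
  | succ n ih =>
    have h1 : ix (n + 1) x = 2 * ix n x + if n ∈ x.2 then 1 else 0 := rfl
    have h2 : ix (n + 1) y = 2 * ix n y + if n ∈ y.2 then 1 else 0 := rfl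
    rw [h1, h2, ih fun k hk => h k (hk.trans (Nat.lt_succ_self n))]
    by_cases hn : n ∈ x.2
    · rw [if_pos hn, if_pos ((h n (Nat.lt_succ_self n)).1 hn)]
    · rw [if_neg hn, if_neg fun h3 => hn ((h n (Nat.lt_succ_self n)).2 h3)]

theorem ix_surj (n : ℕ) : ∀ i < 2 ^ n, ∃ s, ∀ m, ix n (m, s) = i := by
  induction n with
  | zero =>
    intro i hi
    refine ⟨∅, fun m => ?_⟩
    change 0 = i
    rw [pow_zero] at hi
    omega
  | succ n ih =>
    intro i hi
    rw [pow_succ] at hi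
    obtain ⟨s, hs⟩ := ih (i / 2) (by omega)
    have h1 : ∀ m (t : Finset ℕ), (∀ k < n, (k ∈ t ↔ k ∈ s)) → ix n (m, t) = i / 2 := by
      intro m t ht
      rw [← hs m]
      exact ix_congr fun k hk => ht k hk
    by_cases hi2 : i % 2 = 0
    · refine ⟨s.erase n, fun m => ?_⟩
      change 2 * ix n (m, s.erase n) + (if n ∈ s.erase n then 1 else 0) = i
      rw [h1 m (s.erase n) fun k hk => by rw [Finset.mem_erase]; exact ⟨fun h => h.2,
        fun h => ⟨hk.ne, h⟩⟩, if_neg (Finset.notMem_erase n s)]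
      omega
    · refine ⟨insert n s, fun m => ?_⟩
      change 2 * ix n (m, insert n s) + (if n ∈ insert n s then 1 else 0) = i
      rw [h1 m (insert n s) fun k hk => by rw [Finset.mem_insert]; exact ⟨fun h => h.resolve_left
        hk.ne, Or.inr⟩, if_pos (Finset.mem_insert_self n s)]
      omega

/-- The permutation model. -/
noncomputable def D : PD (ℕ × Finset ℕ) := mkPD ix ix_mono

/-- The classes. -/
def B (n i : ℕ) : Set (ℕ × Finset ℕ) := {x | ix n x = i - 1}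

theorem B_dfb (n i : ℕ) : B n i ∈ Dfb D := by
  refine dfb_mkPD' n fun x y h hx => ?_
  change ix n y = i - 1
  rw [← h]
  exact hx

theorem B_inf {n i : ℕ} (h1 : 1 ≤ i) (h2 : i ≤ 2 ^ n) : (B n i).Infinite := by
  obtain ⟨s, hs⟩ := ix_surj n (i - 1) (by omega)
  refine Set.infinite_of_injective_forall_mem (f := fun m : ℕ => (m, s)) ?_ hs
  intro m m' h
  exact (Prod.mk.inj h).1

theorem B_sub {n i : ℕ} (h1 : 1 ≤ i) : B (n + 1) (2 * i - 1) ∪ B (n + 1) (2 * i) ⊆ B n i := by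
  intro x hx
  have h2 : ix (n + 1) x = 2 * ix n x + if n ∈ x.2 then 1 else 0 := rfl
  change ix n x = i - 1
  rcases hx with hx | hx
  · have h3 : ix (n + 1) x = 2 * i - 1 - 1 := hx
    rw [h2] at h3
    split_ifs at h3 <;> omega
  · have h3 : ix (n + 1) x = 2 * i - 1 := hx
    rw [h2] at h3
    split_ifs at h3 <;> omega

theorem of_D : OF D := of_mkPD fun n =>
  (Set.finite_Iio (2 ^ n)).subset (by rintro _ ⟨x, rfl⟩; exact ix_lt n x)

/-- The names of the indices. -/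
noncomputable def kN (t : ℕ × ℕ) : PName (Cd (ℕ × Finset ℕ)) :=
  opN (check (nat t.1)) (check (nat t.2))

theorem dyadInf {π : Pkg (Cd (ℕ × Finset ℕ))} (g : Gd D π) (hM : IsZF ((sys D).Ms π))
    (hv : ∀ t : ℕ × ℕ, vN (md _ (B t.1 t.2)) ∈ π.N)
    (hf : fN kN (fun t => md _ (B t.1 t.2)) ∈ π.N) :
    DyadInf ((sys D).Ms π) (ev π Set.univ) := by
  have hk : ∀ t, kN t ∈ π.N := fun t => π.opN_mem (π.nat_Z _) (π.nat_Z _)
  have hkv : ∀ t, π.val (kN t) = pair (nat t.1) (nat t.2) := by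
    intro t
    have h1 : π.val (check (nat t.1)) = nat t.1 := π.hat_nat _
    have h2 : π.val (check (nat t.2)) = nat t.2 := π.hat_nat _
    unfold kN
    rw [π.val_opN (π.nat_Z _) (π.nat_Z _), h1, h2]
  have hmem : ∀ n i {z}, z ∈ π.val (vN (md _ (B n i))) ↔ ∃ S ∈ md _ (B n i), z = ev π S :=
    fun n i {z} => mem_vN g (md_dfb (B_dfb n i))
  refine ⟨π.val (fN kN fun t => md _ (B t.1 t.2)), ⟨_, ⟨hf, hs_fN (fun t => ?_) (fun t ρ => ?_)
    (fun t => inv_md _) (fun t => md_dfb (B_dfb _ _))⟩, rfl⟩, fun n i => π.val (vN (md _ (B n i))),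
    ?_, fun n hn => ⟨fun i h1 h2 => fbi_md g hM (B_dfb n i) (B_inf h1 h2),
      fun i h1 h2 => fin_md g hM (B_dfb n i), ?_, ?_⟩⟩
  · exact (sys D).hs_opN ((sys D).hs_check _) ((sys D).hs_check _)
  · unfold kN
    rw [act_opN ((sys D).top ρ), act_check ((sys D).top ρ), act_check ((sys D).top ρ)]
  · intro n i _ _ _ y
    rw [mem_fN hk hv]
    constructor
    · rintro ⟨t, h1, h2⟩
      rw [hkv] at h1
      obtain ⟨h3, h4⟩ := ZFSet.pair_inj.1 h1
      rw [h2, nat_injective h3, nat_injective h4]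
    · rintro rfl
      exact ⟨(n, i), (hkv (n, i)).symm, rfl⟩
  · intro i j hi _ hj _ hij W hW G hG
    obtain ⟨S, hS, rfl⟩ := (hmem n i).1 hW
    obtain ⟨S', hS', rfl⟩ := (hmem n j).1 hG
    refine ⟨_, (hmem _ _).2 ⟨_, Fe.refl _, rfl⟩, _, (hmem _ _).2 ⟨_, Fe.refl _, rfl⟩, ?_, ?_⟩
    · rw [ev_union g, ev_diff g, finIn_ev g hM]
      exact hS.2.subset fun x hx => ⟨B_sub hi hx.1, hx.2⟩
    · rw [ev_union g, ev_inter g, finIn_ev g hM]
      refine hS'.1.subset fun x hx => ⟨hx.2, fun h => ?_⟩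
      have h1 : ix n x = i - 1 := B_sub hi hx.1
      have h2 : ix n x = j - 1 := h
      omega
  · intro c hc
    rw [ev_sep g, finIn_ev g hM]
    have h1 : ∀ i ∈ Finset.Icc 1 (2 ^ n), (B n i \ {x | π.val (bN x) ∈ c i}).Finite := by
      intro i hi
      rw [Finset.mem_Icc] at hi
      obtain ⟨S, hS, h2⟩ := (hmem n i).1 (hc i hi.1 hi.2)
      refine hS.2.subset fun x hx => ⟨hx.1, fun h3 => hx.2 ?_⟩
      change π.val (bN x) ∈ c i
      rw [h2]
      exact (bN_mem_ev g).2 h3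
    refine ((Finset.Icc 1 (2 ^ n)).finite_toSet.biUnion h1).subset fun x hx => ?_
    have h2 := ix_lt n x
    refine Set.mem_iUnion₂.2 ⟨ix n x + 1, Finset.mem_coe.2 (Finset.mem_Icc.2 ⟨by omega, by omega⟩),
      rfl, ?_⟩
    exact hx.2 _ (by omega) (by omega)

/-- The model. -/
theorem main : ∃ M : Set ZFSet.{0}, M.Countable ∧ IsZF M ∧ ∃ A ∈ M,
    DyadInf M A ∧ WeakDFin M A := by
  obtain ⟨π, g, hM, hc, hX⟩ := exists_model of_D ctb_mkPD
    (Set.range (fun t : ℕ × ℕ => vN (md _ (B t.1 t.2))) ∪ {fN kN fun t => md _ (B t.1 t.2)})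
    ((Set.countable_range _).union (Set.countable_singleton _))
  exact ⟨(sys D).Ms π, hc, hM, ev π Set.univ, ev_mem g dfb_univ,
    dyadInf g hM (fun t => hX (Or.inl ⟨t, rfl⟩)) (hX (Or.inr rfl)), weakDFin of_D g⟩

end Dy

end Pool.Agent.R598.PM
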