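import Pool.Agent.R598.SY.T_ZF
import Pool.Agent.R598.SY.T_TRU
import Pool.Agent.R598.SY.T_SEP

/-!
# Permutation models realized by symmetric submodels: sets of sets of Cohen reals

`I` is a countable index set of the atoms, `T` is a group of permutations of `I`, and `Φ` is a
family of subgroups that, together with the pointwise stabilizers of finite sets, generates a
normal filter.
-/

set_option autoImplicit false

namespace Pool.Agent.R598.PM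

open Pool.Agent.W868 Pool.Agent.W868.PName Pool.Agent.R598.SY
open ZFSet (pair)

/-- The data of a permutation model. -/
structure PD (I : Type) where
  /-- the group -/
  T : Subgroup (Equiv.Perm I)
  /-- the basis of the filter -/
  Φ : Set (Subgroup (Equiv.Perm I))
  ne : Φ.Nonempty
  conj : ∀ H ∈ Φ, ∀ τ ∈ T, ∃ E : Finset I, ∃ K ∈ Φ, ∀ κ ∈ T, κ ∈ K → (∀ i ∈ E, κ i = i) →
    τ⁻¹ * κ * τ ∈ H
  dir : ∀ H ∈ Φ, ∀ K ∈ Φ, ∃ L ∈ Φ, L ≤ H ∧ L ≤ K

variable {I : Type}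

variable (I) in
/-- Conditions: finite partial functions from `(I × ℕ) × ℕ` to `{true, false}`. -/
structure Cd : Type where
  /-- the graph -/
  s : Set ((I × ℕ) × ℕ × Bool)
  fin : s.Finite
  fn : ∀ a n, (a, n, true) ∈ s → (a, n, false) ∉ s

theorem Cd.ext' {p q : Cd I} (h : p.s = q.s) : p = q := by
  cases p
  cases q
  congr

instance : Preorder (Cd I) where
  le p q := q.s ⊆ p.s
  le_refl _ := subset_rfl
  le_trans _ _ _ h h' := h'.trans h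

instance : OrderTop (Cd I) where
  top := ⟨∅, Set.finite_empty, fun _ _ h => h.elim⟩
  le_top _ := Set.empty_subset _

theorem le_def {p q : Cd I} : p ≤ q ↔ q.s ⊆ p.s := Iff.rfl

/-- The action on the conditions. -/
def mv (ρ : Equiv.Perm (I × ℕ)) (p : Cd I) : Cd I where
  s := {x | (ρ.symm x.1, x.2) ∈ p.s}
  fin := by
    refine p.fin.preimage (f := fun x : (I × ℕ) × ℕ × Bool => (ρ.symm x.1, x.2)) ?_
    rintro ⟨a, x⟩ - ⟨b, y⟩ - h
    obtain ⟨h1, h2⟩ := Prod.mk.inj h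
    exact Prod.ext (ρ.symm.injective h1) h2
  fn a n := p.fn (ρ.symm a) n

theorem mem_mv {ρ : Equiv.Perm (I × ℕ)} {p : Cd I} {x : (I × ℕ) × ℕ × Bool} :
    x ∈ (mv ρ p).s ↔ (ρ.symm x.1, x.2) ∈ p.s := Iff.rfl

theorem mv_le {ρ : Equiv.Perm (I × ℕ)} {p q : Cd I} (h : p ≤ q) : mv ρ p ≤ mv ρ q :=
  fun _ hx => h hx

theorem mv_symm_mv (ρ : Equiv.Perm (I × ℕ)) (p : Cd I) : mv ρ.symm (mv ρ p) = p := by
  refine Cd.ext' (Set.ext fun x => ?_)
  rw [mem_mv, mem_mv]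
  simp

theorem mv_mv_symm (ρ : Equiv.Perm (I × ℕ)) (p : Cd I) : mv ρ (mv ρ.symm p) = p := by
  refine Cd.ext' (Set.ext fun x => ?_)
  rw [mem_mv, mem_mv]
  simp

/-- The permutation `ρ` acts on the blocks as `τ`. -/
def Bl (ρ : Equiv.Perm (I × ℕ)) (τ : Equiv.Perm I) : Prop := ∀ a, (ρ a).1 = τ a.1

theorem Bl.mul {ρ ρ' : Equiv.Perm (I × ℕ)} {τ τ' : Equiv.Perm I} (h : Bl ρ τ) (h' : Bl ρ' τ') :
    Bl (ρ * ρ') (τ * τ') := by
  intro a
  change (ρ (ρ' a)).1 = τ (τ' a.1)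
  rw [h, h']

theorem Bl.inv {ρ : Equiv.Perm (I × ℕ)} {τ : Equiv.Perm I} (h : Bl ρ τ) : Bl ρ⁻¹ τ⁻¹ := by
  intro a
  have h1 := h (ρ.symm a)
  rw [Equiv.apply_symm_apply] at h1
  change (ρ.symm a).1 = τ.symm a.1
  rw [h1, Equiv.symm_apply_apply]

theorem Bl.one : Bl (1 : Equiv.Perm (I × ℕ)) 1 := fun _ => rfl

theorem Bl.uniq {ρ : Equiv.Perm (I × ℕ)} {τ τ' : Equiv.Perm I} (h : Bl ρ τ) (h' : Bl ρ τ') :
    τ = τ' := by
  ext i
  rw [← h (i, 0), ← h' (i, 0)]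

variable (D : PD I)

/-- The group. -/
def Gp : Subgroup (Equiv.Perm (I × ℕ)) where
  carrier := {ρ | ∃ τ ∈ D.T, Bl ρ τ}
  mul_mem' := by
    rintro ρ ρ' ⟨τ, hτ, h⟩ ⟨τ', hτ', h'⟩
    exact ⟨τ * τ', D.T.mul_mem hτ hτ', h.mul h'⟩
  one_mem' := ⟨1, D.T.one_mem, Bl.one⟩
  inv_mem' := by
    rintro ρ ⟨τ, hτ, h⟩
    exact ⟨τ⁻¹, D.T.inv_mem hτ, h.inv⟩

/-- The action. -/
def acH : Gp D →* (Cd I ≃o Cd I) where
  toFun ρ :=
    { toFun := mv ρ.1
      invFun := mv ρ.1.symm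
      left_inv := mv_symm_mv ρ.1
      right_inv := mv_mv_symm ρ.1
      map_rel_iff' := by
        intro p q
        constructor
        · intro h
          have h1 := mv_le (ρ := ρ.1.symm) h
          simp only [Equiv.coe_fn_mk] at h1
          rwa [mv_symm_mv, mv_symm_mv] at h1
        · exact mv_le }
  map_one' := by
    ext p
    rfl
  map_mul' := by
    intro ρ τ
    ext p
    rfl

/-- The subgroups of the filter. -/
def fixE (E : Finset (I × ℕ)) (H : Subgroup (Equiv.Perm I)) : Subgroup (Gp D) where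
  carrier := {ρ | (∀ a ∈ E, ρ.1 a = a) ∧ ∃ τ ∈ D.T, τ ∈ H ∧ Bl ρ.1 τ}
  mul_mem' := by
    rintro ρ ρ' ⟨h1, τ, hτ, hτH, h2⟩ ⟨h1', τ', hτ', hτH', h2'⟩
    refine ⟨fun a ha => ?_, τ * τ', D.T.mul_mem hτ hτ', H.mul_mem hτH hτH', h2.mul h2'⟩
    change ρ.1 (ρ'.1 a) = a
    rw [h1' a ha, h1 a ha]
  one_mem' := ⟨fun a _ => rfl, 1, D.T.one_mem, H.one_mem, Bl.one⟩
  inv_mem' := by
    rintro ρ ⟨h1, τ, hτ, hτH, h2⟩
    refine ⟨fun a ha => ?_, τ⁻¹, D.T.inv_mem hτ, H.inv_mem hτH, h2.inv⟩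
    change ρ.1⁻¹ a = a
    rw [Equiv.Perm.inv_eq_iff_eq, h1 a ha]

open Classical in
/-- The symmetric system. -/
noncomputable def sys : Sys (Cd I) where
  G := Gp D
  grp := inferInstance
  ac := acH D
  top := by
    intro ρ
    exact Cd.ext' rfl
  F := {K | ∃ E, ∃ H ∈ D.Φ, K = fixE D E H}
  ne := by
    obtain ⟨H, hH⟩ := D.ne
    exact ⟨_, ∅, H, hH, rfl⟩
  conj := by
    rintro _ ⟨E, H, hH, rfl⟩ g
    obtain ⟨γ, hγ, hgγ⟩ := g.2
    obtain ⟨E₀, K, hK, h⟩ := D.conj H hH γ hγ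
    refine ⟨_, ⟨E.image g.1 ∪ E₀.image (fun i => (i, 0)), K, hK, rfl⟩, ?_⟩
    rintro k ⟨hk1, κ, hκ, hκK, hkκ⟩
    refine ⟨fun a ha => ?_, γ⁻¹ * κ * γ, D.T.mul_mem (D.T.mul_mem (D.T.inv_mem hγ) hκ) hγ,
      h κ hκ hκK fun i hi => ?_, (hgγ.inv.mul hkκ).mul hgγ⟩
    · have h1 := hk1 (g.1 a) (Finset.mem_union_left _ (Finset.mem_image_of_mem _ ha))
      change g.1.symm (k.1 (g.1 a)) = a
      rw [h1, Equiv.symm_apply_apply]
    · have h1 := hk1 (i, 0) (Finset.mem_union_right _ (Finset.mem_image_of_mem _ hi))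
      have h2 := hkκ (i, 0)
      rw [h1] at h2
      exact h2.symm
  dir := by
    rintro _ ⟨E, H, hH, rfl⟩ _ ⟨E', H', hH', rfl⟩
    obtain ⟨L, hL, h1, h2⟩ := D.dir H hH H' hH'
    refine ⟨_, ⟨E ∪ E', L, hL, rfl⟩, ?_, ?_⟩
    · rintro ρ ⟨h3, τ, hτ, hτL, h4⟩
      exact ⟨fun a ha => h3 a (Finset.mem_union_left _ ha), τ, hτ, h1 hτL, h4⟩
    · rintro ρ ⟨h3, τ, hτ, hτL, h4⟩
      exact ⟨fun a ha => h3 a (Finset.mem_union_right _ ha), τ, hτ, h2 hτL, h4⟩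

theorem mem_F {K : Subgroup (sys D).G} : K ∈ (sys D).F ↔ ∃ E, ∃ H ∈ D.Φ, K = fixE D E H := Iff.rfl

/-! ### The names -/

/-- A condition with a single value. -/
def sg (a : I × ℕ) (n : ℕ) (b : Bool) : Cd I where
  s := {(a, n, b)}
  fin := Set.finite_singleton _
  fn := by
    intro c m h h'
    rw [Set.mem_singleton_iff] at h h'
    cases b <;> simp_all

/-- The name for the Cohen real `a`. -/
noncomputable def xN (a : I × ℕ) : PName (Cd I) :=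
  PName.mk ℕ (fun n => check (nat n)) (fun n => sg a n true)

/-- The name for the atom `i`. -/
noncomputable def bN (i : I) : PName (Cd I) := PName.mk ℕ (fun j => xN (i, j)) (fun _ => ⊤)

/-- The name for a set of atoms. -/
noncomputable def sN (S : Set I) : PName (Cd I) := PName.mk {i // i ∈ S} (fun i => bN i.1)
  (fun _ => ⊤)

theorem el_xN {a : I × ℕ} {z : PName (Cd I)} {c : Cd I} :
    El (xN a) z c ↔ ∃ n, z = check (nat n) ∧ c = sg a n true := by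
  rw [xN, el_mk]
  constructor
  · rintro ⟨n, rfl, rfl⟩
    exact ⟨n, rfl, rfl⟩
  · rintro ⟨n, rfl, rfl⟩
    exact ⟨n, rfl, rfl⟩

theorem el_bN {i : I} {z : PName (Cd I)} {c : Cd I} :
    El (bN i) z c ↔ ∃ j, z = xN (i, j) ∧ c = ⊤ := by
  rw [bN, el_mk]
  constructor
  · rintro ⟨n, rfl, rfl⟩
    exact ⟨n, rfl, rfl⟩
  · rintro ⟨n, rfl, rfl⟩
    exact ⟨n, rfl, rfl⟩

theorem el_sN {S : Set I} {z : PName (Cd I)} {c : Cd I} :
    El (sN S) z c ↔ ∃ i ∈ S, z = bN i ∧ c = ⊤ := by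
  rw [sN, el_mk]
  constructor
  · rintro ⟨⟨i, hi⟩, rfl, rfl⟩
    exact ⟨i, hi, rfl, rfl⟩
  · rintro ⟨i, hi, rfl, rfl⟩
    exact ⟨⟨i, hi⟩, rfl, rfl⟩

theorem mv_sg (ρ : Equiv.Perm (I × ℕ)) (a : I × ℕ) (n : ℕ) (b : Bool) :
    mv ρ (sg a n b) = sg (ρ a) n b := by
  refine Cd.ext' (Set.ext fun x => ?_)
  obtain ⟨c, m, d⟩ := x
  rw [mem_mv]
  change (ρ.symm c, m, d) = (a, n, b) ↔ (c, m, d) = (ρ a, n, b)
  constructor
  · intro h
    obtain ⟨h1, h2⟩ := Prod.mk.inj h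
    rw [← h1, Equiv.apply_symm_apply, h2]
  · intro h
    obtain ⟨h1, h2⟩ := Prod.mk.inj h
    rw [h1, Equiv.symm_apply_apply, h2]

variable {D}

theorem act_xN (ρ : (sys D).G) (a : I × ℕ) : act ((sys D).ac ρ) (xN a) = xN (ρ.1 a) := by
  unfold xN act
  congr 1
  · funext n
    exact act_check ((sys D).top ρ) _
  · funext n
    exact mv_sg _ _ _ _

theorem act_bN {ρ : (sys D).G} {τ : Equiv.Perm I} (h : Bl ρ.1 τ) (i : I) (p : Cd I) :
    Feq (act ((sys D).ac ρ) (bN i)) (bN (τ i)) p := by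
  refine feq_of_el fun z c => ?_
  rw [el_act, el_bN]
  constructor
  · rintro ⟨z, c, hz, rfl, rfl⟩
    obtain ⟨j, rfl, rfl⟩ := el_bN.1 hz
    refine ⟨(ρ.1 (i, j)).2, ?_, (sys D).top ρ⟩
    rw [act_xN]
    congr 1
    exact Prod.ext (h (i, j)) rfl
  · rintro ⟨j, rfl, rfl⟩
    have h1 : (ρ.1.symm (τ i, j)).1 = i := by
      have h2 := h.inv (τ i, j)
      change (ρ.1.symm (τ i, j)).1 = τ.symm (τ i) at h2
      rwa [Equiv.symm_apply_apply] at h2
    refine ⟨xN (ρ.1.symm (τ i, j)), ⊤, el_bN.2 ⟨(ρ.1.symm (τ i, j)).2, ?_, rfl⟩, ?_,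
      ((sys D).top ρ).symm⟩
    · exact congrArg xN (Prod.ext h1 rfl)
    · rw [act_xN, Equiv.apply_symm_apply]

theorem act_sN {ρ : (sys D).G} {τ : Equiv.Perm I} (h : Bl ρ.1 τ) (S : Set I) (p : Cd I) :
    Feq (act ((sys D).ac ρ) (sN S)) (sN (τ '' S)) p := by
  rw [feq_iff']
  constructor
  · intro a c ha q hq hqc
    obtain ⟨z, d, hz, rfl, rfl⟩ := el_act.1 ha
    obtain ⟨i, hi, rfl, rfl⟩ := el_sN.1 hz
    exact ⟨q, le_rfl, _, ⊤, el_sN.2 ⟨_, Set.mem_image_of_mem _ hi, rfl, rfl⟩, le_top, act_bN h i q⟩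
  · intro a c ha q hq hqc
    obtain ⟨_, ⟨i, hi, rfl⟩, rfl, rfl⟩ := el_sN.1 ha
    exact ⟨q, le_rfl, _, ⊤, el_act.2 ⟨_, ⊤, el_sN.2 ⟨i, hi, rfl, rfl⟩, rfl,
      ((sys D).top ρ).symm⟩, le_top, act_bN h i q⟩

theorem hs_xN (a : I × ℕ) : (sys D).HS (xN a) := by
  obtain ⟨H, hH⟩ := D.ne
  refine (sys D).hs_iff.2 ⟨⟨_, ⟨{a}, H, hH, rfl⟩, fun ρ hρ p => ?_⟩, fun z c hz => ?_⟩
  · have h1 : ρ.1 a = a := hρ.1 a (Finset.mem_singleton_self a)
    have h2 : act ((sys D).ac ρ) (xN a) = xN a := (act_xN ρ a).trans (by rw [h1])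
    rw [h2]
    exact Feq.refl _ _
  · obtain ⟨n, rfl, rfl⟩ := el_xN.1 hz
    exact (sys D).hs_check _

theorem hs_bN (i : I) : (sys D).HS (bN i) := by
  obtain ⟨H, hH⟩ := D.ne
  refine (sys D).hs_iff.2 ⟨⟨_, ⟨{(i, 0)}, H, hH, rfl⟩, ?_⟩, fun z c hz => ?_⟩
  · rintro ρ ⟨hρ, τ, -, -, hτ⟩ p
    have h1 := hτ (i, 0)
    rw [hρ _ (Finset.mem_singleton_self _)] at h1
    have h2 := act_bN hτ i p
    change i = τ i at h1
    rwa [← h1] at h2
  · obtain ⟨n, rfl, rfl⟩ := el_bN.1 hz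
    exact hs_xN _

variable (D) in
/-- The set `S` has the support `(E, H)`. -/
def Sup (E : Finset I) (H : Subgroup (Equiv.Perm I)) (S : Set I) : Prop :=
  ∀ τ ∈ D.T, τ ∈ H → (∀ i ∈ E, τ i = i) → ∀ i ∈ S, τ i ∈ S

theorem Sup.image {E : Finset I} {H : Subgroup (Equiv.Perm I)} {S : Set I} (h : Sup D E H S)
    {τ : Equiv.Perm I} (h1 : τ ∈ D.T) (h2 : τ ∈ H) (h3 : ∀ i ∈ E, τ i = i) : τ '' S = S := by
  ext i
  constructor
  · rintro ⟨j, hj, rfl⟩
    exact h τ h1 h2 h3 j hj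
  · intro hi
    refine ⟨τ⁻¹ i, h τ⁻¹ (D.T.inv_mem h1) (H.inv_mem h2) (fun j hj => ?_) i hi, ?_⟩
    · rw [Equiv.Perm.inv_eq_iff_eq, h3 j hj]
    · exact Equiv.apply_symm_apply τ i

theorem hs_sN {S : Set I} {E : Finset I} {H : Subgroup (Equiv.Perm I)} (hH : H ∈ D.Φ)
    (h : Sup D E H S) : (sys D).HS (sN S) := by
  classical
  refine (sys D).hs_iff.2 ⟨⟨_, ⟨E.image fun i => (i, 0), H, hH, rfl⟩, ?_⟩, fun z c hz => ?_⟩
  · rintro ρ ⟨hρ, τ, hτT, hτH, hτ⟩ p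
    have h2 := act_sN hτ S p
    rwa [h.image hτT hτH fun i hi => ?_] at h2
    have h1 := hτ (i, 0)
    rw [hρ _ (Finset.mem_image_of_mem _ hi)] at h1
    exact h1.symm
  · obtain ⟨i, hi, rfl, rfl⟩ := el_sN.1 hz
    exact hs_bN _

/-! ### Distinctness -/

theorem Cd.exists_fresh (p : Cd I) (a b : I × ℕ) :
    ∃ n, ∀ v, (a, n, v) ∉ p.s ∧ (b, n, v) ∉ p.s := by
  have h1 : ((fun x : (I × ℕ) × ℕ × Bool => x.2.1) '' p.s).Finite := p.fin.image _
  obtain ⟨n, hn⟩ := h1.exists_notMem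
  exact ⟨n, fun v => ⟨fun h => hn ⟨_, h, rfl⟩, fun h => hn ⟨_, h, rfl⟩⟩⟩

theorem not_feq_xN {a b : I × ℕ} (hab : a ≠ b) (p : Cd I) : ¬ Feq (xN a) (xN b) p := by
  intro h
  obtain ⟨n, hn⟩ := p.exists_fresh a b
  let q : Cd I :=
    { s := p.s ∪ {(a, n, true), (b, n, false)}
      fin := p.fin.union (Set.toFinite _)
      fn := by
        intro c m h1 h2
        rcases h1 with h1 | h1 <;> rcases h2 with h2 | h2
        · exact p.fn c m h1 h2
        · rw [Set.mem_insert_iff, Set.mem_singleton_iff] at h2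
          rcases h2 with h2 | h2
          · simp at h2
          · obtain ⟨rfl, h3⟩ := Prod.mk.inj h2
            obtain ⟨rfl, -⟩ := Prod.mk.inj h3
            exact (hn true).2 h1
        · rw [Set.mem_insert_iff, Set.mem_singleton_iff] at h1
          rcases h1 with h1 | h1
          · obtain ⟨rfl, h3⟩ := Prod.mk.inj h1
            obtain ⟨rfl, -⟩ := Prod.mk.inj h3
            exact (hn false).1 h2
          · simp at h1
        · rw [Set.mem_insert_iff, Set.mem_singleton_iff] at h1 h2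
          rcases h1 with h1 | h1
          · rcases h2 with h2 | h2
            · simp at h2
            · obtain ⟨h3, -⟩ := Prod.mk.inj h1
              obtain ⟨h4, -⟩ := Prod.mk.inj h2
              exact hab (h3.symm.trans h4)
          · simp at h1 }
  have hq : q ≤ p := fun x hx => Or.inl hx
  have hq1 : q ≤ sg a n true := by
    intro x hx
    rw [show x = (a, n, true) from hx]
    exact Or.inr (Or.inl rfl)
  obtain ⟨s, hs, w, d, hw, hd, he⟩ := (feq_iff'.1 h).1 (check (nat n)) (sg a n true)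
    (el_xN.2 ⟨n, rfl, rfl⟩) q hq hq1
  obtain ⟨m, rfl, rfl⟩ := el_xN.1 hw
  rw [feq_check] at he
  have hm := nat_injective he
  subst hm
  have h1 : (b, n, true) ∈ s.s := hd rfl
  have h2 : (b, n, false) ∈ s.s := hs (Or.inr (Or.inr rfl))
  exact s.fn _ _ h1 h2

theorem not_feq_bN {i k : I} (hik : i ≠ k) (p : Cd I) : ¬ Feq (bN i) (bN k) p := by
  intro h
  obtain ⟨s, hs, w, d, hw, hd, he⟩ := (feq_iff'.1 h).1 (xN (i, 0)) ⊤
    (el_bN.2 ⟨0, rfl, rfl⟩) p le_rfl le_top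
  obtain ⟨j, rfl, rfl⟩ := el_bN.1 hw
  refine not_feq_xN ?_ s he
  intro h1
  exact hik (Prod.mk.inj h1).1

/-! ### Moving the atoms -/

/-- The involution that swaps `[0, J)` and `[J, 2 J)`. -/
def sj (J j : ℕ) : ℕ := if j < J then j + J else if j < 2 * J then j - J else j

theorem sj_sj (J j : ℕ) : sj J (sj J j) = j := by
  unfold sj
  split_ifs <;> omega

theorem sj_ge {J j : ℕ} (h : j < J) : J ≤ sj J j := by
  unfold sj
  rw [if_pos h]
  omega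

open Classical in
/-- The permutation that moves the block `i` to the block `τ i`, and the first `J` members of the
block, if it is moved, to the next `J` members. -/
noncomputable def shf (τ : Equiv.Perm I) (J : ℕ) : Equiv.Perm (I × ℕ) where
  toFun a := (τ a.1, if τ a.1 = a.1 then a.2 else sj J a.2)
  invFun a := (τ.symm a.1, if τ.symm a.1 = a.1 then a.2 else sj J a.2)
  left_inv := by
    rintro ⟨i, j⟩
    simp only [Equiv.symm_apply_apply]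
    by_cases h : τ i = i
    · simp [h]
    · rw [if_neg (fun h' => h h'.symm), if_neg h, sj_sj]
  right_inv := by
    rintro ⟨i, j⟩
    simp only [Equiv.apply_symm_apply]
    by_cases h : τ.symm i = i
    · simp [h]
    · rw [if_neg (fun h' => h h'.symm), if_neg h, sj_sj]

theorem bl_shf (τ : Equiv.Perm I) (J : ℕ) : Bl (shf τ J) τ := fun _ => rfl

theorem shf_fix {τ : Equiv.Perm I} {J : ℕ} {a : I × ℕ} (h : τ a.1 = a.1) : shf τ J a = a := by
  refine Prod.ext h ?_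
  unfold shf
  simp [h]

theorem shf_symm_pos {τ : Equiv.Perm I} {J j : ℕ} {i : I} (h : τ.symm i = i) :
    (shf τ J).symm (i, j) = (i, j) := by
  refine Prod.ext h ?_
  unfold shf
  simp [h]

theorem shf_symm_neg {τ : Equiv.Perm I} {J j : ℕ} {i : I} (h : ¬ τ.symm i = i) :
    (shf τ J).symm (i, j) = (τ.symm i, sj J j) := by
  refine Prod.ext rfl ?_
  unfold shf
  simp [h]

/-- A bound for the members of the blocks mentioned in a condition. -/
theorem Cd.exists_bound (p : Cd I) : ∃ J, ∀ x ∈ p.s, x.1.2 < J := by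
  have h1 : ((fun x : (I × ℕ) × ℕ × Bool => x.1.2) '' p.s).Finite := p.fin.image _
  obtain ⟨J, hJ⟩ := h1.bddAbove
  exact ⟨J + 1, fun x hx => Nat.lt_succ_of_le (hJ ⟨x, hx, rfl⟩)⟩

theorem compat {p : Cd I} {τ : Equiv.Perm I} {J : ℕ} (hJ : ∀ x ∈ p.s, x.1.2 < J) :
    ∃ q, q ≤ p ∧ q ≤ mv (shf τ J) p := by
  have key : ∀ a x y, (a, x) ∈ p.s → (a, y) ∈ (mv (shf τ J) p).s → (a, y) ∈ p.s := by
    rintro ⟨i, j⟩ x y hx hy
    have h1 : ((shf τ J).symm (i, j), y) ∈ p.s := hy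
    by_cases h : τ.symm i = i
    · rwa [shf_symm_pos h] at h1
    · rw [shf_symm_neg h] at h1
      have h2 := hJ _ h1
      have h3 := sj_ge (hJ _ hx)
      simp only at h2 h3
      omega
  refine ⟨⟨p.s ∪ (mv (shf τ J) p).s, p.fin.union (mv (shf τ J) p).fin, ?_⟩, fun x hx => Or.inl hx,
    fun x hx => Or.inr hx⟩
  intro a n h1 h2
  rcases h1 with h1 | h1 <;> rcases h2 with h2 | h2
  · exact p.fn a n h1 h2
  · exact p.fn a n h1 (key a _ _ h1 h2)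
  · exact p.fn a n (key a _ _ h2 h1) h2
  · exact (mv (shf τ J) p).fn a n h1 h2

/-- The main lemma. -/
theorem move {π : Pkg (Cd I)} {E : Finset (I × ℕ)} {H : Subgroup (Equiv.Perm I)}
    {t u u' : PName (Cd I)} (ht : t ∈ π.N) (hu : u ∈ π.N)
    (hu' : u' ∈ π.N) (hfix : (sys D).Fix (fixE D E H) t) {τ : Equiv.Perm I}
    (hτT : τ ∈ D.T) (hτH : τ ∈ H) (hτ : ∀ a ∈ E, τ a.1 = a.1)
    (h : ∀ ρ : (sys D).G, Bl ρ.1 τ → ∀ p, Feq (act ((sys D).ac ρ) u) u' p)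
    (hm : π.val u ∈ π.val t) : π.val u' ∈ π.val t := by
  by_contra hc
  obtain ⟨m, hm⟩ := (π.val_mem_iff hu ht).1 hm
  obtain ⟨k, h1 | h1, -⟩ := π.gen ⟨0, .mem (Sum.inr u') (Sum.inr t), Fin.elim0, ⊤⟩
    ⟨⟨tOver_inr.2 hu', tOver_inr.2 ht⟩, fun i => i.elim0⟩
  · exact hc ((π.val_mem_iff hu' ht).2 ⟨k, h1⟩)
  · obtain ⟨J, hJ⟩ := (π.g (max m k)).exists_bound
    obtain ⟨q, hq, hq'⟩ := compat (τ := τ) hJ
    let ρ : (sys D).G := ⟨shf τ J, τ, hτT, bl_shf τ J⟩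
    have hρ : ρ ∈ fixE D E H := ⟨fun a ha => shf_fix (hτ a ha), τ, hτT, hτH, bl_shf τ J⟩
    have h2 : Fmem u t (π.g (max m k)) := hm.mono (π.g_le_left m k)
    have h3 := fmem_act' (e := (sys D).ac ρ) h2
    have h4 : Fmem u' t q :=
      fmem_congr (h ρ (bl_shf τ J) q) (hfix ρ hρ q) (h3.mono hq')
    exact h1 q (hq.trans (π.g_le_right m k)) h4

end Pool.Agent.R598.PM
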