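import Pool.Agent.W868.Defs

/-!
# Filterbase notions of infinity in a transitive model of ZF: definitions
-/

set_option autoImplicit false

namespace Pool.Agent.R598.PM

open Pool.Agent.W868
open ZFSet (pair)

/-- In the model `M` the set `Y` is finite: `M` has a bijection between `Y` and a natural
number. -/
def FinIn (M : Set ZFSet.{0}) (Y : ZFSet.{0}) : Prop := ∃ n : ℕ, ∃ f ∈ M, IsBij Y (nat n) f

/-- The set `V` is a filterbase in the set `A`. -/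
def IsFB (A V : ZFSet.{0}) : Prop :=
  (∃ U, U ∈ V) ∧ (∀ U ∈ V, U ⊆ A ∧ U ≠ ∅) ∧ ∀ U ∈ V, ∀ W ∈ V, ∃ Z ∈ V, Z ⊆ U ∩ W

/-- The set `V` is a filterbase in the set `A`, closed under finite unions and finite
intersections, and all its members are infinite in the model `M`. -/
def IsFBI (M : Set ZFSet.{0}) (A V : ZFSet.{0}) : Prop :=
  IsFB A V ∧ (∀ U ∈ V, ∀ W ∈ V, U ∪ W ∈ V ∧ U ∩ W ∈ V) ∧ ∀ U ∈ V, ¬ FinIn M U

/-- In the model `M`, the power set of the set `A` is Dedekind-finite. -/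
def WeakDFin (M : Set ZFSet.{0}) (A : ZFSet.{0}) : Prop :=
  ∀ Q ∈ M, (∀ z, z ∈ Q ↔ z ∈ M ∧ z ⊆ A) → ¬ ∃ f ∈ M, IsInj ZFSet.omega Q f

/-- In the model `M`, the set `A` is filterbase infinite. The sequence `V 0, V 1, ...` of
filterbases is given by the function `v ∈ M`. -/
def FBInf (M : Set ZFSet.{0}) (A : ZFSet.{0}) : Prop :=
  ∃ v ∈ M, ∃ V : ℕ → ZFSet.{0}, (∀ n y, pair (nat n) y ∈ v ↔ y = V n) ∧
    (∀ i, IsFB A (V i) ∧ ∀ z, ∃ U ∈ V i, z ∉ U) ∧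
    (∀ i j, i ≠ j → ∃ U ∈ V i, ∃ W ∈ V j, U ∩ W = ∅)

/-- In the model `M`, the set `A` is strongly filterbase infinite. The sequence `V 0, V 1, ...`
of filterbases is given by the function `v ∈ M`. -/
def StrongInf (M : Set ZFSet.{0}) (A : ZFSet.{0}) : Prop :=
  ∃ v ∈ M, ∃ V : ℕ → ZFSet.{0}, (∀ n y, pair (nat n) y ∈ v ↔ y = V n) ∧
    (∀ i, IsFBI M A (V i)) ∧
    (∀ i, ∀ U ∈ V i, ∀ W ∈ V i, FinIn M (U \ W)) ∧
    (∀ i j, i ≠ j → ∃ U ∈ V i, ∃ W ∈ V j, FinIn M (U ∩ W)) ∧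
    (∀ n, ∀ c : ℕ → ZFSet.{0}, (∀ i < n, c i ∈ V i) →
      ¬ FinIn M (ZFSet.sep (fun z => ∀ i < n, z ∉ c i) A))

/-- In the model `M`, the set `A` is dyadically filterbase infinite. The filterbases `V n i`, for
`1 ≤ n` and `1 ≤ i ≤ 2 ^ n`, are given by the function `v ∈ M`. -/
def DyadInf (M : Set ZFSet.{0}) (A : ZFSet.{0}) : Prop :=
  ∃ v ∈ M, ∃ V : ℕ → ℕ → ZFSet.{0},
    (∀ n i, 1 ≤ n → 1 ≤ i → i ≤ 2 ^ n →
      ∀ y, pair (pair (nat n) (nat i)) y ∈ v ↔ y = V n i) ∧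
    ∀ n, 1 ≤ n →
      (∀ i, 1 ≤ i → i ≤ 2 ^ n → IsFBI M A (V n i)) ∧
      (∀ i, 1 ≤ i → i ≤ 2 ^ n → ∀ U ∈ V n i, ∀ W ∈ V n i, FinIn M (U \ W)) ∧
      (∀ i j, 1 ≤ i → i ≤ 2 ^ n → 1 ≤ j → j ≤ 2 ^ n → i ≠ j → ∀ W ∈ V n i, ∀ G ∈ V n j,
        ∃ U ∈ V (n + 1) (2 * i - 1), ∃ U' ∈ V (n + 1) (2 * i),
          FinIn M ((U ∪ U') \ W) ∧ FinIn M ((U ∪ U') ∩ G)) ∧
      (∀ c : ℕ → ZFSet.{0}, (∀ i, 1 ≤ i → i ≤ 2 ^ n → c i ∈ V n i) →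
        FinIn M (ZFSet.sep (fun z => ∀ i, 1 ≤ i → i ≤ 2 ^ n → z ∉ c i) A))

end Pool.Agent.R598.PM
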