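import Pool.Agent.R598.PM.Mod

/-!
# The permutation models with the group of the finitely supported permutations
-/

set_option autoImplicit false

namespace Pool.Agent.R598.PM

open Pool.Agent.W868 Pool.Agent.W868.PName Pool.Agent.R598.SY
open ZFSet (pair)

variable {I : Type}

variable (I) in
/-- The permutations with finite support. -/
def FS : Subgroup (Equiv.Perm I) where
  carrier := {τ | {x | τ x ≠ x}.Finite}
  mul_mem' := by
    intro τ σ h h'
    refine (h.union h').subset fun x hx => ?_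
    by_contra hc
    rw [Set.mem_union, not_or] at hc
    have h1 : τ x = x := not_not.1 hc.1
    have h2 : σ x = x := not_not.1 hc.2
    exact hx (by rw [Equiv.Perm.mul_apply, h2, h1])
  one_mem' := by
    have h1 : {x : I | (1 : Equiv.Perm I) x ≠ x} = ∅ :=
      Set.eq_empty_of_forall_notMem fun x hx => hx rfl
    change {x : I | (1 : Equiv.Perm I) x ≠ x}.Finite
    rw [h1]
    exact Set.finite_empty
  inv_mem' := by
    intro τ h
    refine Set.Finite.subset h fun x hx => ?_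
    intro h1
    exact hx (by rw [Equiv.Perm.inv_eq_iff_eq, h1])

theorem mem_FS {τ : Equiv.Perm I} : τ ∈ FS I ↔ {x | τ x ≠ x}.Finite := Iff.rfl

/-- The permutations that preserve the values of `f`. -/
def Ker {β : Type} (f : I → β) : Subgroup (Equiv.Perm I) where
  carrier := {τ | ∀ x, f (τ x) = f x}
  mul_mem' := by
    intro τ σ h h' x
    change f (τ (σ x)) = f x
    rw [h, h']
  one_mem' := fun _ => rfl
  inv_mem' := by
    intro τ h x
    have h1 := h (τ⁻¹ x)
    rw [← h1]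
    exact congrArg f (Equiv.apply_symm_apply τ x)

theorem mem_Ker {β : Type} {f : I → β} {τ : Equiv.Perm I} : τ ∈ Ker f ↔ ∀ x, f (τ x) = f x :=
  Iff.rfl

/-- The finitely supported permutations with the filter given by `f`. -/
noncomputable def mkPD {β : Type} (f : ℕ → I → β)
    (mono : ∀ n m, n ≤ m → ∀ x y, f m x = f m y → f n x = f n y) : PD I where
  T := FS I
  Φ := Set.range fun n => Ker (f n)
  ne := ⟨_, 0, rfl⟩
  conj := by
    rintro _ ⟨n, rfl⟩ τ hτ
    refine ⟨(mem_FS.1 hτ).toFinset, Ker (f n), ⟨n, rfl⟩, fun κ _ hκ hfix x => ?_⟩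
    change f n (τ.symm (κ (τ x))) = f n x
    by_cases hx : τ x = x
    · rw [hx]
      by_cases hy : τ (κ x) = κ x
      · have h1 : τ.symm (κ x) = κ x := by
          rw [Equiv.symm_apply_eq, hy]
        rw [h1]
        exact hκ x
      · have h1 := hfix (κ x) ((mem_FS.1 hτ).mem_toFinset.2 hy)
        have h2 : κ x = x := κ.injective h1
        rw [h2, (Equiv.symm_apply_eq τ).2 hx.symm]
    · have h1 := hfix (τ x) ((mem_FS.1 hτ).mem_toFinset.2 fun h => hx (τ.injective h))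
      rw [h1, Equiv.symm_apply_apply]
  dir := by
    rintro _ ⟨n, rfl⟩ _ ⟨m, rfl⟩
    exact ⟨_, ⟨max n m, rfl⟩, fun τ h x => mono _ _ (le_max_left _ _) _ _ (h x),
      fun τ h x => mono _ _ (le_max_right _ _) _ _ (h x)⟩

section

variable {β : Type} {f : ℕ → I → β}
  {mono : ∀ n m, n ≤ m → ∀ x y, f m x = f m y → f n x = f n y}

theorem swap_mem_FS [DecidableEq I] (x y : I) : Equiv.swap x y ∈ FS I := by
  refine (Set.toFinite {x, y}).subset fun z hz => ?_
  by_contra hc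
  rw [Set.mem_insert_iff, Set.mem_singleton_iff, not_or] at hc
  exact hz (Equiv.swap_apply_of_ne_of_ne hc.1 hc.2)

theorem swap_mem_Ker [DecidableEq I] {g : I → β} {x y : I} (h : g x = g y) :
    Equiv.swap x y ∈ Ker g := by
  intro z
  by_cases h1 : z = x
  · rw [h1, Equiv.swap_apply_left, h]
  · by_cases h2 : z = y
    · rw [h2, Equiv.swap_apply_right, h]
    · rw [Equiv.swap_apply_of_ne_of_ne h1 h2]

theorem of_mkPD (hf : ∀ n, (Set.range (f n)).Finite) : OF (mkPD f mono) := by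
  classical
  rintro E _ ⟨n, rfl⟩
  refine ⟨I ⊕ β, fun x => if x ∈ E then Sum.inl x else Sum.inr (f n x), ?_, ?_⟩
  · refine ((E.finite_toSet.image Sum.inl).union ((hf n).image Sum.inr)).subset ?_
    rintro _ ⟨x, rfl⟩
    by_cases hx : x ∈ E
    · simp only [if_pos hx]
      exact Or.inl ⟨x, Finset.mem_coe.2 hx, rfl⟩
    · simp only [if_neg hx]
      exact Or.inr ⟨_, ⟨x, rfl⟩, rfl⟩
  · intro x y h
    by_cases hx : x ∈ E
    · by_cases hy : y ∈ E
      · simp only [if_pos hx, if_pos hy, Sum.inl.injEq] at h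
        exact ⟨1, (FS I).one_mem, (Ker (f n)).one_mem, fun _ _ => rfl, h⟩
      · simp only [if_pos hx, if_neg hy] at h
        cases h
    · by_cases hy : y ∈ E
      · simp only [if_neg hx, if_pos hy] at h
        cases h
      · simp only [if_neg hx, if_neg hy, Sum.inr.injEq] at h
        refine ⟨Equiv.swap x y, swap_mem_FS x y, swap_mem_Ker h, fun e he => ?_,
          Equiv.swap_apply_left _ _⟩
        refine Equiv.swap_apply_of_ne_of_ne ?_ ?_
        · rintro rfl
          exact hx he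
        · rintro rfl
          exact hy he

theorem ctb_mkPD : (mkPD f mono).Φ.Countable := Set.countable_range _

/-- The sets with a support are unions of classes, up to finite sets. -/
theorem dfb_mkPD {S : Set I} (h : S ∈ Dfb (mkPD f mono)) :
    ∃ E : Finset I, ∃ n, ∀ x, x ∉ E → ∀ y, y ∉ E → f n x = f n y → x ∈ S → y ∈ S := by
  classical
  obtain ⟨E, _, ⟨n, rfl⟩, hS⟩ := h
  refine ⟨E, n, fun x hx y hy hxy hxS => ?_⟩
  have h1 := hS (Equiv.swap x y) (swap_mem_FS x y) (swap_mem_Ker hxy) (fun e he => by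
    refine Equiv.swap_apply_of_ne_of_ne ?_ ?_
    · rintro rfl
      exact hx he
    · rintro rfl
      exact hy he) x hxS
  rwa [Equiv.swap_apply_left] at h1

theorem dfb_mkPD' {S : Set I} (n : ℕ) (h : ∀ x y, f n x = f n y → x ∈ S → y ∈ S) :
    S ∈ Dfb (mkPD f mono) :=
  ⟨∅, _, ⟨n, rfl⟩, fun τ _ h2 _ x hx => h x (τ x) (h2 x).symm hx⟩

end

/-! ### Equality up to a finite set -/

/-- The two sets are equal up to a finite set. -/
def Fe (S S' : Set I) : Prop := (S \ S').Finite ∧ (S' \ S).Finite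

theorem Fe.refl (S : Set I) : Fe S S := by
  unfold Fe
  rw [Set.sdiff_self]
  exact ⟨Set.finite_empty, Set.finite_empty⟩

theorem Fe.symm {S S' : Set I} (h : Fe S S') : Fe S' S := ⟨h.2, h.1⟩

theorem diff_fin {R S S' : Set I} (h : (R \ S).Finite) (h' : (S \ S').Finite) :
    (R \ S').Finite := by
  refine (h.union h').subset fun x hx => ?_
  by_cases hS : x ∈ S
  · exact Or.inr ⟨hS, hx.2⟩
  · exact Or.inl ⟨hx.1, hS⟩

theorem Fe.trans {R S S' : Set I} (h : Fe R S) (h' : Fe S S') : Fe R S' :=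
  ⟨diff_fin h.1 h'.1, diff_fin h'.2 h.2⟩

theorem Fe.union {S S' R R' : Set I} (h : Fe S S') (h' : Fe R R') : Fe (S ∪ R) (S' ∪ R') := by
  constructor
  · refine (h.1.union h'.1).subset fun x hx => ?_
    rcases hx.1 with h1 | h1
    · exact Or.inl ⟨h1, fun h2 => hx.2 (Or.inl h2)⟩
    · exact Or.inr ⟨h1, fun h2 => hx.2 (Or.inr h2)⟩
  · refine (h.2.union h'.2).subset fun x hx => ?_
    rcases hx.1 with h1 | h1
    · exact Or.inl ⟨h1, fun h2 => hx.2 (Or.inl h2)⟩
    · exact Or.inr ⟨h1, fun h2 => hx.2 (Or.inr h2)⟩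

theorem Fe.inter {S S' R R' : Set I} (h : Fe S S') (h' : Fe R R') : Fe (S ∩ R) (S' ∩ R') := by
  constructor
  · refine (h.1.union h'.1).subset fun x hx => ?_
    by_cases h1 : x ∈ S'
    · exact Or.inr ⟨hx.1.2, fun h2 => hx.2 ⟨h1, h2⟩⟩
    · exact Or.inl ⟨hx.1.1, h1⟩
  · refine (h.2.union h'.2).subset fun x hx => ?_
    by_cases h1 : x ∈ S
    · exact Or.inr ⟨hx.1.2, fun h2 => hx.2 ⟨h1, h2⟩⟩
    · exact Or.inl ⟨hx.1.1, h1⟩

theorem Fe.inf {S S' : Set I} (h : Fe S S') (hS : S.Infinite) : S'.Infinite := by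
  intro h1
  refine hS ((h.1.union h1).subset fun x hx => ?_)
  by_cases h2 : x ∈ S'
  · exact Or.inr h2
  · exact Or.inl ⟨hx, h2⟩

theorem fe_image {τ : Equiv.Perm I} (hτ : τ ∈ FS I) (S : Set I) : Fe (τ '' S) S := by
  constructor
  · refine ((mem_FS.1 hτ).image τ).subset ?_
    rintro _ ⟨⟨x, hx, rfl⟩, hx'⟩
    refine ⟨x, ?_, rfl⟩
    intro h
    rw [h] at hx'
    exact hx' hx
  · refine Set.Finite.subset hτ ?_
    rintro x ⟨hx, hx'⟩ h
    exact hx' ⟨x, hx, h⟩

variable (I) in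
/-- The class of the set `B` modulo finite sets. -/
def md (B : Set I) : Set (Set I) := {S | Fe S B}

section

variable {β : Type} {f : ℕ → I → β}
  {mono : ∀ n m, n ≤ m → ∀ x y, f m x = f m y → f n x = f n y}

theorem inv_md (B : Set I) : Inv (mkPD f mono) (md I B) :=
  fun _ hτ S hS => (fe_image hτ S).trans hS

theorem md_dfb {D : PD I} {B : Set I} (hB : B ∈ Dfb D) : md I B ⊆ Dfb D :=
  fun _ hS => dfb_mod hB hS.2 hS.1

theorem fbi_md {D : PD I} {π : Pkg (Cd I)} (g : Gd D π) (hM : IsZF ((sys D).Ms π)) {B : Set I}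
    (hB : B ∈ Dfb D) (hB' : B.Infinite) :
    IsFBI ((sys D).Ms π) (ev π Set.univ) (π.val (vN (md I B))) := by
  have hmem : ∀ {z}, z ∈ π.val (vN (md I B)) ↔ ∃ S ∈ md I B, z = ev π S := mem_vN g (md_dfb hB)
  have hcl : ∀ U ∈ π.val (vN (md I B)), ∀ W ∈ π.val (vN (md I B)),
      U ∪ W ∈ π.val (vN (md I B)) ∧ U ∩ W ∈ π.val (vN (md I B)) := by
    intro U hU W hW
    obtain ⟨S, hS, rfl⟩ := hmem.1 hU
    obtain ⟨S', hS', rfl⟩ := hmem.1 hW
    rw [ev_union g, ev_inter g]
    refine ⟨hmem.2 ⟨_, ?_, rfl⟩, hmem.2 ⟨_, ?_, rfl⟩⟩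
    · have h1 := Fe.union hS hS'
      rwa [Set.union_self] at h1
    · have h1 := Fe.inter hS hS'
      rwa [Set.inter_self] at h1
  refine ⟨⟨⟨ev π B, hmem.2 ⟨B, Fe.refl B, rfl⟩⟩, ?_, ?_⟩, hcl, ?_⟩
  · intro U hU
    obtain ⟨S, hS, rfl⟩ := hmem.1 hU
    refine ⟨(ev_subset g).2 (Set.subset_univ _), fun h => ?_⟩
    rw [← ev_empty g] at h
    have h1 := ev_inj g h
    have h2 : S.Infinite := hS.symm.inf hB'
    rw [h1] at h2
    exact h2 Set.finite_empty
  · exact fun U hU W hW => ⟨_, (hcl U hU W hW).2, subset_rfl⟩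
  · intro U hU
    obtain ⟨S, hS, rfl⟩ := hmem.1 hU
    rw [finIn_ev g hM]
    exact hS.symm.inf hB'

theorem fin_md {D : PD I} {π : Pkg (Cd I)} (g : Gd D π) (hM : IsZF ((sys D).Ms π)) {B : Set I}
    (hB : B ∈ Dfb D) : ∀ U ∈ π.val (vN (md I B)), ∀ W ∈ π.val (vN (md I B)),
      FinIn ((sys D).Ms π) (U \ W) := by
  have hmem : ∀ {z}, z ∈ π.val (vN (md I B)) ↔ ∃ S ∈ md I B, z = ev π S := mem_vN g (md_dfb hB)
  intro U hU W hW
  obtain ⟨S, hS, rfl⟩ := hmem.1 hU
  obtain ⟨S', hS', rfl⟩ := hmem.1 hW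
  rw [ev_diff g, finIn_ev g hM]
  exact (Fe.trans hS hS'.symm).1

end

end Pool.Agent.R598.PM
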