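import Pool.Agent.R598.PM.FS

/-!
# A filterbase infinite set that is not strongly filterbase infinite
-/

set_option autoImplicit false

namespace Pool.Agent.R598.PM.Fb

open Pool.Agent.W868 Pool.Agent.W868.PName Pool.Agent.R598.SY
open ZFSet (pair)

/-- The set of the indices: the atoms `((i, k), j)`, `j ∈ ℕ`, form the block `(i, k)`. -/
abbrev Ix : Type := (ℕ × ℕ) × ℕ

/-- The permutation `τ` acts on the blocks as `σ`. -/
def Bk (τ : Equiv.Perm Ix) (σ : Equiv.Perm (ℕ × ℕ)) : Prop := ∀ x, (τ x).1 = σ x.1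

theorem Bk.mul {τ τ' : Equiv.Perm Ix} {σ σ' : Equiv.Perm (ℕ × ℕ)} (h : Bk τ σ) (h' : Bk τ' σ') :
    Bk (τ * τ') (σ * σ') := by
  intro a
  change (τ (τ' a)).1 = σ (σ' a.1)
  rw [h, h']

theorem Bk.inv {τ : Equiv.Perm Ix} {σ : Equiv.Perm (ℕ × ℕ)} (h : Bk τ σ) : Bk τ⁻¹ σ⁻¹ := by
  intro a
  have h1 := h (τ.symm a)
  rw [Equiv.apply_symm_apply] at h1
  change (τ.symm a).1 = σ.symm a.1
  rw [h1, Equiv.symm_apply_apply]

/-- The group. -/
def T : Subgroup (Equiv.Perm Ix) where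
  carrier := {τ | ∃ σ ∈ FS (ℕ × ℕ), Bk τ σ}
  mul_mem' := by
    rintro τ τ' ⟨σ, hσ, h⟩ ⟨σ', hσ', h'⟩
    exact ⟨σ * σ', (FS _).mul_mem hσ hσ', h.mul h'⟩
  one_mem' := ⟨1, (FS _).one_mem, fun _ => rfl⟩
  inv_mem' := by
    rintro τ ⟨σ, hσ, h⟩
    exact ⟨σ⁻¹, (FS _).inv_mem hσ, h.inv⟩

/-- The group of the permutations that preserve the first `n` columns. -/
def Hn (n : ℕ) : Subgroup (Equiv.Perm Ix) := Ker fun x : Ix => min x.1.1 n

theorem mem_Hn {n : ℕ} {τ : Equiv.Perm Ix} {σ : Equiv.Perm (ℕ × ℕ)} (h : Bk τ σ) :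
    τ ∈ Hn n ↔ ∀ b : ℕ × ℕ, min (σ b).1 n = min b.1 n := by
  constructor
  · intro h1 b
    have h2 : min (τ (b, 0)).1.1 n = min b.1 n := h1 (b, 0)
    rwa [h (b, 0)] at h2
  · intro h1 x
    change min (τ x).1.1 n = min x.1.1 n
    rw [h x, h1]

theorem conj_aux {J β : Type} {f : J → β} {τ κ : Equiv.Perm J} (hκ : ∀ x, f (κ x) = f x)
    (hfix : ∀ x, τ x ≠ x → κ x = x) (x : J) : f ((τ⁻¹ * κ * τ) x) = f x := by
  change f (τ.symm (κ (τ x))) = f x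
  by_cases hx : τ x = x
  · rw [hx]
    by_cases hy : τ (κ x) = κ x
    · have h1 : τ.symm (κ x) = κ x := by
        rw [Equiv.symm_apply_eq, hy]
      rw [h1]
      exact hκ x
    · have h1 := hfix (κ x) hy
      have h2 : κ x = x := κ.injective h1
      rw [h2, (Equiv.symm_apply_eq τ).2 hx.symm]
  · have h1 := hfix (τ x) fun h => hx (τ.injective h)
    rw [h1, Equiv.symm_apply_apply]

open Classical in
/-- The permutation model. -/
noncomputable def D : PD Ix where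
  T := T
  Φ := Set.range Hn
  ne := ⟨_, 0, rfl⟩
  conj := by
    rintro _ ⟨n, rfl⟩ τ ⟨σ, hσ, hτ⟩
    refine ⟨(mem_FS.1 hσ).toFinset.image fun b => (b, 0), Hn n, ⟨n, rfl⟩, ?_⟩
    rintro κ ⟨σ', hσ', hκ⟩ hκn hfix
    rw [mem_Hn hκ] at hκn
    rw [mem_Hn ((hτ.inv.mul hκ).mul hτ)]
    refine conj_aux (f := fun b : ℕ × ℕ => min b.1 n) hκn fun b hb => ?_
    have h1 := hfix (b, 0) (Finset.mem_image_of_mem _ ((mem_FS.1 hσ).mem_toFinset.2 hb))
    have h2 := hκ (b, 0)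
    rw [h1] at h2
    exact h2.symm
  dir := by
    rintro _ ⟨n, rfl⟩ _ ⟨m, rfl⟩
    refine ⟨_, ⟨max n m, rfl⟩, ?_, ?_⟩
    · intro τ h x
      have h1 : min (τ x).1.1 (max n m) = min x.1.1 (max n m) := h x
      change min (τ x).1.1 n = min x.1.1 n
      omega
    · intro τ h x
      have h1 : min (τ x).1.1 (max n m) = min x.1.1 (max n m) := h x
      change min (τ x).1.1 m = min x.1.1 m
      omega

/-- The permutation of the atoms that is given by a permutation of the blocks. -/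
def bp (σ : Equiv.Perm (ℕ × ℕ)) : Equiv.Perm Ix := Equiv.prodCongr σ (Equiv.refl ℕ)

theorem bk_bp (σ : Equiv.Perm (ℕ × ℕ)) : Bk (bp σ) σ := fun _ => rfl

theorem bk_swap {x y : Ix} (h : x.1 = y.1) : Bk (Equiv.swap x y) 1 := by
  intro z
  change (Equiv.swap x y z).1 = z.1
  by_cases h1 : z = x
  · rw [h1, Equiv.swap_apply_left, h]
  · by_cases h2 : z = y
    · rw [h2, Equiv.swap_apply_right, h]
    · rw [Equiv.swap_apply_of_ne_of_ne h1 h2]

theorem of_D : OF D := by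
  classical
  rintro E _ ⟨n, rfl⟩
  refine ⟨Ix ⊕ ((ℕ × ℕ) ⊕ ℕ), fun x => if x ∈ E then Sum.inl x else
    if ∃ e ∈ E, e.1 = x.1 then Sum.inr (Sum.inl x.1) else Sum.inr (Sum.inr (min x.1.1 n)), ?_, ?_⟩
  · refine ((E.finite_toSet.image Sum.inl).union ((((E.image Prod.fst).finite_toSet.image
      Sum.inl).union ((Set.finite_Iic n).image Sum.inr)).image Sum.inr)).subset ?_
    rintro _ ⟨x, rfl⟩
    by_cases hx : x ∈ E
    · simp only [if_pos hx]
      exact Or.inl ⟨x, Finset.mem_coe.2 hx, rfl⟩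
    · by_cases hx' : ∃ e ∈ E, e.1 = x.1
      · simp only [if_neg hx, if_pos hx']
        obtain ⟨e, he, he'⟩ := hx'
        exact Or.inr ⟨_, Or.inl ⟨_, Finset.mem_coe.2 (Finset.mem_image.2 ⟨e, he, he'⟩), rfl⟩, rfl⟩
      · simp only [if_neg hx, if_neg hx']
        exact Or.inr ⟨_, Or.inr ⟨_, Nat.min_le_right _ _, rfl⟩, rfl⟩
  · have key : ∀ x y : Ix, x ∉ E → y ∉ E → (x.1 = y.1 ∨ ((¬ ∃ e ∈ E, e.1 = x.1) ∧
        (¬ ∃ e ∈ E, e.1 = y.1) ∧ min x.1.1 n = min y.1.1 n)) →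
        ∃ τ ∈ T, τ ∈ Hn n ∧ (∀ e ∈ E, τ e = e) ∧ τ x = y := by
      intro x y hx hy h
      have h1 : Bk (bp (Equiv.swap x.1 y.1) * Equiv.swap x (x.1, y.2))
          (Equiv.swap x.1 y.1 * 1) := (bk_bp _).mul (bk_swap rfl)
      rw [mul_one] at h1
      refine ⟨bp (Equiv.swap x.1 y.1) * Equiv.swap x (x.1, y.2), ⟨_, swap_mem_FS _ _, h1⟩,
        (mem_Hn h1).2 ?_, fun e he => ?_, ?_⟩
      · refine swap_mem_Ker (g := fun b : ℕ × ℕ => min b.1 n) ?_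
        rcases h with h | ⟨-, -, h⟩
        · simp only [h]
        · exact h
      · have h2 : Equiv.swap x (x.1, y.2) e = e := by
          refine Equiv.swap_apply_of_ne_of_ne ?_ ?_
          · rintro rfl
            exact hx he
          · rintro rfl
            rcases h with h | ⟨h, -⟩
            · apply hy
              have h3 : y = (x.1, y.2) := Prod.ext h.symm rfl
              rw [h3]
              exact he
            · exact h ⟨_, he, rfl⟩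
        change (Equiv.swap x.1 y.1 (Equiv.swap x (x.1, y.2) e).1,
          (Equiv.swap x (x.1, y.2) e).2) = e
        rw [h2]
        refine Prod.ext ?_ rfl
        rcases h with h | ⟨h, h', -⟩
        · rw [h, Equiv.swap_self]
          rfl
        · refine Equiv.swap_apply_of_ne_of_ne ?_ ?_
          · exact fun h3 => h ⟨e, he, h3⟩
          · exact fun h3 => h' ⟨e, he, h3⟩
      · change (Equiv.swap x.1 y.1 (Equiv.swap x (x.1, y.2) x).1,
          (Equiv.swap x (x.1, y.2) x).2) = y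
        rw [Equiv.swap_apply_left]
        exact Prod.ext (Equiv.swap_apply_left _ _) rfl
    intro x y h
    by_cases hx : x ∈ E
    · by_cases hy : y ∈ E
      · simp only [if_pos hx, if_pos hy, Sum.inl.injEq] at h
        exact ⟨1, T.one_mem, (Hn n).one_mem, fun _ _ => rfl, h⟩
      · simp only [if_pos hx, if_neg hy] at h
        split_ifs at h
    · by_cases hy : y ∈ E
      · simp only [if_neg hx, if_pos hy] at h
        split_ifs at h
      · simp only [if_neg hx, if_neg hy] at h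
        by_cases hx' : ∃ e ∈ E, e.1 = x.1
        · by_cases hy' : ∃ e ∈ E, e.1 = y.1
          · simp only [if_pos hx', if_pos hy', Sum.inr.injEq, Sum.inl.injEq] at h
            exact key x y hx hy (Or.inl h)
          · simp only [if_pos hx', if_neg hy', Sum.inr.injEq] at h
            cases h
        · by_cases hy' : ∃ e ∈ E, e.1 = y.1
          · simp only [if_neg hx', if_pos hy', Sum.inr.injEq] at h
            cases h
          · simp only [if_neg hx', if_neg hy', Sum.inr.injEq] at h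
            exact key x y hx hy (Or.inr ⟨hx', hy', h⟩)

theorem ctb_D : D.Φ.Countable := Set.countable_range _

/-! ### The filterbases -/

/-- The set of the atoms in the blocks of `Q`. -/
def bl (Q : Set (ℕ × ℕ)) : Set Ix := {x | x.1 ∈ Q}

/-- The columns. -/
def Cl (n : ℕ) : Set (ℕ × ℕ) := {b | b.1 = n}

theorem Cl_inf (n : ℕ) : (Cl n).Infinite := by
  refine Set.infinite_of_injective_forall_mem (f := fun m : ℕ => (n, m)) ?_ fun m => rfl
  intro m m' h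
  exact (Prod.mk.inj h).2

/-- The filterbases. -/
def Vn (n : ℕ) : Set (Set Ix) := {S | ∃ Q, Fe Q (Cl n) ∧ S = bl Q}

theorem image_bl {τ : Equiv.Perm Ix} {σ : Equiv.Perm (ℕ × ℕ)} (h : Bk τ σ) (Q : Set (ℕ × ℕ)) :
    τ '' bl Q = bl (σ '' Q) := by
  ext x
  constructor
  · rintro ⟨y, hy, rfl⟩
    exact ⟨y.1, hy, (h y).symm⟩
  · rintro ⟨b, hb, hbx⟩
    refine ⟨τ⁻¹ x, ?_, Equiv.apply_symm_apply τ x⟩
    change (τ⁻¹ x).1 ∈ Q
    rw [h.inv x, ← hbx]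
    change σ.symm (σ b) ∈ Q
    rwa [Equiv.symm_apply_apply]

theorem inv_Vn (n : ℕ) : Inv D (Vn n) := by
  rintro τ ⟨σ, hσ, hτ⟩ _ ⟨Q, hQ, rfl⟩
  exact ⟨σ '' Q, (fe_image hσ Q).trans hQ, image_bl hτ Q⟩

theorem Vn_dfb (n : ℕ) : Vn n ⊆ Dfb D := by
  classical
  rintro _ ⟨Q, hQ, rfl⟩
  refine ⟨(hQ.1.toFinset ∪ hQ.2.toFinset).image fun b => (b, 0), Hn (n + 1), ⟨_, rfl⟩, ?_⟩
  rintro τ ⟨σ, hσ, hτ⟩ hτn hfix x hx
  have h1 := (mem_Hn hτ).1 hτn
  have h2 : ∀ b, b ∈ hQ.1.toFinset ∪ hQ.2.toFinset → σ b = b := by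
    intro b hb
    have h3 := hfix (b, 0) (Finset.mem_image_of_mem _ hb)
    have h4 := hτ (b, 0)
    rw [h3] at h4
    exact h4.symm
  change (τ x).1 ∈ Q
  rw [hτ x]
  have hx' : x.1 ∈ Q := hx
  by_cases h3 : x.1.1 = n
  · have h4 : (σ x.1).1 = n := by
      have h5 := h1 x.1
      omega
    by_contra h5
    have h6 := h2 (σ x.1) (Finset.mem_union_right _ (hQ.2.mem_toFinset.2 ⟨h4, h5⟩))
    rw [σ.injective h6] at h5
    exact h5 hx'
  · rw [h2 x.1 (Finset.mem_union_left _ (hQ.1.mem_toFinset.2 ⟨hx', h3⟩))]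
    exact hx'

/-- The names of the indices. -/
noncomputable def kN (n : ℕ) : PName (Cd Ix) := check (nat n)

theorem fbInf {π : Pkg (Cd Ix)} (g : Gd D π)
    (hv : ∀ n : ℕ, vN (Vn n) ∈ π.N) (hf : fN kN Vn ∈ π.N) :
    FBInf ((sys D).Ms π) (ev π Set.univ) := by
  have hk : ∀ t, kN t ∈ π.N := fun t => π.nat_Z _
  have hkv : ∀ t, π.val (kN t) = nat t := fun t => π.hat_nat t
  have hmem : ∀ n {z}, z ∈ π.val (vN (Vn n)) ↔ ∃ S ∈ Vn n, z = ev π S :=
    fun n {z} => mem_vN g (Vn_dfb n)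
  refine ⟨π.val (fN kN Vn), ⟨_, ⟨hf, hs_fN (fun t => ?_) (fun t ρ => ?_)
    (fun t => inv_Vn t) (fun t => Vn_dfb t)⟩, rfl⟩, fun n => π.val (vN (Vn n)),
    ?_, fun n => ⟨⟨?_, ?_, ?_⟩, ?_⟩, ?_⟩
  · exact (sys D).hs_check _
  · exact act_check ((sys D).top ρ) _
  · intro n y
    rw [mem_fN hk hv]
    constructor
    · rintro ⟨t, h1, h2⟩
      rw [hkv] at h1
      rw [h2, nat_injective h1]
    · rintro rfl
      exact ⟨n, (hkv n).symm, rfl⟩
  · exact ⟨_, (hmem n).2 ⟨_, ⟨Cl n, Fe.refl _, rfl⟩, rfl⟩⟩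
  · intro U hU
    obtain ⟨_, ⟨Q, hQ, rfl⟩, rfl⟩ := (hmem n).1 hU
    refine ⟨(ev_subset g).2 (Set.subset_univ _), fun h => ?_⟩
    rw [← ev_empty g] at h
    have h1 := ev_inj g h
    obtain ⟨b, hb⟩ := (hQ.symm.inf (Cl_inf n)).nonempty
    have h2 : (b, 0) ∈ bl Q := hb
    rw [h1] at h2
    exact h2
  · intro U hU W hW
    obtain ⟨_, ⟨Q, hQ, rfl⟩, rfl⟩ := (hmem n).1 hU
    obtain ⟨_, ⟨Q', hQ', rfl⟩, rfl⟩ := (hmem n).1 hW
    refine ⟨ev π (bl (Q ∩ Q')), (hmem n).2 ⟨_, ⟨Q ∩ Q', ?_, rfl⟩, rfl⟩, ?_⟩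
    · have h1 := Fe.inter hQ hQ'
      rwa [Set.inter_self] at h1
    · rw [ev_inter g]
      exact subset_rfl
  · intro z
    by_cases hz : z ∈ ev π (bl (Cl n))
    · obtain ⟨x, hx, rfl⟩ := (mem_ev g).1 hz
      refine ⟨ev π (bl (Cl n \ {x.1})), (hmem n).2 ⟨_, ⟨_, ⟨?_, ?_⟩, rfl⟩, rfl⟩, ?_⟩
      · exact Set.finite_empty.subset fun y hy => hy.2 hy.1.1
      · refine (Set.finite_singleton x.1).subset fun y hy => ?_
        by_contra hc
        exact hy.2 ⟨hy.1, hc⟩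
      · rw [bN_mem_ev g]
        exact fun h => h.2 rfl
    · exact ⟨_, (hmem n).2 ⟨_, ⟨Cl n, Fe.refl _, rfl⟩, rfl⟩, hz⟩
  · intro i j hij
    refine ⟨_, (hmem i).2 ⟨_, ⟨Cl i, Fe.refl _, rfl⟩, rfl⟩, _,
      (hmem j).2 ⟨_, ⟨Cl j, Fe.refl _, rfl⟩, rfl⟩, ?_⟩
    rw [ev_inter g, ← ev_empty g]
    congr 1
    refine Set.eq_empty_of_forall_notMem fun x hx => hij ?_
    have h1 : x.1.1 = i := hx.1
    have h2 : x.1.1 = j := hx.2
    rw [← h1, h2]

/-! ### The other part -/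

/-- Unions of blocks. -/
def UB (S : Set Ix) : Prop := ∀ x y : Ix, x.1 = y.1 → x ∈ S → y ∈ S

theorem UB.sub {S S' : Set Ix} (h : UB S) (h' : UB S') (hf : (S \ S').Finite) : S ⊆ S' := by
  intro x hx
  by_contra hc
  have h1 : Set.Infinite {y : Ix | y.1 = x.1} := by
    refine Set.infinite_of_injective_forall_mem (f := fun m : ℕ => (x.1, m)) ?_ fun m => rfl
    intro m m' h
    exact (Prod.mk.inj h).2
  exact h1 (hf.subset fun y hy => ⟨h x y hy.symm hx, fun h2 => hc (h' y x hy h2)⟩)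

theorem UB.eq {S S' : Set Ix} (h : UB S) (h' : UB S') (hf : Fe S S') : S = S' :=
  (h.sub h' hf.1).antisymm (h'.sub h hf.2)

theorem UB.image {S : Set Ix} (h : UB S) {τ : Equiv.Perm Ix} (hτ : τ ∈ T) : UB (τ '' S) := by
  obtain ⟨σ, -, hσ⟩ := hτ
  rintro _ y h1 ⟨x, hx, rfl⟩
  refine ⟨τ⁻¹ y, h x _ ?_ hx, Equiv.apply_symm_apply τ y⟩
  rw [hσ x] at h1
  rw [hσ.inv y, ← h1]
  exact (Equiv.symm_apply_apply σ x.1).symm

theorem exists_UB {S : Set Ix} (h : S ∈ Dfb D) : ∃ S', UB S' ∧ Fe S S' := by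
  classical
  obtain ⟨E, _, ⟨n, rfl⟩, hS⟩ := h
  have h1 : ∀ x y : Ix, x ∉ E → y ∉ E → x.1 = y.1 → x ∈ S → y ∈ S := by
    intro x y hx hy hxy hxS
    have h1 := hS (Equiv.swap x y) ⟨1, (FS _).one_mem, bk_swap hxy⟩
      ((mem_Hn (bk_swap hxy)).2 fun b => rfl) (fun e he => by
        refine Equiv.swap_apply_of_ne_of_ne ?_ ?_
        · rintro rfl
          exact hx he
        · rintro rfl
          exact hy he) x hxS
    rwa [Equiv.swap_apply_left] at h1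
  refine ⟨{x | ∃ y, y ∉ E ∧ y.1 = x.1 ∧ y ∈ S}, ?_, ?_, ?_⟩
  · rintro x x' hx ⟨y, hy, hyx, hyS⟩
    exact ⟨y, hy, hyx.trans hx, hyS⟩
  · refine E.finite_toSet.subset fun x hx => ?_
    by_contra hc
    exact hx.2 ⟨x, hc, rfl, hx.1⟩
  · refine E.finite_toSet.subset fun x hx => ?_
    by_contra hc
    obtain ⟨⟨y, hy, hyx, hyS⟩, hx⟩ := hx
    exact hx (h1 y x hy hc hyx hyS)

theorem Fe.image {I : Type} {S S' : Set I} (h : Fe S S') (τ : Equiv.Perm I) :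
    Fe (τ '' S) (τ '' S') := by
  constructor
  · refine (h.1.image τ).subset ?_
    rintro _ ⟨⟨x, hx, rfl⟩, hx'⟩
    exact ⟨x, ⟨hx, fun h1 => hx' ⟨x, h1, rfl⟩⟩, rfl⟩
  · refine (h.2.image τ).subset ?_
    rintro _ ⟨⟨x, hx, rfl⟩, hx'⟩
    exact ⟨x, ⟨hx, fun h1 => hx' ⟨x, h1, rfl⟩⟩, rfl⟩

theorem rel_mem {M : Set ZFSet.{0}} (hM : IsZF M) {v A : ZFSet.{0}} (hv : v ∈ M) (hA : A ∈ M)
    {V : ℕ → ZFSet.{0}} (hV : ∀ n y, pair (nat n) y ∈ v ↔ y = V n)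
    (hVA : ∀ n, ∀ U ∈ V n, U ⊆ A) :
    ∃ r ∈ M, ∀ n X, pair (nat n) X ∈ r ↔ X ∈ V n := by
  obtain ⟨Pw, hPw, hPw'⟩ := hM.power _ hA
  have hB := hM.base
  have hu := hM.union _ (hM.union _ hv)
  have hω := hM.infinity
  have h1 := hM.sep_mem (Q := fun z => ∃ a ∈ ZFSet.omega, ∃ y ∈ ZFSet.sUnion (ZFSet.sUnion v),
    ∃ X ∈ y, z = pair a X ∧ pair a y ∈ v) (by
    (repeat' first
      | assumption
      | exact DfnF.proj _
      | exact DfnF.const (by assumption)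
      | apply Dfn.not | apply Dfn.and | apply Dfn.or | apply Dfn.imp | apply Dfn.iff
      | apply hB.bex | apply hB.ball | apply Dfn.ex | apply Dfn.all
      | apply Dfn.eq | apply Dfn.mem | apply hB.pair')) (hM.prod_mem hω hPw)
  refine ⟨_, h1, fun n X => ?_⟩
  rw [ZFSet.mem_sep]
  constructor
  · rintro ⟨-, a, -, y, -, X', hX', h2, h3⟩
    obtain ⟨rfl, rfl⟩ := ZFSet.pair_inj.1 h2
    rw [(hV n y).1 h3] at hX'
    exact hX'
  · intro hX
    have h2 : pair (nat n) (V n) ∈ v := (hV n _).2 rfl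
    have h3 : V n ∈ ZFSet.sUnion (ZFSet.sUnion v) := by
      refine ZFSet.mem_sUnion.2 ⟨{nat n, V n}, ZFSet.mem_sUnion.2 ⟨_, h2, ?_⟩, ?_⟩
      · exact ZFSet.mem_pair.2 (Or.inr rfl)
      · exact ZFSet.mem_pair.2 (Or.inr rfl)
    have h4 : V n ∈ M := (hM.of_pair_mem (hM.trans _ hv _ h2)).2
    exact ⟨ZFSet.pair_mem_prod.2 ⟨mem_omega_iff.2 ⟨n, rfl⟩,
      (hPw' X).2 ⟨hM.trans _ h4 _ hX, hVA n X hX⟩⟩, nat n, mem_omega_iff.2 ⟨n, rfl⟩, V n, h3, X, hX,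
      rfl, h2⟩

theorem not_strongInf {π : Pkg (Cd Ix)} (g : Gd D π) (hM : IsZF ((sys D).Ms π)) :
    ¬ StrongInf ((sys D).Ms π) (ev π Set.univ) := by
  rintro ⟨v, hv, V, h1, h2, h3, h4, -⟩
  have hVM : ∀ n, V n ∈ (sys D).Ms π := by
    intro n
    have h3 := (h1 n (V n)).2 rfl
    exact (hM.of_pair_mem (hM.trans _ hv _ h3)).2
  have hVs : ∀ n, ∀ U ∈ V n, ∃ S ∈ Dfb D, U = ev π S := fun n U hU =>
    exists_dfb g (hM.trans _ (hVM n) _ hU) ((h2 n).1.2.1 U hU).1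
  obtain ⟨r, hr, hr'⟩ := rel_mem hM hv (ev_mem g dfb_univ) h1 fun n U hU => ((h2 n).1.2.1 U hU).1
  obtain ⟨E, H, hH, hE⟩ := exists_seq g hr
  have key : ∀ n : ℕ, ∃ S S', ev π S ∈ V n ∧ Sup D E H S' ∧ Fe S S' := by
    intro n
    obtain ⟨U, hU⟩ := (h2 n).1.1
    obtain ⟨S, hS, rfl⟩ := hVs n U hU
    obtain ⟨S', hS', h5⟩ := exists_UB hS
    refine ⟨S, S', hU, ?_, h5⟩
    intro τ hτT hτH hfix x hx
    have h6 := (hr' n _).1 (hE τ hτT hτH hfix n S hS ((hr' n _).2 hU))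
    have h7 : Fe (τ '' S) S := by
      have h8 := h3 n _ h6 _ hU
      have h9 := h3 n _ hU _ h6
      rw [ev_diff g, finIn_ev g hM] at h8 h9
      exact ⟨h8, h9⟩
    have h8 : τ '' S' = S' :=
      (hS'.image hτT).eq hS' (((Fe.image h5 τ).symm.trans h7).trans h5)
    rw [← h8]
    exact ⟨x, hx, rfl⟩
  choose S S' hS hS' hSS' using key
  have hfin := of_D.finite E hH
  obtain ⟨n, -, m, -, hnm, he⟩ := Set.infinite_univ.exists_ne_map_eq_of_mapsTo (f := S')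
    (fun n _ => hS' n) hfin
  obtain ⟨U, hU, W, hW, h5⟩ := h4 n m hnm
  obtain ⟨R, hR, rfl⟩ := hVs n U hU
  obtain ⟨R', hR', rfl⟩ := hVs m W hW
  rw [ev_inter g, finIn_ev g hM] at h5
  have h6 : ∀ n, ∀ R, ev π R ∈ V n → Fe R (S' n) := by
    intro n R hR
    have h8 := h3 n _ hR _ (hS n)
    have h9 := h3 n _ (hS n) _ hR
    rw [ev_diff g, finIn_ev g hM] at h8 h9
    exact Fe.trans ⟨h8, h9⟩ (hSS' n)
  have h7 := Fe.inter (h6 n R hU) (h6 m R' hW)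
  rw [he, Set.inter_self] at h7
  have h8 : (S' m).Infinite := by
    refine (h6 m R' hW).inf fun h9 => ?_
    exact (h2 m).2.2 _ hW ((finIn_ev g hM).2 h9)
  exact h7.symm.inf h8 h5

/-- The model. -/
theorem main : ∃ M : Set ZFSet.{0}, M.Countable ∧ IsZF M ∧ ∃ A ∈ M,
    FBInf M A ∧ ¬ StrongInf M A := by
  obtain ⟨π, g, hM, hc, hX⟩ := exists_model of_D ctb_D
    (Set.range (fun n : ℕ => vN (Vn n)) ∪ {fN kN Vn})
    ((Set.countable_range _).union (Set.countable_singleton _))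
  exact ⟨(sys D).Ms π, hc, hM, ev π Set.univ, ev_mem g dfb_univ,
    fbInf g (fun t => hX (Or.inl ⟨t, rfl⟩)) (hX (Or.inr rfl)), not_strongInf g hM⟩

end Pool.Agent.R598.PM.Fb
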