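import Pool.Agent.R598.PM.Mod2

/-!
# Permutation models realized by symmetric submodels: with an additional factor of the forcing
-/

set_option autoImplicit false

namespace Pool.Agent.R598.PM

open Pool.Agent.W868 Pool.Agent.W868.PName Pool.Agent.R598.SY
open ZFSet (pair)

/-- The data of a permutation model, with an additional forcing `Q`. -/
structure PQ (I : Type) (Q : Type) [Preorder Q] [OrderTop Q] extends PD I where
  /-- the action on the conditions -/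
  aq : T →* (Q ≃o Q)
  aqtop : ∀ τ, aq τ ⊤ = ⊤

namespace K

variable {I : Type} {Q : Type} [Preorder Q] [OrderTop Q] (D : PQ I Q)

/-- The action on the blocks. -/
noncomputable def blk (ρ : Gp D.toPD) : D.T := ⟨ρ.2.choose, ρ.2.choose_spec.1⟩

theorem bl_blk (ρ : Gp D.toPD) : Bl ρ.1 (blk D ρ).1 := ρ.2.choose_spec.2

theorem blk_eq {ρ : Gp D.toPD} {τ : D.T} (h : Bl ρ.1 τ.1) : blk D ρ = τ :=
  Subtype.ext ((bl_blk D ρ).uniq h)

theorem blk_one : blk D 1 = 1 := blk_eq D Bl.one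

theorem blk_mul (ρ ρ' : Gp D.toPD) : blk D (ρ * ρ') = blk D ρ * blk D ρ' :=
  blk_eq D ((bl_blk D ρ).mul (bl_blk D ρ'))

/-- The action. -/
noncomputable def acH : Gp D.toPD →* (Cd I × Q ≃o Cd I × Q) where
  toFun ρ :=
    { toFun := fun p => (PM.acH D.toPD ρ p.1, D.aq (blk D ρ) p.2)
      invFun := fun p => ((PM.acH D.toPD ρ).symm p.1, (D.aq (blk D ρ)).symm p.2)
      left_inv := by
        rintro ⟨p, q⟩
        simp
      right_inv := by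
        rintro ⟨p, q⟩
        simp
      map_rel_iff' := by
        rintro ⟨p, q⟩ ⟨p', q'⟩
        simp [Prod.le_def] }
  map_one' := by
    apply RelIso.ext
    rintro ⟨p, q⟩
    change (PM.acH D.toPD 1 p, D.aq (blk D 1) q) = (p, q)
    rw [blk_one, map_one, map_one]
    rfl
  map_mul' := by
    intro ρ τ
    apply RelIso.ext
    rintro ⟨p, q⟩
    change (PM.acH D.toPD (ρ * τ) p, D.aq (blk D (ρ * τ)) q) = (PM.acH D.toPD ρ
      (PM.acH D.toPD τ p), D.aq (blk D ρ) (D.aq (blk D τ) q))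
    rw [blk_mul, map_mul, map_mul]
    rfl

theorem acH_fst (ρ : Gp D.toPD) (p : Cd I × Q) : (acH D ρ p).1 = mv ρ.1 p.1 := rfl

theorem acH_snd (ρ : Gp D.toPD) (p : Cd I × Q) : (acH D ρ p).2 = D.aq (blk D ρ) p.2 := rfl

/-- The symmetric system. -/
noncomputable def sys : Sys (Cd I × Q) where
  G := Gp D.toPD
  grp := inferInstance
  ac := acH D
  top := by
    intro ρ
    exact Prod.ext ((PM.sys D.toPD).top ρ) (D.aqtop _)
  F := (PM.sys D.toPD).F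
  ne := (PM.sys D.toPD).ne
  conj := (PM.sys D.toPD).conj
  dir := (PM.sys D.toPD).dir

/-- The name for the Cohen real `a`. -/
noncomputable def xN (a : I × ℕ) : PName (Cd I × Q) :=
  PName.mk ℕ (fun n => check (nat n)) (fun n => (sg a n true, ⊤))

/-- The name for the atom `i`. -/
noncomputable def bN (i : I) : PName (Cd I × Q) := PName.mk ℕ (fun j => xN (i, j)) (fun _ => ⊤)

/-- The name for a set of atoms. -/
noncomputable def sN (S : Set I) : PName (Cd I × Q) := PName.mk {i // i ∈ S} (fun i => bN i.1)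
  (fun _ => ⊤)

omit [Preorder Q] in
theorem el_xN [Preorder Q] [OrderTop Q] {a : I × ℕ} {z : PName (Cd I × Q)} {c : Cd I × Q} :
    El (xN a) z c ↔ ∃ n, z = check (nat n) ∧ c = (sg a n true, ⊤) := by
  rw [xN, el_mk]
  constructor
  · rintro ⟨n, rfl, rfl⟩
    exact ⟨n, rfl, rfl⟩
  · rintro ⟨n, rfl, rfl⟩
    exact ⟨n, rfl, rfl⟩

theorem el_bN {i : I} {z : PName (Cd I × Q)} {c : Cd I × Q} :
    El (bN i) z c ↔ ∃ j, z = xN (i, j) ∧ c = ⊤ := by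
  rw [bN, el_mk]
  constructor
  · rintro ⟨n, rfl, rfl⟩
    exact ⟨n, rfl, rfl⟩
  · rintro ⟨n, rfl, rfl⟩
    exact ⟨n, rfl, rfl⟩

theorem el_sN {S : Set I} {z : PName (Cd I × Q)} {c : Cd I × Q} :
    El (sN S) z c ↔ ∃ i ∈ S, z = bN i ∧ c = ⊤ := by
  rw [sN, el_mk]
  constructor
  · rintro ⟨⟨i, hi⟩, rfl, rfl⟩
    exact ⟨i, hi, rfl, rfl⟩
  · rintro ⟨i, hi, rfl, rfl⟩
    exact ⟨⟨i, hi⟩, rfl, rfl⟩

variable {D}

theorem act_xN (ρ : (sys D).G) (a : I × ℕ) : act ((sys D).ac ρ) (xN a) = xN (ρ.1 a) := by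
  unfold xN act
  congr 1
  · funext n
    exact act_check ((sys D).top ρ) _
  · funext n
    exact Prod.ext (mv_sg _ _ _ _) (D.aqtop _)

theorem act_bN {ρ : (sys D).G} {τ : Equiv.Perm I} (h : Bl ρ.1 τ) (i : I) (p : Cd I × Q) :
    Feq (act ((sys D).ac ρ) (bN i)) (bN (τ i)) p := by
  refine feq_of_el fun z c => ?_
  rw [el_act, el_bN]
  constructor
  · rintro ⟨z, c, hz, rfl, rfl⟩
    obtain ⟨j, rfl, rfl⟩ := el_bN.1 hz
    refine ⟨(ρ.1 (i, j)).2, ?_, (sys D).top ρ⟩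
    rw [act_xN]
    congr 1
    exact Prod.ext (h (i, j)) rfl
  · rintro ⟨j, rfl, rfl⟩
    have h1 : (ρ.1.symm (τ i, j)).1 = i := by
      have h2 := h.inv (τ i, j)
      change (ρ.1.symm (τ i, j)).1 = τ.symm (τ i) at h2
      rwa [Equiv.symm_apply_apply] at h2
    refine ⟨xN (ρ.1.symm (τ i, j)), ⊤, el_bN.2 ⟨(ρ.1.symm (τ i, j)).2, ?_, rfl⟩, ?_,
      ((sys D).top ρ).symm⟩
    · exact congrArg xN (Prod.ext h1 rfl)
    · rw [act_xN, Equiv.apply_symm_apply]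

theorem act_sN {ρ : (sys D).G} {τ : Equiv.Perm I} (h : Bl ρ.1 τ) (S : Set I) (p : Cd I × Q) :
    Feq (act ((sys D).ac ρ) (sN S)) (sN (τ '' S)) p := by
  rw [feq_iff']
  constructor
  · intro a c ha q hq hqc
    obtain ⟨z, d, hz, rfl, rfl⟩ := el_act.1 ha
    obtain ⟨i, hi, rfl, rfl⟩ := el_sN.1 hz
    exact ⟨q, le_rfl, _, ⊤, el_sN.2 ⟨_, Set.mem_image_of_mem _ hi, rfl, rfl⟩, le_top, act_bN h i q⟩
  · intro a c ha q hq hqc
    obtain ⟨_, ⟨i, hi, rfl⟩, rfl, rfl⟩ := el_sN.1 ha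
    exact ⟨q, le_rfl, _, ⊤, el_act.2 ⟨_, ⊤, el_sN.2 ⟨i, hi, rfl, rfl⟩, rfl,
      ((sys D).top ρ).symm⟩, le_top, act_bN h i q⟩

theorem hs_xN (a : I × ℕ) : (sys D).HS (xN a) := by
  obtain ⟨H, hH⟩ := D.ne
  refine (sys D).hs_iff.2 ⟨⟨_, ⟨{a}, H, hH, rfl⟩, fun ρ hρ p => ?_⟩, fun z c hz => ?_⟩
  · have h1 : ρ.1 a = a := hρ.1 a (Finset.mem_singleton_self a)
    have h2 : act ((sys D).ac ρ) (xN a) = xN a := (act_xN ρ a).trans (by rw [h1])
    rw [h2]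
    exact Feq.refl _ _
  · obtain ⟨n, rfl, rfl⟩ := el_xN.1 hz
    exact (sys D).hs_check _

theorem hs_bN (i : I) : (sys D).HS (bN i) := by
  obtain ⟨H, hH⟩ := D.ne
  refine (sys D).hs_iff.2 ⟨⟨_, ⟨{(i, 0)}, H, hH, rfl⟩, ?_⟩, fun z c hz => ?_⟩
  · rintro ρ ⟨hρ, τ, -, -, hτ⟩ p
    have h1 := hτ (i, 0)
    rw [hρ _ (Finset.mem_singleton_self _)] at h1
    have h2 := act_bN (D := D) hτ i p
    change i = τ i at h1
    rwa [← h1] at h2
  · obtain ⟨n, rfl, rfl⟩ := el_bN.1 hz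
    exact hs_xN _

theorem hs_sN {S : Set I} (h : S ∈ Dfb D.toPD) : (sys D).HS (sN S) := by
  classical
  obtain ⟨E, H, hH, h⟩ := h
  refine (sys D).hs_iff.2 ⟨⟨_, ⟨E.image fun i => (i, 0), H, hH, rfl⟩, ?_⟩, fun z c hz => ?_⟩
  · rintro ρ ⟨hρ, τ, hτT, hτH, hτ⟩ p
    have h2 := act_sN (D := D) hτ S p
    rwa [h.image hτT hτH fun i hi => ?_] at h2
    have h1 := hτ (i, 0)
    rw [hρ _ (Finset.mem_image_of_mem _ hi)] at h1
    exact h1.symm
  · obtain ⟨i, hi, rfl, rfl⟩ := el_sN.1 hz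
    exact hs_bN _

/-! ### Distinctness -/

theorem not_feq_xN {a b : I × ℕ} (hab : a ≠ b) (p : Cd I × Q) :
    ¬ Feq (xN a : PName (Cd I × Q)) (xN b) p := by
  intro h
  obtain ⟨n, hn⟩ := p.1.exists_fresh a b
  let q : Cd I :=
    { s := p.1.s ∪ {(a, n, true), (b, n, false)}
      fin := p.1.fin.union (Set.toFinite _)
      fn := by
        intro c m h1 h2
        rcases h1 with h1 | h1 <;> rcases h2 with h2 | h2
        · exact p.1.fn c m h1 h2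
        · rw [Set.mem_insert_iff, Set.mem_singleton_iff] at h2
          rcases h2 with h2 | h2
          · simp at h2
          · obtain ⟨rfl, h3⟩ := Prod.mk.inj h2
            obtain ⟨rfl, -⟩ := Prod.mk.inj h3
            exact (hn true).2 h1
        · rw [Set.mem_insert_iff, Set.mem_singleton_iff] at h1
          rcases h1 with h1 | h1
          · obtain ⟨rfl, h3⟩ := Prod.mk.inj h1
            obtain ⟨rfl, -⟩ := Prod.mk.inj h3
            exact (hn false).1 h2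
          · simp at h1
        · rw [Set.mem_insert_iff, Set.mem_singleton_iff] at h1 h2
          rcases h1 with h1 | h1
          · rcases h2 with h2 | h2
            · simp at h2
            · obtain ⟨h3, -⟩ := Prod.mk.inj h1
              obtain ⟨h4, -⟩ := Prod.mk.inj h2
              exact hab (h3.symm.trans h4)
          · simp at h1 }
  have hq : (q, p.2) ≤ p := ⟨fun x hx => Or.inl hx, le_rfl⟩
  have hq1 : (q, p.2) ≤ (sg a n true, (⊤ : Q)) := by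
    refine ⟨fun x hx => ?_, le_top⟩
    rw [show x = (a, n, true) from hx]
    exact Or.inr (Or.inl rfl)
  obtain ⟨s, hs, w, d, hw, hd, he⟩ := (feq_iff'.1 h).1 (check (nat n)) (sg a n true, ⊤)
    (el_xN.2 ⟨n, rfl, rfl⟩) (q, p.2) hq hq1
  obtain ⟨m, rfl, rfl⟩ := el_xN.1 hw
  rw [feq_check] at he
  have hm := nat_injective he
  subst hm
  have h1 : (b, n, true) ∈ s.1.s := hd.1 rfl
  have h2 : (b, n, false) ∈ s.1.s := hs.1 (Or.inr (Or.inr rfl))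
  exact s.1.fn _ _ h1 h2

theorem not_feq_bN {i k : I} (hik : i ≠ k) (p : Cd I × Q) :
    ¬ Feq (bN i : PName (Cd I × Q)) (bN k) p := by
  intro h
  obtain ⟨s, hs, w, d, hw, hd, he⟩ := (feq_iff'.1 h).1 (xN (i, 0)) ⊤
    (el_bN.2 ⟨0, rfl, rfl⟩) p le_rfl le_top
  obtain ⟨j, rfl, rfl⟩ := el_bN.1 hw
  refine not_feq_xN ?_ s he
  intro h1
  exact hik (Prod.mk.inj h1).1

/-! ### Moving the atoms -/

/-- The main lemma. -/
theorem move {π : Pkg (Cd I × Q)} {E : Finset (I × ℕ)} {H : Subgroup (Equiv.Perm I)}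
    {t u u' : PName (Cd I × Q)} (ht : t ∈ π.N)
    (hu' : u' ∈ π.N) (hfix : (sys D).Fix (fixE D.toPD E H) t) {τ : D.T}
    (hτH : τ.1 ∈ H) (hτ : ∀ a ∈ E, τ.1 a.1 = a.1)
    (h : ∀ ρ : (sys D).G, Bl ρ.1 τ.1 → ∀ p, Feq (act ((sys D).ac ρ) u) u' p)
    {k : ℕ} (hk : Fmem u t (π.g k))
    (hcomp : ∀ l, k ≤ l → ∃ q, q ≤ (π.g l).2 ∧ q ≤ D.aq τ (π.g k).2) :
    π.val u' ∈ π.val t := by
  by_contra hc
  obtain ⟨k', h1 | h1, -⟩ := π.gen ⟨0, .mem (Sum.inr u') (Sum.inr t), Fin.elim0, ⊤⟩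
    ⟨⟨tOver_inr.2 hu', tOver_inr.2 ht⟩, fun i => i.elim0⟩
  · exact hc ((π.val_mem_iff hu' ht).2 ⟨k', h1⟩)
  · obtain ⟨J, hJ⟩ := (π.g (max k k')).1.exists_bound
    obtain ⟨q, hq, hq'⟩ := compat (τ := τ.1) hJ
    obtain ⟨q₂, hq₂, hq₂'⟩ := hcomp (max k k') (le_max_left _ _)
    let ρ : (sys D).G := ⟨shf τ.1 J, τ.1, τ.2, bl_shf τ.1 J⟩
    have hρ : ρ ∈ fixE D.toPD E H :=
      ⟨fun a ha => shf_fix (hτ a ha), τ.1, τ.2, hτH, bl_shf τ.1 J⟩
    have h3 := fmem_act' (e := (sys D).ac ρ) hk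
    have h4 : (q, q₂) ≤ (sys D).ac ρ (π.g k) := by
      refine ⟨hq'.trans (mv_le (π.g_le_left k k').1), ?_⟩
      change q₂ ≤ D.aq (blk D ρ) (π.g k).2
      rw [blk_eq D (bl_shf τ.1 J)]
      exact hq₂'
    have h5 : Fmem u' t (q, q₂) :=
      fmem_congr (h ρ (bl_shf τ.1 J) (q, q₂)) (hfix ρ hρ (q, q₂)) (h3.mono h4)
    have h6 : (q, q₂) ≤ π.g (max k k') := ⟨hq, hq₂⟩
    exact h1 _ (h6.trans (π.g_le_right k k')) h5

/-- The generic filter meets the dense sets. -/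
theorem meets {P : Type} [Preorder P] [OrderTop P] {π : Pkg P} {A : Set P}
    (hA : Sys.nm P A ∈ π.N) (hemp : (emp : PName P) ∈ π.N) (hd : ∀ p, ∃ q ≤ p, q ∈ A) :
    ∃ k, ∃ a ∈ A, π.g k ≤ a := by
  obtain ⟨k, h1 | h1, -⟩ := π.gen ⟨0, .mem (Sum.inr emp) (Sum.inr (Sys.nm P A)), Fin.elim0, ⊤⟩
    ⟨⟨tOver_inr.2 hemp, tOver_inr.2 hA⟩, fun i => i.elim0⟩
  · have h2 := (π.val_mem_iff hemp hA).2 ⟨k, h1⟩
    obtain ⟨y, hy, c, hc, ⟨n, hn⟩, -⟩ := π.mem_val.1 h2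
    obtain ⟨r, rfl, rfl⟩ := el_mk.1 hc
    exact ⟨n, r.1, r.2, hn⟩
  · obtain ⟨q, hq, hqA⟩ := hd (π.g k)
    exfalso
    refine h1 q hq (fmem_iff.2 fun q' hq' => ⟨q', le_rfl, emp, q, ?_, hq', Feq.refl _ _⟩)
    exact el_mk.2 ⟨⟨q, hqA⟩, rfl, rfl⟩

end K

end Pool.Agent.R598.PM
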