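import Pool.Agent.R598.PM.Defs

/-!
# Topological spaces in a transitive model of ZF: definitions
-/

set_option autoImplicit false

namespace Pool.Agent.R598.PM

open Pool.Agent.W868
open ZFSet (pair)

/-- In the model `M`, the set `τ` is a topology on the set `X`. -/
def IsTop (M : Set ZFSet.{0}) (X τ : ZFSet.{0}) : Prop :=
  (∀ O ∈ τ, O ⊆ X) ∧ ∅ ∈ τ ∧ X ∈ τ ∧ (∀ U ∈ τ, ∀ V ∈ τ, U ∩ V ∈ τ) ∧
    ∀ C ∈ M, C ⊆ τ → ZFSet.sUnion C ∈ τ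

/-- In the model `M`, the space `(X, τ)` is compact: every open cover has a finite subcover. -/
def IsComp (M : Set ZFSet.{0}) (X τ : ZFSet.{0}) : Prop :=
  ∀ C ∈ M, C ⊆ τ → X ⊆ ZFSet.sUnion C →
    ∃ F ∈ M, F ⊆ C ∧ FinIn M F ∧ X ⊆ ZFSet.sUnion F

/-- The space `(X, τ)` is Hausdorff. -/
def IsHaus (X τ : ZFSet.{0}) : Prop :=
  ∀ x ∈ X, ∀ y ∈ X, x ≠ y → ∃ U ∈ τ, ∃ V ∈ τ, x ∈ U ∧ y ∈ V ∧ U ∩ V = ∅

/-- In the model `M`, the space `(X, τ)` has a base that is the union of a sequence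
`B 0, B 1, ...` of finite sets. The sequence is given by the function `b ∈ M`. -/
def CufBase (M : Set ZFSet.{0}) (τ : ZFSet.{0}) : Prop :=
  ∃ b ∈ M, ∃ B : ℕ → ZFSet.{0}, (∀ n y, pair (nat n) y ∈ b ↔ y = B n) ∧
    (∀ n, FinIn M (B n) ∧ B n ⊆ τ) ∧ ∀ O ∈ τ, ∀ x ∈ O, ∃ n, ∃ U ∈ B n, x ∈ U ∧ U ⊆ O

/-- In the model `M`, the space `(X, τ)` is weakly Loeb: there is a function `f ∈ M` that gives
for each non-empty closed set a non-empty finite subset. -/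
def WeakLoeb (M : Set ZFSet.{0}) (X τ : ZFSet.{0}) : Prop :=
  ∃ f ∈ M, ∀ F ∈ M, F ⊆ X → F ≠ ∅ → X \ F ∈ τ →
    ∃ y, (∀ w, pair F w ∈ f ↔ w = y) ∧ y ⊆ F ∧ y ≠ ∅ ∧ FinIn M y

end Pool.Agent.R598.PM
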