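import Pool.Agent.R598.PM.Mod2
import Pool.Agent.R598.PM.TopDefs

/-!
# A compact Hausdorff space with a cuf base that is not weakly Loeb
-/

set_option autoImplicit false

namespace Pool.Agent.R598.PM.Lo

open Pool.Agent.W868 Pool.Agent.W868.PName Pool.Agent.R598.SY
open ZFSet (pair)

/-- The points `x` and `y` agree below `n`. -/
def R (n : ℕ) (x y : Finset ℕ) : Prop := ∀ j < n, (j ∈ x ↔ j ∈ y)

theorem R.refl {n : ℕ} (x : Finset ℕ) : R n x x := fun _ _ => Iff.rfl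

theorem R.symm {n : ℕ} {x y : Finset ℕ} (h : R n x y) : R n y x := fun j hj => (h j hj).symm

theorem R.trans {n : ℕ} {x y z : Finset ℕ} (h : R n x y) (h' : R n y z) : R n x z :=
  fun j hj => (h j hj).trans (h' j hj)

theorem R.mono {n m : ℕ} {x y : Finset ℕ} (h : R m x y) (hn : n ≤ m) : R n x y :=
  fun j hj => h j (hj.trans_le hn)

/-- The group of the isometries. -/
def T : Subgroup (Equiv.Perm (Finset ℕ)) where
  carrier := {τ | ∀ n x y, R n (τ x) (τ y) ↔ R n x y}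
  mul_mem' := by
    intro τ σ h h' n x y
    exact (h n _ _).trans (h' n x y)
  one_mem' := fun _ _ _ => Iff.rfl
  inv_mem' := by
    intro τ h n x y
    have h1 := h n (τ.symm x) (τ.symm y)
    rw [Equiv.apply_symm_apply, Equiv.apply_symm_apply] at h1
    exact h1.symm

/-- The permutation model. -/
def D : PD (Finset ℕ) where
  T := T
  Φ := {⊤}
  ne := ⟨_, rfl⟩
  conj := by
    rintro _ rfl τ -
    exact ⟨∅, ⊤, rfl, fun _ _ _ _ => trivial⟩
  dir := by
    rintro _ rfl _ rfl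
    exact ⟨⊤, rfl, le_rfl, le_rfl⟩

/-- The cones. -/
def cone (n : ℕ) (x : Finset ℕ) : Set (Finset ℕ) := {y | R n x y}

theorem cone_dfb (n : ℕ) (x : Finset ℕ) : cone n x ∈ Dfb D := by
  refine ⟨{x}, ⊤, rfl, fun τ hτ _ hfix y hy => ?_⟩
  have h1 := (hτ n x y).2 hy
  rwa [hfix x (Finset.mem_singleton_self x)] at h1

theorem image_cone {τ : Equiv.Perm (Finset ℕ)} (hτ : τ ∈ T) (n : ℕ) (x : Finset ℕ) :
    τ '' cone n x = cone n (τ x) := by
  ext y
  constructor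
  · rintro ⟨z, hz, rfl⟩
    exact (hτ n x z).2 hz
  · intro hy
    refine ⟨τ.symm y, (hτ n _ _).1 ?_, Equiv.apply_symm_apply τ y⟩
    rw [Equiv.apply_symm_apply]
    exact hy

theorem cone_eq {n : ℕ} {x y : Finset ℕ} (h : R n x y) : cone n x = cone n y := by
  ext z
  exact ⟨fun hz => h.symm.trans hz, fun hz => h.trans hz⟩

theorem cone_sub {n m : ℕ} (h : n ≤ m) (x : Finset ℕ) : cone m x ⊆ cone n x :=
  fun _ hy => R.mono hy h

/-- The cones of the level `n`. -/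
def Cn (n : ℕ) : Set (Set (Finset ℕ)) := Set.range (cone n)

theorem Cn_dfb (n : ℕ) : Cn n ⊆ Dfb D := by
  rintro _ ⟨x, rfl⟩
  exact cone_dfb n x

theorem inv_Cn (n : ℕ) : Inv D (Cn n) := by
  rintro τ hτ _ ⟨x, rfl⟩
  exact ⟨τ x, (image_cone hτ n x).symm⟩

theorem Cn_fin (n : ℕ) : (Cn n).Finite := by
  refine ((Finset.range n).powerset.finite_toSet.image (cone n)).subset ?_
  rintro _ ⟨x, rfl⟩
  refine ⟨x.filter (· < n), ?_, ?_⟩
  · rw [Finset.mem_coe, Finset.mem_powerset]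
    intro j hj
    exact Finset.mem_range.2 (Finset.mem_filter.1 hj).2
  · refine cone_eq fun j hj => ?_
    rw [Finset.mem_filter]
    exact ⟨fun h => h.1, fun h => ⟨h, hj⟩⟩

/-- All the cones. -/
def Ca : Set (Set (Finset ℕ)) := {S | ∃ n x, S = cone n x}

theorem Ca_dfb : Ca ⊆ Dfb D := by
  rintro _ ⟨n, x, rfl⟩
  exact cone_dfb n x

theorem inv_Ca : Inv D Ca := by
  rintro τ hτ _ ⟨n, x, rfl⟩
  exact ⟨n, τ x, image_cone hτ n x⟩

open Classical in
/-- The symmetric difference with `d` on the cone. -/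
noncomputable def xf (n : ℕ) (x d y : Finset ℕ) : Finset ℕ :=
  if R n x y then symmDiff y d else y

theorem mem_sd {j : ℕ} {y d : Finset ℕ} : j ∈ symmDiff y d ↔ ¬ (j ∈ y ↔ j ∈ d) := by
  rw [Finset.mem_symmDiff]
  tauto

theorem R_sd {n : ℕ} {x y d : Finset ℕ} (hd : ∀ j ∈ d, n ≤ j) :
    R n x (symmDiff y d) ↔ R n x y := by
  have key : ∀ j < n, (j ∈ symmDiff y d ↔ j ∈ y) := by
    intro j hj
    rw [mem_sd]
    have h1 : j ∉ d := fun h => absurd (hd j h) (not_le.2 hj)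
    tauto
  constructor
  · intro h j hj
    rw [h j hj, key j hj]
  · intro h j hj
    rw [h j hj, key j hj]

theorem xf_xf {n : ℕ} {x d : Finset ℕ} (hd : ∀ j ∈ d, n ≤ j) (y : Finset ℕ) :
    xf n x d (xf n x d y) = y := by
  unfold xf
  by_cases h : R n x y
  · rw [if_pos h, if_pos ((R_sd hd).2 h)]
    ext j
    rw [mem_sd, mem_sd]
    tauto
  · rw [if_neg h, if_neg h]

/-- The symmetric difference with `d` on the cone. -/
noncomputable def xr (n : ℕ) (x d : Finset ℕ) (hd : ∀ j ∈ d, n ≤ j) : Equiv.Perm (Finset ℕ) where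
  toFun := xf n x d
  invFun := xf n x d
  left_inv := xf_xf hd
  right_inv := xf_xf hd

theorem xr_pos {n : ℕ} {x d y : Finset ℕ} {hd : ∀ j ∈ d, n ≤ j} (h : R n x y) :
    xr n x d hd y = symmDiff y d := if_pos h

theorem xr_neg {n : ℕ} {x d y : Finset ℕ} {hd : ∀ j ∈ d, n ≤ j} (h : ¬ R n x y) :
    xr n x d hd y = y := if_neg h

theorem xr_R {n : ℕ} {x d y : Finset ℕ} {hd : ∀ j ∈ d, n ≤ j} :
    R n x (xr n x d hd y) ↔ R n x y := by
  by_cases h : R n x y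
  · rw [xr_pos h, R_sd hd]
  · rw [xr_neg h]

theorem xr_mem {n : ℕ} {x d : Finset ℕ} {hd : ∀ j ∈ d, n ≤ j} : xr n x d hd ∈ T := by
  have low : ∀ y, ∀ j < n, (j ∈ xr n x d hd y ↔ j ∈ y) := by
    intro y j hj
    by_cases h : R n x y
    · rw [xr_pos h, mem_sd]
      have h1 : j ∉ d := fun h => absurd (hd j h) (not_le.2 hj)
      tauto
    · rw [xr_neg h]
  intro k y z
  by_cases hk : k ≤ n
  · constructor
    · intro h j hj
      rw [← low y j (hj.trans_le hk), ← low z j (hj.trans_le hk)]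
      exact h j hj
    · intro h j hj
      rw [low y j (hj.trans_le hk), low z j (hj.trans_le hk)]
      exact h j hj
  · by_cases hy : R n x y
    · by_cases hz : R n x z
      · rw [xr_pos hy, xr_pos hz]
        constructor
        · intro h j hj
          have h1 := h j hj
          rw [mem_sd, mem_sd] at h1
          tauto
        · intro h j hj
          have h1 := h j hj
          rw [mem_sd, mem_sd]
          tauto
      · constructor
        · intro h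
          refine absurd (xr_R.1 (?_ : R n x (xr n x d hd z))) hz
          exact (xr_R.2 hy).trans (h.mono (le_of_not_ge hk))
        · intro h
          exact absurd (hy.trans (h.mono (le_of_not_ge hk))) hz
    · by_cases hz : R n x z
      · constructor
        · intro h
          refine absurd (xr_R.1 (?_ : R n x (xr n x d hd y))) hy
          exact (xr_R.2 hz).trans (h.symm.mono (le_of_not_ge hk))
        · intro h
          exact absurd (hz.trans (h.symm.mono (le_of_not_ge hk))) hy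
      · rw [xr_neg hy, xr_neg hz]

/-- The point `y` of a cone can be moved to any other point of the cone. -/
theorem exists_move {n : ℕ} {x y z : Finset ℕ} (hy : R n x y) (hz : R n x z) :
    ∃ τ ∈ T, τ y = z ∧ (∀ w, ¬ R n x w → τ w = w) ∧ τ '' cone n x = cone n x := by
  have hd : ∀ j ∈ symmDiff y z, n ≤ j := by
    intro j hj
    by_contra hc
    rw [mem_sd] at hj
    exact hj ((hy j (not_le.1 hc)).symm.trans (hz j (not_le.1 hc)))
  refine ⟨xr n x _ hd, xr_mem, ?_, fun w hw => xr_neg hw, ?_⟩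
  · rw [xr_pos hy]
    ext j
    rw [mem_sd, mem_sd]
    tauto
  · rw [image_cone xr_mem]
    exact cone_eq (xr_R.2 (R.refl x)).symm

/-- The names of the indices. -/
noncomputable def kN (n : ℕ) : PName (Cd (Finset ℕ)) := check (nat n)

section

variable {π : Pkg (Cd (Finset ℕ))} (g : ∀ i : Finset ℕ, bN i ∈ π.N)
  (hM : IsZF ((sys D).Ms π)) (hc : ∀ n x, sN (cone n x) ∈ π.N)
  (hA : sN (Set.univ : Set (Finset ℕ)) ∈ π.N)
  (hCa : vN Ca ∈ π.N) (hCn : ∀ n, vN (Cn n) ∈ π.N) (hf : fN kN Cn ∈ π.N)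

include hc in
omit hM in
theorem mem_Ca {z : ZFSet.{0}} : z ∈ π.val (vN Ca) ↔ ∃ n x, z = ev π (cone n x) := by
  rw [W.mem_vN fun S hS => by
    obtain ⟨n, x, rfl⟩ := hS
    exact hc n x]
  constructor
  · rintro ⟨_, ⟨n, x, rfl⟩, rfl⟩
    exact ⟨n, x, rfl⟩
  · rintro ⟨n, x, rfl⟩
    exact ⟨_, ⟨n, x, rfl⟩, rfl⟩

include hc in
omit hM in
theorem mem_Cn {n : ℕ} {z : ZFSet.{0}} : z ∈ π.val (vN (Cn n)) ↔ ∃ x, z = ev π (cone n x) := by
  rw [W.mem_vN fun S hS => by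
    obtain ⟨x, rfl⟩ := hS
    exact hc n x]
  constructor
  · rintro ⟨_, ⟨x, rfl⟩, rfl⟩
    exact ⟨x, rfl⟩
  · rintro ⟨x, rfl⟩
    exact ⟨_, ⟨x, rfl⟩, rfl⟩

omit hM in
include hc in
theorem cone_mem (n : ℕ) (x : Finset ℕ) : ev π (cone n x) ∈ (sys D).Ms π :=
  W.ev_mem (cone_dfb n x) (hc n x)

/-- The existence of the topology. -/
def IsTau (π : Pkg (Cd (Finset ℕ))) (τ : ZFSet.{0}) : Prop :=
  ∀ O, O ∈ τ ↔ O ∈ (sys D).Ms π ∧ O ⊆ ev π Set.univ ∧
    ∀ x, π.val (bN x) ∈ O → ∃ n, ev π (cone n x) ⊆ O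

include g hM hc hA hCa in
theorem exists_tau : ∃ τ ∈ (sys D).Ms π, IsTau π τ := by
  have hAM := W.ev_mem (D := D) dfb_univ hA
  have hCM : π.val (vN Ca) ∈ (sys D).Ms π := ⟨_, ⟨hCa, hs_vN inv_Ca Ca_dfb⟩, rfl⟩
  obtain ⟨Q, hQ, hQ'⟩ := hM.power _ hAM
  have hB := hM.base
  have h1 := hM.sep_mem (Q := fun O => ∀ a ∈ O, ∃ C ∈ π.val (vN Ca), a ∈ C ∧ ∀ b ∈ C, b ∈ O) (by
    (repeat' first
      | assumption
      | exact DfnF.proj _
      | exact DfnF.const (by assumption)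
      | apply Dfn.not | apply Dfn.and | apply Dfn.or | apply hB.bex | apply hB.ball
      | apply Dfn.imp | apply Dfn.iff | apply Dfn.ex | apply Dfn.all
      | apply Dfn.eq | apply Dfn.mem)) hQ
  refine ⟨_, h1, fun O => ?_⟩
  rw [ZFSet.mem_sep, hQ', and_assoc]
  refine and_congr_right fun _ => and_congr_right fun hOA => ?_
  constructor
  · intro h x hx
    obtain ⟨C, hC, hxC, hCO⟩ := h _ hx
    obtain ⟨n, y, rfl⟩ := (mem_Ca hc).1 hC
    refine ⟨n, fun b hb => hCO b ?_⟩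
    rwa [cone_eq ((W.bN_mem_ev g).1 hxC)]
  · intro h a ha
    obtain ⟨x, -, rfl⟩ := (W.mem_ev g).1 (hOA ha)
    obtain ⟨n, hn⟩ := h x ha
    exact ⟨_, (mem_Ca hc).2 ⟨n, x, rfl⟩, (W.bN_mem_ev g).2 (R.refl x), fun b hb => hn hb⟩

variable {τ : ZFSet.{0}} (hτ : IsTau π τ)

include hτ g hc

theorem cone_tau (n : ℕ) (x : Finset ℕ) : ev π (cone n x) ∈ τ := by
  refine (hτ _).2 ⟨cone_mem hc n x, (W.ev_subset g).2 (Set.subset_univ _), fun y hy => ⟨n, ?_⟩⟩
  rw [cone_eq ((W.bN_mem_ev g).1 hy)]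

theorem co_cone_tau (hA : sN (Set.univ : Set (Finset ℕ)) ∈ π.N) (hM : IsZF ((sys D).Ms π))
    (n : ℕ) (x : Finset ℕ) : ev π Set.univ \ ev π (cone n x) ∈ τ := by
  refine (hτ _).2 ⟨?_, fun z hz => (ZFSet.mem_sdiff.1 hz).1, fun y hy => ⟨n, fun z hz => ?_⟩⟩
  · have hAM := W.ev_mem (D := D) dfb_univ hA
    have hC := cone_mem hc n x
    have hB := hM.base
    have h1 := hM.sep_mem (Q := fun z => ¬ z ∈ ev π (cone n x)) (by
      (repeat' first
        | assumption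
        | exact DfnF.proj _
        | exact DfnF.const (by assumption)
        | apply Dfn.not | apply Dfn.and | apply Dfn.or | apply Dfn.imp | apply Dfn.iff
        | apply hB.bex | apply hB.ball | apply Dfn.ex | apply Dfn.all
        | apply Dfn.eq | apply Dfn.mem)) hAM
    have h2 : ZFSet.sep (fun z => ¬ z ∈ ev π (cone n x)) (ev π Set.univ) =
        ev π Set.univ \ ev π (cone n x) := by
      ext z
      rw [ZFSet.mem_sep, ZFSet.mem_sdiff]
    rwa [h2] at h1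
  · obtain ⟨w, hw, rfl⟩ := (W.mem_ev g).1 hz
    rw [ZFSet.mem_sdiff] at hy ⊢
    refine ⟨(W.bN_mem_ev g).2 trivial, fun h => hy.2 ?_⟩
    have h1 : R n x w := (W.bN_mem_ev g).1 h
    have h2 : R n y w := hw
    exact (W.bN_mem_ev g).2 (h1.trans h2.symm)

theorem isTop (hA : sN (Set.univ : Set (Finset ℕ)) ∈ π.N) (hM : IsZF ((sys D).Ms π)) :
    IsTop ((sys D).Ms π) (ev π Set.univ) τ := by
  refine ⟨fun O hO => ((hτ O).1 hO).2.1, ?_, ?_, ?_, ?_⟩
  · refine (hτ _).2 ⟨hM.empty_mem, fun z hz => absurd hz (ZFSet.notMem_empty _), fun x hx =>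
      absurd hx (ZFSet.notMem_empty _)⟩
  · refine (hτ _).2 ⟨W.ev_mem dfb_univ hA, subset_rfl, fun x _ => ⟨0, ?_⟩⟩
    exact (W.ev_subset g).2 (Set.subset_univ _)
  · intro U hU V hV
    obtain ⟨h1, h2, h3⟩ := (hτ U).1 hU
    obtain ⟨h1', h2', h3'⟩ := (hτ V).1 hV
    refine (hτ _).2 ⟨?_, fun z hz => h2 (ZFSet.mem_inter.1 hz).1, fun x hx => ?_⟩
    · have hB := hM.base
      have h4 := hM.sep_mem (Q := fun z => z ∈ V) (by
        (repeat' first
          | assumption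
          | exact DfnF.proj _
          | exact DfnF.const (by assumption)
          | apply Dfn.mem)) h1
      have h5 : ZFSet.sep (fun z => z ∈ V) U = U ∩ V := by
        ext z
        rw [ZFSet.mem_sep, ZFSet.mem_inter]
      rwa [h5] at h4
    · rw [ZFSet.mem_inter] at hx
      obtain ⟨n, hn⟩ := h3 x hx.1
      obtain ⟨m, hm⟩ := h3' x hx.2
      refine ⟨max n m, fun z hz => ZFSet.mem_inter.2 ⟨hn ?_, hm ?_⟩⟩
      · exact (W.ev_subset g).2 (cone_sub (le_max_left _ _) x) hz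
      · exact (W.ev_subset g).2 (cone_sub (le_max_right _ _) x) hz
  · intro C hC hCτ
    refine (hτ _).2 ⟨hM.union _ hC, fun z hz => ?_, fun x hx => ?_⟩
    · obtain ⟨O, hO, hz⟩ := ZFSet.mem_sUnion.1 hz
      exact ((hτ O).1 (hCτ hO)).2.1 hz
    · obtain ⟨O, hO, hxO⟩ := ZFSet.mem_sUnion.1 hx
      obtain ⟨n, hn⟩ := ((hτ O).1 (hCτ hO)).2.2 x hxO
      exact ⟨n, fun z hz => ZFSet.mem_sUnion.2 ⟨O, hO, hn hz⟩⟩

theorem isHaus : IsHaus (ev π Set.univ) τ := by
  intro a ha b hb hab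
  obtain ⟨x, -, rfl⟩ := (W.mem_ev g).1 ha
  obtain ⟨y, -, rfl⟩ := (W.mem_ev g).1 hb
  have hxy : ∃ j, ¬ (j ∈ x ↔ j ∈ y) := by
    by_contra hc
    push Not at hc
    exact hab (by rw [show x = y from Finset.ext hc])
  obtain ⟨j, hj⟩ := hxy
  refine ⟨_, cone_tau g hc hτ (j + 1) x, _, cone_tau g hc hτ (j + 1) y,
    (W.bN_mem_ev g).2 (R.refl x), (W.bN_mem_ev g).2 (R.refl y), ?_⟩
  rw [W.ev_inter g, ← W.ev_empty g]
  congr 1
  refine Set.eq_empty_of_forall_notMem fun z hz => hj ?_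
  exact (hz.1 j (Nat.lt_succ_self j)).trans (hz.2 j (Nat.lt_succ_self j)).symm

theorem isComp (hM : IsZF ((sys D).Ms π)) (hCa : vN Ca ∈ π.N) :
    IsComp ((sys D).Ms π) (ev π Set.univ) τ := by
  classical
  intro C hC hCτ hcov
  have hCM : π.val (vN Ca) ∈ (sys D).Ms π := ⟨_, ⟨hCa, hs_vN inv_Ca Ca_dfb⟩, rfl⟩
  have hB := hM.base
  have h1 := hM.sep_mem (Q := fun K => ∃ O ∈ C, ∀ b ∈ K, b ∈ O) (by
    (repeat' first
      | assumption
      | exact DfnF.proj _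
      | exact DfnF.const (by assumption)
      | apply Dfn.not | apply Dfn.and | apply Dfn.or | apply hB.bex | apply hB.ball
      | apply Dfn.imp | apply Dfn.iff | apply Dfn.ex | apply Dfn.all
      | apply Dfn.eq | apply Dfn.mem)) hCM
  obtain ⟨E, _, rfl, hE⟩ := W.exists_fam h1
  -- the good cones
  have hgood : ∀ n x, ev π (cone n x) ∈ ZFSet.sep (fun K => ∃ O ∈ C, ∀ b ∈ K, b ∈ O)
      (π.val (vN Ca)) ↔ ∃ O ∈ C, ev π (cone n x) ⊆ O := by
    intro n x
    rw [ZFSet.mem_sep]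
    constructor
    · rintro ⟨-, O, hO, h⟩
      exact ⟨O, hO, fun b hb => h b hb⟩
    · rintro ⟨O, hO, h⟩
      exact ⟨(mem_Ca hc).2 ⟨n, x, rfl⟩, O, hO, fun b hb => h hb⟩
  have hdown : ∀ n m x, n ≤ m → (∃ O ∈ C, ev π (cone n x) ⊆ O) →
      ∃ O ∈ C, ev π (cone m x) ⊆ O := by
    rintro n m x hnm ⟨O, hO, h⟩
    exact ⟨O, hO, fun z hz => h ((W.ev_subset g).2 (cone_sub hnm x) hz)⟩
  have hpt : ∀ x, ∃ n, ∃ O ∈ C, ev π (cone n x) ⊆ O := by
    intro x
    obtain ⟨O, hO, hx⟩ := ZFSet.mem_sUnion.1 (hcov ((W.bN_mem_ev g).2 (Set.mem_univ x)))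
    obtain ⟨n, hn⟩ := ((hτ O).1 (hCτ hO)).2.2 x hx
    exact ⟨n, O, hO, hn⟩
  choose k hk using hpt
  obtain ⟨m, hm⟩ : ∃ m, ∀ e ∈ E, k e ≤ m := ⟨E.sup k, fun e he => Finset.le_sup he⟩
  have hlev : ∀ x, ∃ n, ∀ y, R m x y → ∃ O ∈ C, ev π (cone n y) ⊆ O := by
    intro x
    by_cases hx : ∃ e ∈ E, R m x e
    · obtain ⟨e, he, hxe⟩ := hx
      refine ⟨m, fun y hy => ?_⟩
      rw [← cone_eq (hxe.symm.trans hy)]
      exact hdown _ _ _ (hm e he) (hk e)
    · refine ⟨k x, fun y hy => ?_⟩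
      obtain ⟨σ, hσ, h2, h3, -⟩ := exists_move (R.refl x) hy
      have h4 := hE σ hσ trivial (fun e he => h3 e fun h => hx ⟨e, he, h⟩) (cone (k x) x)
        (hc _ _) (by rw [image_cone hσ]; exact hc _ _) ((hgood _ _).2 (hk x))
      rw [image_cone hσ, h2] at h4
      exact (hgood _ _).1 h4
  choose l hl using hlev
  obtain ⟨n, hn⟩ : ∃ n, ∀ x, ∃ O ∈ C, ev π (cone n x) ⊆ O := by
    refine ⟨(Finset.range m).powerset.sup l, fun x => ?_⟩
    have h2 : x.filter (· < m) ∈ (Finset.range m).powerset := by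
      rw [Finset.mem_powerset]
      intro j hj
      exact Finset.mem_range.2 (Finset.mem_filter.1 hj).2
    have h3 : R m (x.filter (· < m)) x := fun j hj => by
      rw [Finset.mem_filter]
      exact ⟨fun h => h.1, fun h => ⟨h, hj⟩⟩
    exact hdown _ _ _ (Finset.le_sup h2) (hl _ x h3)
  choose O hO hO' using hn
  -- the finite subcover
  let s : Set ZFSet.{0} := O '' (↑((Finset.range n).powerset) : Set (Finset ℕ))
  have hs : s.Finite := (Finset.finite_toSet _).image _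
  have hsC : ∀ z ∈ s, z ∈ C := by
    rintro _ ⟨x, -, rfl⟩
    exact hO x
  obtain ⟨F, hF, hFs, n', f, hf', hbij⟩ := CR.fin_bij hM s hs fun z hz => hM.trans _ hC _ (hsC z hz)
  refine ⟨F, hF, fun z hz => hsC z ((hFs z).1 hz), ⟨n', f, hf', hbij⟩, fun z hz => ?_⟩
  obtain ⟨x, -, rfl⟩ := (W.mem_ev g).1 hz
  have h2 : x.filter (· < n) ∈ (Finset.range n).powerset := by
    rw [Finset.mem_powerset]
    intro j hj
    exact Finset.mem_range.2 (Finset.mem_filter.1 hj).2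
  have h3 : R n (x.filter (· < n)) x := fun j hj => by
    rw [Finset.mem_filter]
    exact ⟨fun h => h.1, fun h => ⟨h, hj⟩⟩
  exact ZFSet.mem_sUnion.2 ⟨O (x.filter (· < n)), (hFs _).2 ⟨_, Finset.mem_coe.2 h2, rfl⟩,
    hO' _ ((W.bN_mem_ev g).2 h3)⟩

theorem cufBase (hM : IsZF ((sys D).Ms π)) (hCn : ∀ n, vN (Cn n) ∈ π.N)
    (hf : fN kN Cn ∈ π.N) : CufBase ((sys D).Ms π) τ := by
  have hk : ∀ t, kN t ∈ π.N := fun t => π.nat_Z _
  have hkv : ∀ t, π.val (kN t) = nat t := fun t => π.hat_nat t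
  refine ⟨π.val (fN kN Cn), ⟨_, ⟨hf, hs_fN (fun t => ?_) (fun t ρ => ?_)
    (fun t => inv_Cn t) (fun t => Cn_dfb t)⟩, rfl⟩, fun n => π.val (vN (Cn n)), ?_, ?_, ?_⟩
  · exact (sys D).hs_check _
  · exact act_check ((sys D).top ρ) _
  · intro n y
    rw [mem_fN hk hCn]
    constructor
    · rintro ⟨t, h1, h2⟩
      rw [hkv] at h1
      rw [h2, nat_injective h1]
    · rintro rfl
      exact ⟨n, (hkv n).symm, rfl⟩
  · intro n
    refine ⟨(finIn_iff hM fun z hz => ?_).2 ?_, fun z hz => ?_⟩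
    · obtain ⟨x, rfl⟩ := (mem_Cn hc).1 hz
      exact cone_mem hc n x
    · refine ((Cn_fin n).image (ev π)).subset fun z hz => ?_
      obtain ⟨x, rfl⟩ := (mem_Cn hc).1 hz
      exact ⟨_, ⟨x, rfl⟩, rfl⟩
    · obtain ⟨x, rfl⟩ := (mem_Cn hc).1 hz
      exact cone_tau g hc hτ n x
  · intro O hO a ha
    obtain ⟨h1, h2, h3⟩ := (hτ O).1 hO
    obtain ⟨x, -, rfl⟩ := (W.mem_ev g).1 (h2 ha)
    obtain ⟨n, hn⟩ := h3 x ha
    exact ⟨n, _, (mem_Cn hc).2 ⟨x, rfl⟩, (W.bN_mem_ev g).2 (R.refl x), hn⟩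

theorem not_weakLoeb (hM : IsZF ((sys D).Ms π)) (hCa : vN Ca ∈ π.N)
    (hA : sN (Set.univ : Set (Finset ℕ)) ∈ π.N) :
    ¬ WeakLoeb ((sys D).Ms π) (ev π Set.univ) τ := by
  classical
  rintro ⟨f, hf, h⟩
  have hCM : π.val (vN Ca) ∈ (sys D).Ms π := ⟨_, ⟨hCa, hs_vN inv_Ca Ca_dfb⟩, rfl⟩
  have hAM := W.ev_mem (D := D) dfb_univ hA
  have hB := hM.base
  have hu := hM.union _ (hM.union _ hf)
  have h1 := hM.sep_mem (Q := fun z => ∃ K ∈ π.val (vN Ca), ∃ y ∈ ZFSet.sUnion (ZFSet.sUnion f),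
    ∃ a ∈ y, z = pair K a ∧ pair K y ∈ f) (by
    (repeat' first
      | assumption
      | exact DfnF.proj _
      | exact DfnF.const (by assumption)
      | apply Dfn.not | apply Dfn.and | apply Dfn.or | apply hB.bex | apply hB.ball
      | apply Dfn.imp | apply Dfn.iff | apply Dfn.ex | apply Dfn.all
      | apply Dfn.eq | apply Dfn.mem | apply hB.pair')) (hM.prod_mem hCM hAM)
  obtain ⟨E, _, rfl, hE⟩ := W.exists_rel g h1
  obtain ⟨x, hx⟩ := Infinite.exists_notMem_finset E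
  have h2 : ∀ e, ∃ k, e ∈ E → ¬ R k x e := by
    intro e
    by_cases he : e ∈ E
    · by_contra hc
      push Not at hc
      apply hx
      have h3 : x = e := by
        ext j
        exact (hc (j + 1)).2 j (Nat.lt_succ_self j)
      rw [h3]
      exact he
    · exact ⟨0, fun h => absurd h he⟩
  choose k hk using h2
  have hk' : ∀ e ∈ E, ¬ R (E.sup k) x e := fun e he h3 =>
    hk e he (h3.mono (Finset.le_sup he))
  set n := E.sup k
  obtain ⟨y, hy, hyF, hy0, hyfin⟩ := h (ev π (cone n x)) (cone_mem hc n x)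
    ((W.ev_subset g).2 (Set.subset_univ _)) (fun h3 => by
      have h4 := (W.bN_mem_ev g).2 (show x ∈ cone n x from R.refl x)
      rw [h3] at h4
      exact ZFSet.notMem_empty _ h4) (co_cone_tau g hc hτ hA hM n x)
  have hyf : pair (ev π (cone n x)) y ∈ f := (hy y).2 rfl
  have hyM : y ∈ (sys D).Ms π := (hM.of_pair_mem (hM.trans _ hf _ hyf)).2
  obtain ⟨a, ha⟩ : ∃ a, a ∈ y := by
    by_contra hne
    push Not at hne
    exact hy0 ((ZFSet.eq_empty y).2 hne)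
  obtain ⟨t, ht, rfl⟩ := (W.mem_ev g).1 (hyF ha)
  have hrel : ∀ w, pair (ev π (cone n x)) (π.val (bN w)) ∈ ZFSet.sep (fun z => ∃ K ∈ π.val (vN Ca),
      ∃ y ∈ ZFSet.sUnion (ZFSet.sUnion f), ∃ a ∈ y, z = pair K a ∧ pair K y ∈ f)
        (ZFSet.prod (π.val (vN Ca)) (ev π Set.univ)) ↔ π.val (bN w) ∈ y := by
    intro w
    rw [ZFSet.mem_sep]
    constructor
    · rintro ⟨-, K, -, y', -, a', ha', h4, h5⟩
      obtain ⟨rfl, rfl⟩ := ZFSet.pair_inj.1 h4
      rwa [(hy y').1 h5] at ha'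
    · intro hw
      have h3 : y ∈ ZFSet.sUnion (ZFSet.sUnion f) := by
        refine ZFSet.mem_sUnion.2 ⟨{ev π (cone n x), y}, ZFSet.mem_sUnion.2 ⟨_, hyf, ?_⟩, ?_⟩
        · exact ZFSet.mem_pair.2 (Or.inr rfl)
        · exact ZFSet.mem_pair.2 (Or.inr rfl)
      exact ⟨ZFSet.pair_mem_prod.2 ⟨(mem_Ca hc).2 ⟨n, x, rfl⟩, (W.bN_mem_ev g).2 trivial⟩, _,
        (mem_Ca hc).2 ⟨n, x, rfl⟩, y, h3, _, hw, rfl, hyf⟩
  have hall : ∀ w ∈ cone n x, π.val (bN w) ∈ y := by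
    intro w hw
    obtain ⟨σ, hσ, h3, h4, h5⟩ := exists_move (ht : R n x t) (hw : R n x w)
    have h6 := hE σ hσ trivial (fun e he => h4 e (hk' e he)) (cone n x) t (hc _ _)
      (by rw [h5]; exact hc _ _) ((hrel t).2 ha)
    rw [h5, h3] at h6
    exact (hrel w).1 h6
  have h3 : {z | z ∈ y}.Finite := (finIn_iff hM fun z hz => hM.trans _ hyM _ hz).1 hyfin
  have h4 : (cone n x).Finite := by
    refine Set.Finite.of_finite_image (f := fun w => π.val (bN w)) (h3.subset ?_)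
      (fun i _ k _ h => W.val_bN_inj g h)
    rintro _ ⟨w, hw, rfl⟩
    exact hall w hw
  refine Set.infinite_of_injective_forall_mem (f := fun j : ℕ => x.filter (· < n) ∪ {n + j}) ?_ ?_ h4
  · intro j j' hj
    have h5 : n + j ∈ x.filter (· < n) ∪ {n + j'} := by
      rw [← show x.filter (· < n) ∪ {n + j} = x.filter (· < n) ∪ {n + j'} from hj]
      exact Finset.mem_union_right _ (Finset.mem_singleton_self _)
    rw [Finset.mem_union, Finset.mem_filter, Finset.mem_singleton] at h5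
    omega
  · intro j i hi
    rw [Finset.mem_union, Finset.mem_filter, Finset.mem_singleton]
    constructor
    · exact fun h => Or.inl ⟨h, hi⟩
    · rintro (h | h)
      · exact h.1
      · omega

end

/-- The model. -/
theorem main : ∃ M : Set ZFSet.{0}, M.Countable ∧ IsZF M ∧ ∃ X ∈ M, ∃ τ ∈ M,
    IsTop M X τ ∧ IsComp M X τ ∧ IsHaus X τ ∧ CufBase M τ ∧ ¬ WeakLoeb M X τ := by
  obtain ⟨π, g, hM, hct, hX⟩ := W.exists_model D
    (Set.range (fun t : ℕ × Finset ℕ => sN (cone t.1 t.2)) ∪ ({sN Set.univ, vN Ca, fN kN Cn} ∪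
      Set.range fun n => vN (Cn n)))
    ((Set.countable_range _).union (((Set.toFinite _).countable).union (Set.countable_range _)))
  have hc : ∀ n x, sN (cone n x) ∈ π.N := fun n x => hX (Or.inl ⟨(n, x), rfl⟩)
  have hA : sN (Set.univ : Set (Finset ℕ)) ∈ π.N := hX (Or.inr (Or.inl (Or.inl rfl)))
  have hCa : vN Ca ∈ π.N := hX (Or.inr (Or.inl (Or.inr (Or.inl rfl))))
  have hf : fN kN Cn ∈ π.N := hX (Or.inr (Or.inl (Or.inr (Or.inr rfl))))
  have hCn : ∀ n, vN (Cn n) ∈ π.N := fun n => hX (Or.inr (Or.inr ⟨n, rfl⟩))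
  obtain ⟨τ, hτM, hτ⟩ := exists_tau g hM hc hA hCa
  exact ⟨(sys D).Ms π, hct, hM, ev π Set.univ, W.ev_mem dfb_univ hA, τ, hτM,
    isTop g hc hτ hA hM, isComp g hc hτ hM hCa, isHaus g hc hτ, cufBase g hc hτ hM hCn hf,
    not_weakLoeb g hc hτ hM hCa hA⟩

end Pool.Agent.R598.PM.Lo
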