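import Pool.Agent.R598.PM.KB
import Pool.Agent.R598.PM.FS
import Pool.Agent.R598.PM.Lo

/-!
# The algebra of the cones modulo finite sets and its automorphisms
-/

set_option autoImplicit false

namespace Pool.Agent.R598.PM.KM

open Pool.Agent.W868 Pool.Agent.W868.PName Pool.Agent.R598.SY Pool.Agent.R598.PM.Lo
open ZFSet (pair)

/-- The index set. -/
abbrev J : Type := Finset ℕ

/-- The set is a union of cones of the level `n`. -/
def Sat (n : ℕ) (S : Set J) : Prop := ∀ x y, R n x y → x ∈ S → y ∈ S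

theorem Sat.mono {n m : ℕ} {S : Set J} (h : Sat n S) (hn : n ≤ m) : Sat m S :=
  fun x y hxy => h x y (hxy.mono hn)

theorem Sat.union {n : ℕ} {S S' : Set J} (h : Sat n S) (h' : Sat n S') : Sat n (S ∪ S') :=
  fun x y hxy hx => hx.imp (h x y hxy) (h' x y hxy)

theorem Sat.inter {n : ℕ} {S S' : Set J} (h : Sat n S) (h' : Sat n S') : Sat n (S ∩ S') :=
  fun x y hxy hx => ⟨h x y hxy hx.1, h' x y hxy hx.2⟩

theorem Sat.compl {n : ℕ} {S : Set J} (h : Sat n S) : Sat n Sᶜ :=
  fun x y hxy hx hy => hx (h y x hxy.symm hy)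

theorem sat_cone (n : ℕ) (x : J) : Sat n (cone n x) := fun _ _ h h' => R.trans h' h

theorem sat_univ (n : ℕ) : Sat n Set.univ := fun _ _ _ _ => trivial

/-- The algebra of the unions of cones, modulo finite sets. -/
def Bs : Set (Set J) := {S | ∃ n S', Sat n S' ∧ Fe S S'}

theorem bs_of_sat {n : ℕ} {S : Set J} (h : Sat n S) : S ∈ Bs := ⟨n, S, h, Fe.refl S⟩

theorem Bs.fe {S S' : Set J} (h : S ∈ Bs) (h' : Fe S' S) : S' ∈ Bs := by
  obtain ⟨n, S'', h1, h2⟩ := h
  exact ⟨n, S'', h1, h'.trans h2⟩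

theorem bs_union {S S' : Set J} (h : S ∈ Bs) (h' : S' ∈ Bs) : S ∪ S' ∈ Bs := by
  obtain ⟨n, R₁, h1, h2⟩ := h
  obtain ⟨m, R₂, h3, h4⟩ := h'
  exact ⟨max n m, R₁ ∪ R₂, (h1.mono (le_max_left _ _)).union (h3.mono (le_max_right _ _)),
    h2.union h4⟩

theorem bs_inter {S S' : Set J} (h : S ∈ Bs) (h' : S' ∈ Bs) : S ∩ S' ∈ Bs := by
  obtain ⟨n, R₁, h1, h2⟩ := h
  obtain ⟨m, R₂, h3, h4⟩ := h'
  exact ⟨max n m, R₁ ∩ R₂, (h1.mono (le_max_left _ _)).inter (h3.mono (le_max_right _ _)),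
    h2.inter h4⟩

theorem Fe.compl {S S' : Set J} (h : Fe S S') : Fe Sᶜ S'ᶜ := by
  constructor
  · exact h.2.subset fun x hx => ⟨not_not.1 hx.2, hx.1⟩
  · exact h.1.subset fun x hx => ⟨not_not.1 hx.2, hx.1⟩

theorem bs_compl {S : Set J} (h : S ∈ Bs) : Sᶜ ∈ Bs := by
  obtain ⟨n, R₁, h1, h2⟩ := h
  exact ⟨n, R₁ᶜ, h1.compl, Fe.compl h2⟩

theorem bs_diff {S S' : Set J} (h : S ∈ Bs) (h' : S' ∈ Bs) : S \ S' ∈ Bs :=
  bs_inter h (bs_compl h')

theorem bs_fin {S : Set J} (h : S.Finite) : S ∈ Bs := by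
  refine ⟨0, ∅, fun _ _ _ h => h, ?_, ?_⟩
  · exact h.subset fun x hx => hx.1
  · exact Set.finite_empty.subset fun x hx => hx.1

theorem Fe.image {I : Type} {S S' : Set I} (h : Fe S S') (τ : Equiv.Perm I) :
    Fe (τ '' S) (τ '' S') := by
  constructor
  · refine (h.1.image τ).subset ?_
    rintro _ ⟨⟨x, hx, rfl⟩, hx'⟩
    exact ⟨x, ⟨hx, fun h1 => hx' ⟨x, h1, rfl⟩⟩, rfl⟩
  · refine (h.2.image τ).subset ?_
    rintro _ ⟨⟨x, hx, rfl⟩, hx'⟩
    exact ⟨x, ⟨hx, fun h1 => hx' ⟨x, h1, rfl⟩⟩, rfl⟩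

/-- The group of the permutations that preserve the algebra. -/
def T : Subgroup (Equiv.Perm J) where
  carrier := {τ | (∀ S ∈ Bs, ⇑τ '' S ∈ Bs) ∧ ∀ S ∈ Bs, ⇑(τ⁻¹) '' S ∈ Bs}
  mul_mem' := by
    rintro τ σ ⟨h1, h2⟩ ⟨h3, h4⟩
    constructor
    · intro S hS
      have h5 : ⇑(τ * σ) '' S = ⇑τ '' (⇑σ '' S) := by
        rw [← Set.image_comp]
        rfl
      rw [h5]
      exact h1 _ (h3 S hS)
    · intro S hS
      have h5 : ⇑((τ * σ)⁻¹) '' S = ⇑(σ⁻¹) '' (⇑(τ⁻¹) '' S) := by
        rw [← Set.image_comp, mul_inv_rev]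
        rfl
      rw [h5]
      exact h4 _ (h2 S hS)
  one_mem' := by
    constructor
    · intro S hS
      change (id : J → J) '' S ∈ Bs
      rwa [Set.image_id]
    · intro S hS
      change (id : J → J) '' S ∈ Bs
      rwa [Set.image_id]
  inv_mem' := by
    rintro τ ⟨h1, h2⟩
    refine ⟨h2, ?_⟩
    rw [inv_inv]
    exact h1

theorem fs_mem {τ : Equiv.Perm J} (h : τ ∈ FS J) : τ ∈ T :=
  ⟨fun _ hS => Bs.fe hS (fe_image h _), fun _ hS => Bs.fe hS (fe_image ((FS J).inv_mem h) _)⟩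

/-- The group of the permutations that preserve the cones of the level `n`. -/
def Hn (n : ℕ) : Subgroup (Equiv.Perm J) where
  carrier := {τ | ∀ x, R n (τ x) x}
  mul_mem' := by
    intro τ σ h h' x
    exact (h (σ x)).trans (h' x)
  one_mem' := fun x => R.refl x
  inv_mem' := by
    intro τ h x
    have h1 := h (τ.symm x)
    rw [Equiv.apply_symm_apply] at h1
    exact h1.symm

theorem Hn.le {n m : ℕ} (h : n ≤ m) : Hn m ≤ Hn n := fun _ hτ x => (hτ x).mono h

theorem R_filter (n : ℕ) (x : J) : R n (x.filter (· < n)) x := fun j hj => by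
  rw [Finset.mem_filter]
  exact ⟨fun h => h.1, fun h => ⟨h, hj⟩⟩

theorem filter_mem (n : ℕ) (x : J) : x.filter (· < n) ∈ (Finset.range n).powerset := by
  rw [Finset.mem_powerset]
  intro j hj
  exact Finset.mem_range.2 (Finset.mem_filter.1 hj).2

theorem filter_eq {n : ℕ} {x y : J} (h : R n x y) : x.filter (· < n) = y.filter (· < n) := by
  ext j
  rw [Finset.mem_filter, Finset.mem_filter]
  constructor
  · exact fun h1 => ⟨(h j h1.2).1 h1.1, h1.2⟩
  · exact fun h1 => ⟨(h j h1.2).2 h1.1, h1.2⟩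

theorem conj_aux {τ : Equiv.Perm J} (hτ : τ ∈ T) (n : ℕ) : ∃ (E : Finset J) (m : ℕ),
    ∀ κ ∈ Hn m, (∀ i ∈ E, κ i = i) → τ⁻¹ * κ * τ ∈ Hn n := by
  classical
  have h1 : ∀ u : J, ∃ m S', Sat m S' ∧ Fe (⇑τ '' cone n u) S' := fun u =>
    hτ.1 _ (bs_of_sat (sat_cone n u))
  choose m S' h1 h2 using h1
  refine ⟨(Finset.range n).powerset.biUnion fun u => (h2 u).1.toFinset ∪ (h2 u).2.toFinset,
    (Finset.range n).powerset.sup m, fun κ hκ hfix x => ?_⟩
  set u := x.filter (· < n) with hu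
  have hu' : u ∈ (Finset.range n).powerset := filter_mem n x
  have hm : m u ≤ (Finset.range n).powerset.sup m := Finset.le_sup hu'
  have hfix' : ∀ i, i ∈ (h2 u).1.toFinset ∪ (h2 u).2.toFinset → κ i = i := fun i hi =>
    hfix i (Finset.mem_biUnion.2 ⟨u, hu', hi⟩)
  have h3 : ∀ y ∈ ⇑τ '' cone n u, κ y ∈ ⇑τ '' cone n u := by
    intro y hy
    by_cases hyS : y ∈ S' u
    · have h4 : κ y ∈ S' u := h1 u y (κ y) ((hκ y).mono hm).symm hyS
      by_contra hc
      have h5 := hfix' (κ y) (Finset.mem_union_right _ ((h2 u).2.mem_toFinset.2 ⟨h4, hc⟩))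
      rw [κ.injective h5] at hc
      exact hc hy
    · rw [hfix' y (Finset.mem_union_left _ ((h2 u).1.mem_toFinset.2 ⟨hy, hyS⟩))]
      exact hy
  obtain ⟨w, hw, hwx⟩ := h3 (τ x) ⟨x, R_filter n x, rfl⟩
  change R n (τ.symm (κ (τ x))) x
  rw [← hwx, Equiv.symm_apply_apply]
  exact (R.symm hw).trans (R_filter n x)

/-- The permutation model. -/
noncomputable def D₀ : PD J where
  T := T
  Φ := Set.range Hn
  ne := ⟨_, 0, rfl⟩
  conj := by
    rintro _ ⟨n, rfl⟩ τ hτ
    obtain ⟨E, m, h⟩ := conj_aux hτ n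
    exact ⟨E, Hn m, ⟨m, rfl⟩, fun κ _ => h κ⟩
  dir := by
    rintro _ ⟨n, rfl⟩ _ ⟨m, rfl⟩
    exact ⟨_, ⟨max n m, rfl⟩, Hn.le (le_max_left _ _), Hn.le (le_max_right _ _)⟩

theorem swap_Hn {n : ℕ} {x y : J} (h : R n x y) : Equiv.swap x y ∈ Hn n := by
  intro z
  by_cases h1 : z = x
  · rw [h1, Equiv.swap_apply_left]
    exact h.symm
  · by_cases h2 : z = y
    · rw [h2, Equiv.swap_apply_right]
      exact h
    · rw [Equiv.swap_apply_of_ne_of_ne h1 h2]
      exact R.refl z

theorem of_D₀ : OF D₀ := by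
  classical
  rintro E _ ⟨n, rfl⟩
  refine ⟨J ⊕ J, fun x => if x ∈ E then Sum.inl x else Sum.inr (x.filter (· < n)), ?_, ?_⟩
  · refine ((E.finite_toSet.image Sum.inl).union
      (((Finset.range n).powerset.finite_toSet).image Sum.inr)).subset ?_
    rintro _ ⟨x, rfl⟩
    by_cases hx : x ∈ E
    · simp only [if_pos hx]
      exact Or.inl ⟨x, Finset.mem_coe.2 hx, rfl⟩
    · simp only [if_neg hx]
      exact Or.inr ⟨_, Finset.mem_coe.2 (filter_mem n x), rfl⟩
  · intro x y h
    by_cases hx : x ∈ E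
    · by_cases hy : y ∈ E
      · simp only [if_pos hx, if_pos hy, Sum.inl.injEq] at h
        exact ⟨1, T.one_mem, (Hn n).one_mem, fun _ _ => rfl, h⟩
      · simp only [if_pos hx, if_neg hy] at h
        cases h
    · by_cases hy : y ∈ E
      · simp only [if_neg hx, if_pos hy] at h
        cases h
      · simp only [if_neg hx, if_neg hy, Sum.inr.injEq] at h
        have hR : R n x y := by
          have h1 := R_filter n x
          rw [h] at h1
          exact h1.symm.trans (R_filter n y)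
        refine ⟨Equiv.swap x y, fs_mem (swap_mem_FS x y), swap_Hn hR, fun e he => ?_,
          Equiv.swap_apply_left _ _⟩
        refine Equiv.swap_apply_of_ne_of_ne ?_ ?_
        · rintro rfl
          exact hx he
        · rintro rfl
          exact hy he

theorem ctb_D₀ : D₀.Φ.Countable := Set.countable_range _

theorem dfb_bs {S : Set J} (h : S ∈ Dfb D₀) : S ∈ Bs := by
  classical
  obtain ⟨E, _, ⟨n, rfl⟩, hS⟩ := h
  have h1 : ∀ x y : J, x ∉ E → y ∉ E → R n x y → x ∈ S → y ∈ S := by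
    intro x y hx hy hxy hxS
    have h1 := hS (Equiv.swap x y) (fs_mem (swap_mem_FS x y)) (swap_Hn hxy) (fun e he => by
        refine Equiv.swap_apply_of_ne_of_ne ?_ ?_
        · rintro rfl
          exact hx he
        · rintro rfl
          exact hy he) x hxS
    rwa [Equiv.swap_apply_left] at h1
  refine ⟨n, {x | ∃ y, y ∉ E ∧ R n y x ∧ y ∈ S}, ?_, ?_, ?_⟩
  · rintro x x' hx ⟨y, hy, hyx, hyS⟩
    exact ⟨y, hy, hyx.trans hx, hyS⟩
  · refine E.finite_toSet.subset fun x hx => ?_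
    by_contra hc
    exact hx.2 ⟨x, hc, R.refl x, hx.1⟩
  · refine E.finite_toSet.subset fun x hx => ?_
    by_contra hc
    obtain ⟨⟨y, hy, hyx, hyS⟩, hx⟩ := hx
    exact hx (h1 y x hy hc hyx hyS)

theorem bs_dfb {S : Set J} (h : S ∈ Bs) : S ∈ Dfb D₀ := by
  obtain ⟨n, S', h1, h2⟩ := h
  exact dfb_mod (D := D₀) ⟨∅, _, ⟨n, rfl⟩, fun τ _ h3 _ x hx => h1 x (τ x) (h3 x).symm hx⟩
    h2.2 h2.1

/-! ### The additional forcing -/

/-- The conditions for the points of the additional space. -/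
structure Kc : Type where
  /-- the sets -/
  c : ℕ → Set J
  mem : ∀ m, c m ∈ Bs
  inf : ∀ m, (c m).Infinite
  fin : {m | c m ≠ Set.univ}.Finite

theorem Kc.ext' {p q : Kc} (h : p.c = q.c) : p = q := by
  cases p
  cases q
  congr

instance : Preorder Kc where
  le p q := ∀ m, (p.c m \ q.c m).Finite
  le_refl p m := by
    rw [Set.sdiff_self]
    exact Set.finite_empty
  le_trans p q r h h' m := diff_fin (h m) (h' m)

instance : OrderTop Kc where
  top := ⟨fun _ => Set.univ, fun _ => bs_of_sat (sat_univ 0), fun _ => Set.infinite_univ, by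
    refine Set.finite_empty.subset fun m hm => hm rfl⟩
  le_top p m := Set.finite_empty.subset fun x hx => hx.2 trivial

theorem Kc.le_def {p q : Kc} : p ≤ q ↔ ∀ m, (p.c m \ q.c m).Finite := Iff.rfl

theorem Kc.top_c (m : ℕ) : (⊤ : Kc).c m = Set.univ := rfl

/-- The action on the conditions. -/
def kmv (τ : T) (q : Kc) : Kc where
  c m := ⇑τ.1 '' q.c m
  mem m := τ.2.1 _ (q.mem m)
  inf m := (q.inf m).image τ.1.injective.injOn
  fin := by
    refine q.fin.subset fun m hm h => hm ?_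
    rw [h, Set.image_univ, Equiv.range_eq_univ]

theorem kmv_one (q : Kc) : kmv 1 q = q := by
  refine Kc.ext' (funext fun m => ?_)
  change (id : J → J) '' q.c m = q.c m
  rw [Set.image_id]

theorem kmv_mul (τ σ : T) (q : Kc) : kmv (τ * σ) q = kmv τ (kmv σ q) := by
  refine Kc.ext' (funext fun m => ?_)
  change ⇑(τ.1 * σ.1) '' q.c m = ⇑τ.1 '' (⇑σ.1 '' q.c m)
  rw [← Set.image_comp]
  rfl

theorem image_diff_fin {τ : Equiv.Perm J} {A B : Set J} :
    (⇑τ '' A \ ⇑τ '' B).Finite ↔ (A \ B).Finite := by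
  rw [← Set.image_sdiff τ.injective]
  exact Set.finite_image_iff τ.injective.injOn

/-- The action. -/
def kac : T →* (Kc ≃o Kc) where
  toFun τ :=
    { toFun := kmv τ
      invFun := kmv τ⁻¹
      left_inv := by
        intro q
        rw [← kmv_mul, inv_mul_cancel, kmv_one]
      right_inv := by
        intro q
        rw [← kmv_mul, mul_inv_cancel, kmv_one]
      map_rel_iff' := by
        intro p q
        exact forall_congr' fun m => image_diff_fin }
  map_one' := by
    apply RelIso.ext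
    exact kmv_one
  map_mul' := by
    intro τ σ
    apply RelIso.ext
    exact kmv_mul τ σ

/-- The permutation model with the additional forcing. -/
noncomputable def D : PQ J Kc where
  toPD := D₀
  aq := kac
  aqtop := by
    intro τ
    refine Kc.ext' (funext fun m => ?_)
    change ⇑τ.1 '' Set.univ = Set.univ
    rw [Set.image_univ, Equiv.range_eq_univ]

/-! ### Swapping two cones -/

/-- The points of two cones of the level `n` that are not in the set `E` and whose images are not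
in the set `E`. -/
def Ps (n : ℕ) (u v : J) (E : Finset J) (z : J) : Prop :=
  (R n u z ∨ R n v z) ∧ z ∉ E ∧ symmDiff z (symmDiff (u.filter (· < n)) (v.filter (· < n))) ∉ E

theorem mem_d {n : ℕ} {u v : J} {j : ℕ} :
    j ∈ symmDiff (u.filter (· < n)) (v.filter (· < n)) ↔ j < n ∧ ¬ (j ∈ u ↔ j ∈ v) := by
  rw [mem_sd, Finset.mem_filter, Finset.mem_filter]
  tauto

theorem sd_sd (z d : J) : symmDiff (symmDiff z d) d = z := by
  ext j
  rw [mem_sd, mem_sd]
  tauto

theorem R_left {n : ℕ} {u v z : J} (h : R n u z) :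
    R n v (symmDiff z (symmDiff (u.filter (· < n)) (v.filter (· < n)))) := by
  intro j hj
  have h1 := h j hj
  rw [mem_sd, mem_d]
  tauto

theorem R_right {n : ℕ} {u v z : J} (h : R n v z) :
    R n u (symmDiff z (symmDiff (u.filter (· < n)) (v.filter (· < n)))) := by
  intro j hj
  have h1 := h j hj
  rw [mem_sd, mem_d]
  tauto

theorem ps_iff {n : ℕ} {u v : J} {E : Finset J} {z : J} (h : Ps n u v E z) :
    Ps n u v E (symmDiff z (symmDiff (u.filter (· < n)) (v.filter (· < n)))) := by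
  obtain ⟨h1, h2, h3⟩ := h
  refine ⟨?_, h3, ?_⟩
  · rcases h1 with h1 | h1
    · exact Or.inr (R_left h1)
    · exact Or.inl (R_right h1)
  · rw [sd_sd]
    exact h2

open Classical in
/-- The swap of two cones. -/
noncomputable def cs (n : ℕ) (u v : J) (E : Finset J) : Equiv.Perm J where
  toFun z := if Ps n u v E z then symmDiff z (symmDiff (u.filter (· < n)) (v.filter (· < n)))
    else z
  invFun z := if Ps n u v E z then symmDiff z (symmDiff (u.filter (· < n)) (v.filter (· < n)))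
    else z
  left_inv := by
    intro z
    by_cases h : Ps n u v E z
    · simp only [if_pos h, if_pos (ps_iff h), sd_sd]
    · simp only [if_neg h]
  right_inv := by
    intro z
    by_cases h : Ps n u v E z
    · simp only [if_pos h, if_pos (ps_iff h), sd_sd]
    · simp only [if_neg h]

theorem cs_pos {n : ℕ} {u v : J} {E : Finset J} {z : J} (h : Ps n u v E z) :
    cs n u v E z = symmDiff z (symmDiff (u.filter (· < n)) (v.filter (· < n))) := if_pos h

theorem cs_neg {n : ℕ} {u v : J} {E : Finset J} {z : J} (h : ¬ Ps n u v E z) :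
    cs n u v E z = z := if_neg h

theorem cs_fix {n : ℕ} {u v : J} {E : Finset J} {z : J} (h : z ∈ E) : cs n u v E z = z :=
  cs_neg fun h1 => h1.2.1 h

theorem cs_out {n : ℕ} {u v : J} {E : Finset J} {z : J} (h : ¬ R n u z) (h' : ¬ R n v z) :
    cs n u v E z = z :=
  cs_neg fun h1 => h1.1.elim h h'

theorem cs_inv (n : ℕ) (u v : J) (E : Finset J) : (cs n u v E)⁻¹ = cs n u v E := rfl

theorem cs_Hn {n k : ℕ} {u v : J} {E : Finset J} (h : R k u v) :
    cs n u v E ∈ Hn k := by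
  intro z
  by_cases hz : Ps n u v E z
  · rw [cs_pos hz]
    intro j hj
    have h1 := h j hj
    rw [mem_sd, mem_d]
    tauto
  · rw [cs_neg hz]
    exact R.refl z

/-- The exceptional set. -/
theorem exc_fin (n : ℕ) (u v : J) (E : Finset J) :
    {z | z ∈ E ∨ symmDiff z (symmDiff (u.filter (· < n)) (v.filter (· < n))) ∈ E}.Finite := by
  classical
  refine (E.finite_toSet.union (E.image fun z => symmDiff z
    (symmDiff (u.filter (· < n)) (v.filter (· < n)))).finite_toSet).subset fun z hz => ?_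
  rcases hz with hz | hz
  · exact Or.inl (Finset.mem_coe.2 hz)
  · refine Or.inr (Finset.mem_coe.2 (Finset.mem_image.2 ⟨_, hz, sd_sd _ _⟩))

/-- The image of a set that is saturated at a higher level. -/
theorem cs_sat {n m : ℕ} {u v : J} {E : Finset J} {S : Set J} (hS : Sat m S) (hn : n ≤ m) :
    ∃ S', Sat m S' ∧ Fe (⇑(cs n u v E) '' S) S' := by
  have h0 : ∀ z, z ∈ ⇑(cs n u v E) '' S ↔ cs n u v E z ∈ S := by
    intro z
    constructor
    · rintro ⟨y, hy, rfl⟩
      have h1 : cs n u v E (cs n u v E y) = y := (cs n u v E).symm_apply_apply y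
      rwa [h1]
    · intro h
      exact ⟨_, h, (cs n u v E).symm_apply_apply z⟩
  refine ⟨{z | (¬ (R n u z ∨ R n v z) ∧ z ∈ S) ∨ ((R n u z ∨ R n v z) ∧
    symmDiff z (symmDiff (u.filter (· < n)) (v.filter (· < n))) ∈ S)}, ?_, ?_, ?_⟩
  · intro x y hxy hx
    have h1 : (R n u x ∨ R n v x) ↔ (R n u y ∨ R n v y) := by
      have h2 := hxy.mono hn
      constructor
      · rintro (h | h)
        · exact Or.inl (h.trans h2)
        · exact Or.inr (h.trans h2)
      · rintro (h | h)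
        · exact Or.inl (h.trans h2.symm)
        · exact Or.inr (h.trans h2.symm)
    rcases hx with ⟨h2, h3⟩ | ⟨h2, h3⟩
    · exact Or.inl ⟨fun h => h2 (h1.2 h), hS x y hxy h3⟩
    · refine Or.inr ⟨h1.1 h2, hS _ _ ?_ h3⟩
      intro j hj
      have h4 := hxy j hj
      rw [mem_sd (y := x), mem_sd (y := y)]
      tauto
  · refine (exc_fin n u v E).subset fun z hz => ?_
    by_contra hc
    rw [Set.mem_ofPred_eq, not_or] at hc
    apply hz.2
    by_cases h1 : R n u z ∨ R n v z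
    · refine Or.inr ⟨h1, ?_⟩
      have h2 := (h0 z).1 hz.1
      rwa [cs_pos ⟨h1, hc.1, hc.2⟩] at h2
    · refine Or.inl ⟨h1, ?_⟩
      have h2 := (h0 z).1 hz.1
      rwa [cs_neg fun h => h1 h.1] at h2
  · refine (exc_fin n u v E).subset fun z hz => ?_
    by_contra hc
    rw [Set.mem_ofPred_eq, not_or] at hc
    apply hz.2
    rw [h0]
    rcases hz.1 with ⟨h1, h2⟩ | ⟨h1, h2⟩
    · rwa [cs_neg fun h => h1 h.1]
    · rwa [cs_pos ⟨h1, hc.1, hc.2⟩]

theorem cs_mem (n : ℕ) (u v : J) (E : Finset J) : cs n u v E ∈ T := by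
  have h1 : ∀ S ∈ Bs, ⇑(cs n u v E) '' S ∈ Bs := by
    rintro S ⟨m, S', hS', hSS'⟩
    obtain ⟨S'', h1, h2⟩ := cs_sat (u := u) (v := v) (E := E) (hS'.mono (le_max_right n m))
      (le_max_left n m)
    exact ⟨_, S'', h1, (Fe.image hSS' _).trans h2⟩
  exact ⟨h1, h1⟩

/-- The image of the first cone contains the second cone, up to a finite set. -/
theorem cs_cone (n : ℕ) (u v : J) (E : Finset J) :
    (cone n v \ ⇑(cs n u v E) '' cone n u).Finite := by
  refine (exc_fin n u v E).subset fun z hz => ?_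
  by_contra hc
  rw [Set.mem_ofPred_eq, not_or] at hc
  have h1 : Ps n u v E z := ⟨Or.inr hz.1, hc.1, hc.2⟩
  apply hz.2
  refine ⟨_, ?_, (cs n u v E).symm_apply_apply z⟩
  change R n u (cs n u v E z)
  rw [cs_pos h1]
  exact R_right hz.1

end Pool.Agent.R598.PM.KM
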