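import Pool.Agent.R598.PM.TopDefs

/-!
# Compactifications and remainders in a transitive model of ZF: definitions
-/

set_option autoImplicit false

namespace Pool.Agent.R598.PM

open Pool.Agent.W868
open ZFSet (pair)

/-- In the model `M`, the space `(X, τ)` with the function `h : D → X` is a Hausdorff
compactification of the space `(D, σ)`: the space `(X, τ)` is compact and Hausdorff, and `h` is a
homeomorphic embedding with a dense image. -/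
def IsCptn (M : Set ZFSet.{0}) (D σ X τ h : ZFSet.{0}) : Prop :=
  IsTop M X τ ∧ IsComp M X τ ∧ IsHaus X τ ∧ IsInj D X h ∧
    (∀ S ∈ M, S ⊆ D → (S ∈ σ ↔ ∃ O ∈ τ, ∀ d x, pair d x ∈ h → (x ∈ O ↔ d ∈ S))) ∧
    ∀ O ∈ τ, O ≠ ∅ → ∃ d x, pair d x ∈ h ∧ x ∈ O

/-- The set `X \ h[D]`. -/
def rem (X h : ZFSet.{0}) : ZFSet.{0} := ZFSet.sep (fun x => ¬ ∃ d, pair d x ∈ h) X

/-- In the model `M`, the space `(D, σ)` has a denumerable remainder. -/
def DenRem (M : Set ZFSet.{0}) (D σ : ZFSet.{0}) : Prop :=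
  ∃ X ∈ M, ∃ τ ∈ M, ∃ h ∈ M, IsCptn M D σ X τ h ∧ ∃ f ∈ M, IsBij (rem X h) ZFSet.omega f

/-- In the model `M`, the one-point compactification `ω ∪ {ω}` of the discrete space `ω` is a
remainder of the space `(D, σ)`: for some compactification there is a homeomorphism `f` from the
remainder to `ω ∪ {ω}`. -/
def NInfRem (M : Set ZFSet.{0}) (D σ : ZFSet.{0}) : Prop :=
  ∃ X ∈ M, ∃ τ ∈ M, ∃ h ∈ M, IsCptn M D σ X τ h ∧
    ∃ f ∈ M, IsBij (rem X h) (insert ZFSet.omega ZFSet.omega) f ∧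
      ∀ S ∈ M, S ⊆ insert ZFSet.omega ZFSet.omega →
        ((ZFSet.omega ∈ S → FinIn M (ZFSet.omega \ S)) ↔
          ∃ O ∈ τ, ∀ x y, pair x y ∈ f → (x ∈ O ↔ y ∈ S))

/-- In the model `M`, the space `(X, τ)` is locally compact: each point has a compact
neighbourhood. -/
def LocComp (M : Set ZFSet.{0}) (X τ : ZFSet.{0}) : Prop :=
  ∀ x ∈ X, ∃ K ∈ M, K ⊆ X ∧ (∃ U ∈ τ, x ∈ U ∧ U ⊆ K) ∧
    ∀ C ∈ M, C ⊆ τ → K ⊆ ZFSet.sUnion C → ∃ F ∈ M, F ⊆ C ∧ FinIn M F ∧ K ⊆ ZFSet.sUnion F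

end Pool.Agent.R598.PM
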