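import Pool.Agent.R598.PM.KT
import Pool.Agent.R598.PM.TopDefs2

/-!
# A crowded denumerable compact Hausdorff space: the model
-/

set_option autoImplicit false

namespace Pool.Agent.R598.PM.KM

open Pool.Agent.W868 Pool.Agent.W868.PName Pool.Agent.R598.SY Pool.Agent.R598.PM.Lo
open Pool.Agent.R598.PM.K
open ZFSet (pair)

/-- The conditions. -/
abbrev P : Type := Cd J × Kc

/-- The name for the basic open set `S`. -/
noncomputable def oN (S : Set J) : PName P :=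
  PName.mk ({i // i ∈ S} ⊕ {t : ℕ × Kc // (t.2.c t.1 \ S).Finite})
    (Sum.elim (fun i => K.bN i.1) fun t => check (nat t.1.1))
    (Sum.elim (fun _ => ⊤) fun t => (⊤, t.1.2))

theorem el_oN {S : Set J} {z : PName P} {c : P} : El (oN S) z c ↔
    (∃ i ∈ S, z = K.bN i ∧ c = ⊤) ∨
      ∃ (m : ℕ) (q : Kc), (q.c m \ S).Finite ∧ z = check (nat m) ∧ c = (⊤, q) := by
  rw [oN, el_mk]
  constructor
  · rintro ⟨⟨i, hi⟩ | ⟨⟨m, q⟩, h⟩, rfl, rfl⟩
    · exact Or.inl ⟨i, hi, rfl, rfl⟩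
    · exact Or.inr ⟨m, q, h, rfl, rfl⟩
  · rintro (⟨i, hi, rfl, rfl⟩ | ⟨m, q, h, rfl, rfl⟩)
    · exact ⟨Sum.inl ⟨i, hi⟩, rfl, rfl⟩
    · exact ⟨Sum.inr ⟨(m, q), h⟩, rfl, rfl⟩

theorem act_oN {ρ : (K.sys D).G} {τ : T} (h : Bl ρ.1 τ.1) (S : Set J) (p : P) :
    Feq (act ((K.sys D).ac ρ) (oN S)) (oN (⇑τ.1 '' S)) p := by
  have hc : ∀ q : Kc, (K.sys D).ac ρ (⊤, q) = (⊤, kmv τ q) := by
    intro q
    refine Prod.ext ((PM.sys D₀).top ρ) ?_
    change D.aq (blk D ρ) q = kmv τ q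
    rw [blk_eq D (τ := τ) h]
    rfl
  rw [feq_iff']
  constructor
  · intro a c ha q hq hqc
    obtain ⟨z, d, hz, rfl, rfl⟩ := el_act.1 ha
    rcases el_oN.1 hz with ⟨i, hi, rfl, rfl⟩ | ⟨m, q', hq', rfl, rfl⟩
    · exact ⟨q, le_rfl, _, ⊤, el_oN.2 (Or.inl ⟨_, Set.mem_image_of_mem _ hi, rfl, rfl⟩), le_top,
        K.act_bN h i q⟩
    · refine ⟨q, le_rfl, _, _, el_oN.2 (Or.inr ⟨m, kmv τ q', image_diff_fin.2 hq', rfl, rfl⟩),
        ?_, ?_⟩
      · rwa [hc] at hqc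
      · rw [act_check ((K.sys D).top ρ)]
        exact Feq.refl _ _
  · intro a c ha q hq hqc
    rcases el_oN.1 ha with ⟨_, ⟨i, hi, rfl⟩, rfl, rfl⟩ | ⟨m, q', hq', rfl, rfl⟩
    · exact ⟨q, le_rfl, _, ⊤, el_act.2 ⟨_, ⊤, el_oN.2 (Or.inl ⟨i, hi, rfl, rfl⟩), rfl,
        ((K.sys D).top ρ).symm⟩, le_top, K.act_bN h i q⟩
    · have h1 : kmv τ (kmv τ⁻¹ q') = q' := by
        rw [← kmv_mul, mul_inv_cancel, kmv_one]
      refine ⟨q, le_rfl, _, _, el_act.2 ⟨_, (⊤, kmv τ⁻¹ q'), el_oN.2 (Or.inr ⟨m, kmv τ⁻¹ q', ?_,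
        rfl, rfl⟩), rfl, rfl⟩, ?_, ?_⟩
      · have h2 := (image_diff_fin (τ := τ.1) (A := (kmv τ⁻¹ q').c m) (B := S)).1
        refine h2 ?_
        have h3 : ⇑τ.1 '' (kmv τ⁻¹ q').c m = q'.c m := congrArg (fun q => q.c m) h1
        rwa [h3]
      · rwa [hc, h1]
      · rw [act_check ((K.sys D).top ρ)]
        exact Feq.refl _ _

theorem hs_oN {S : Set J} (h : S ∈ Bs) : (K.sys D).HS (oN S) := by
  classical
  obtain ⟨E, H, hH, h⟩ := bs_dfb h
  refine (K.sys D).hs_iff.2 ⟨⟨_, ⟨E.image fun i => (i, 0), H, hH, rfl⟩, ?_⟩, fun z c hz => ?_⟩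
  · rintro ρ ⟨hρ, τ, hτT, hτH, hτ⟩ p
    have h2 := act_oN (τ := ⟨τ, hτT⟩) hτ S p
    have h3 : ⇑τ '' S = S := h.image hτT hτH fun i hi => by
      have h1 := hτ (i, 0)
      rw [hρ _ (Finset.mem_image_of_mem _ hi)] at h1
      exact h1.symm
    rwa [h3] at h2
  · rcases el_oN.1 hz with ⟨i, hi, rfl, rfl⟩ | ⟨m, q', hq', rfl, rfl⟩
    · exact K.hs_bN _
    · exact (K.sys D).hs_check _

/-- The name for the set of the basic open sets. -/
noncomputable def wN : PName P := PName.mk {S // S ∈ Bs} (fun S => oN S.1) (fun _ => ⊤)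

theorem el_wN {z : PName P} {c : P} : El wN z c ↔ ∃ S ∈ Bs, z = oN S ∧ c = ⊤ := by
  rw [wN, el_mk]
  constructor
  · rintro ⟨⟨i, hi⟩, rfl, rfl⟩
    exact ⟨i, hi, rfl, rfl⟩
  · rintro ⟨i, hi, rfl, rfl⟩
    exact ⟨⟨i, hi⟩, rfl, rfl⟩

theorem hs_wN : (K.sys D).HS wN := by
  refine (K.sys D).hs_iff.2 ⟨⟨_, ⟨∅, Hn 0, ⟨0, rfl⟩, rfl⟩, ?_⟩, fun z c hz => ?_⟩
  · rintro ρ - p
    obtain ⟨τ, hτT, hτ⟩ := ρ.2
    rw [feq_iff']
    constructor
    · intro a c ha q hq hqc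
      obtain ⟨z, d, hz, rfl, rfl⟩ := el_act.1 ha
      obtain ⟨S, hS, rfl, rfl⟩ := el_wN.1 hz
      exact ⟨q, le_rfl, _, ⊤, el_wN.2 ⟨_, hτT.1 S hS, rfl, rfl⟩, le_top,
        act_oN (τ := ⟨τ, hτT⟩) hτ S q⟩
    · intro a c ha q hq hqc
      obtain ⟨S, hS, rfl, rfl⟩ := el_wN.1 ha
      refine ⟨q, le_rfl, _, ⊤, el_act.2 ⟨_, ⊤, el_wN.2 ⟨_, hτT.2 S hS, rfl, rfl⟩, rfl,
        ((K.sys D).top ρ).symm⟩, le_top, ?_⟩
      have h1 := act_oN (τ := ⟨τ, hτT⟩) hτ (⇑(τ⁻¹ : Equiv.Perm J) '' S) q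
      change Feq _ (oN (⇑τ '' (⇑(τ⁻¹ : Equiv.Perm J) '' S))) q at h1
      rwa [← Set.image_comp, show ⇑τ ∘ ⇑(τ⁻¹ : Equiv.Perm J) = id from
        funext fun i => Equiv.apply_symm_apply τ i, Set.image_id] at h1
  · obtain ⟨S, hS, rfl, rfl⟩ := el_wN.1 hz
    exact hs_oN hS

/-! ### Extending the conditions -/

open Classical in
/-- The condition with a smaller set at `m`. -/
noncomputable def upd (q : Kc) (m : ℕ) (S : Set J) (hS : S ∈ Bs) (h : (q.c m ∩ S).Infinite) :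
    Kc where
  c k := if k = m then q.c m ∩ S else q.c k
  mem k := by
    by_cases hk : k = m
    · simp only [if_pos hk]
      exact bs_inter (q.mem m) hS
    · simp only [if_neg hk]
      exact q.mem k
  inf k := by
    by_cases hk : k = m
    · simp only [if_pos hk]
      exact h
    · simp only [if_neg hk]
      exact q.inf k
  fin := by
    refine (q.fin.insert m).subset fun k hk => ?_
    by_cases hkm : k = m
    · exact Or.inl hkm
    · refine Or.inr ?_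
      change (if k = m then q.c m ∩ S else q.c k) ≠ Set.univ at hk
      rwa [if_neg hkm] at hk

theorem upd_same {q : Kc} {m : ℕ} {S : Set J} {hS : S ∈ Bs} {h : (q.c m ∩ S).Infinite} :
    (upd q m S hS h).c m = q.c m ∩ S := if_pos rfl

theorem upd_ne {q : Kc} {m k : ℕ} {S : Set J} {hS : S ∈ Bs} {h : (q.c m ∩ S).Infinite}
    (hk : k ≠ m) : (upd q m S hS h).c k = q.c k := if_neg hk

theorem upd_le {q : Kc} {m : ℕ} {S : Set J} (hS : S ∈ Bs) (h : (q.c m ∩ S).Infinite) :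
    upd q m S hS h ≤ q := by
  intro k
  by_cases hk : k = m
  · subst hk
    rw [upd_same]
    exact Set.finite_empty.subset fun x hx => hx.2 hx.1.1
  · rw [upd_ne hk, Set.sdiff_self]
    exact Set.finite_empty

theorem cone_inf (n : ℕ) (x : J) : (cone n x).Infinite := by
  refine Set.infinite_of_injective_forall_mem (f := fun j : ℕ => x.filter (· < n) ∪ {n + j}) ?_ ?_
  · intro j j' hj
    have h5 : n + j ∈ x.filter (· < n) ∪ {n + j'} := by
      rw [← show x.filter (· < n) ∪ {n + j} = x.filter (· < n) ∪ {n + j'} from hj]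
      exact Finset.mem_union_right _ (Finset.mem_singleton_self _)
    rw [Finset.mem_union, Finset.mem_filter, Finset.mem_singleton] at h5
    omega
  · intro j i hi
    rw [Finset.mem_union, Finset.mem_filter, Finset.mem_singleton]
    constructor
    · exact fun h => Or.inl ⟨h, hi⟩
    · rintro (h | h)
      · exact h.1
      · omega

/-- The dense sets. -/
def A₁ (m n : ℕ) : Set P := {p | ∃ x, (p.2.c m \ cone n x).Finite}

/-- The dense sets. -/
def A₂ (m m' : ℕ) : Set P :=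
  {p | ∃ n x y, ¬ R n x y ∧ (p.2.c m \ cone n x).Finite ∧ (p.2.c m' \ cone n y).Finite}

/-- The dense sets. -/
def A₃ (n : ℕ) (x : J) : Set P := {p | ∃ m, (p.2.c m \ cone n x).Finite}

theorem dense₁ (m n : ℕ) (p : P) : ∃ q ≤ p, q ∈ A₁ m n := by
  obtain ⟨x, hx⟩ : ∃ x, (p.2.c m ∩ cone n x).Infinite := by
    by_contra hc
    push Not at hc
    refine p.2.inf m ((((Finset.range n).powerset.finite_toSet).biUnion fun u _ =>
      Set.not_infinite.1 (Set.not_infinite.2 (hc u))).subset fun x hx => ?_)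
    exact Set.mem_iUnion₂.2 ⟨_, Finset.mem_coe.2 (filter_mem n x), hx, R_filter n x⟩
  refine ⟨(p.1, upd p.2 m (cone n x) (bs_of_sat (sat_cone n x)) hx),
    ⟨le_rfl, upd_le (bs_of_sat (sat_cone n x)) hx⟩, x, ?_⟩
  rw [upd_same]
  exact Set.finite_empty.subset fun y hy => hy.2 hy.1.2

theorem dense₃ (n : ℕ) (x : J) (p : P) : ∃ q ≤ p, q ∈ A₃ n x := by
  obtain ⟨m, hm⟩ := p.2.fin.exists_notMem
  have hm' : p.2.c m = Set.univ := by
    by_contra hc
    exact hm hc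
  have h1 : (p.2.c m ∩ cone n x).Infinite := by
    rw [hm', Set.univ_inter]
    exact cone_inf n x
  refine ⟨(p.1, upd p.2 m (cone n x) (bs_of_sat (sat_cone n x)) h1),
    ⟨le_rfl, upd_le (bs_of_sat (sat_cone n x)) h1⟩, m, ?_⟩
  rw [upd_same]
  exact Set.finite_empty.subset fun y hy => hy.2 hy.1.2

theorem fe_inter_inf {S S' C : Set J} (h : Fe S S') (hC : C ⊆ S') (hC' : C.Infinite) :
    (S ∩ C).Infinite := by
  intro hf
  refine hC' ((hf.union h.2).subset fun x hx => ?_)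
  by_cases hx' : x ∈ S
  · exact Or.inl ⟨hx', hx⟩
  · exact Or.inr ⟨hC hx, hx'⟩

theorem dense₂ {m m' : ℕ} (hm : m ≠ m') (p : P) : ∃ q ≤ p, q ∈ A₂ m m' := by
  obtain ⟨n₁, S₁, h1, h2⟩ := p.2.mem m
  obtain ⟨n₂, S₂, h3, h4⟩ := p.2.mem m'
  obtain ⟨a, ha⟩ := (h2.inf (p.2.inf m)).nonempty
  obtain ⟨b, hb⟩ := (h4.inf (p.2.inf m')).nonempty
  set n := max n₁ n₂ with hn
  have h1' := h1.mono (le_max_left n₁ n₂)
  have h3' := h3.mono (le_max_right n₁ n₂)
  set x := a.filter (· < n)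
  set y := b.filter (· < n) ∪ {n}
  have hx : R n a x := (R_filter n a).symm
  have hy : R n b y := by
    intro j hj
    rw [Finset.mem_union, Finset.mem_filter, Finset.mem_singleton]
    constructor
    · exact fun h => Or.inl ⟨h, hj⟩
    · rintro (h | h)
      · exact h.1
      · omega
  have hxy : ¬ R (n + 1) x y := by
    intro h
    have h5 := (h n (Nat.lt_succ_self n)).2
      (Finset.mem_union_right _ (Finset.mem_singleton_self n))
    rw [Finset.mem_filter] at h5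
    exact absurd h5.2 (lt_irrefl n)
  have hcx : cone (n + 1) x ⊆ S₁ := fun z hz => h1' a z (hx.trans (R.mono hz (Nat.le_succ n))) ha
  have hcy : cone (n + 1) y ⊆ S₂ := fun z hz => h3' b z (hy.trans (R.mono hz (Nat.le_succ n))) hb
  have h5 : (p.2.c m ∩ cone (n + 1) x).Infinite := fe_inter_inf h2 hcx (cone_inf _ _)
  set q₁ := upd p.2 m (cone (n + 1) x) (bs_of_sat (sat_cone _ _)) h5 with hq₁
  have h6 : q₁.c m' = p.2.c m' := upd_ne hm.symm
  have h7 : (q₁.c m' ∩ cone (n + 1) y).Infinite := by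
    rw [h6]
    exact fe_inter_inf h4 hcy (cone_inf _ _)
  refine ⟨(p.1, upd q₁ m' (cone (n + 1) y) (bs_of_sat (sat_cone _ _)) h7),
    ⟨le_rfl, (upd_le (bs_of_sat (sat_cone _ _)) h7).trans
      (upd_le (bs_of_sat (sat_cone _ _)) h5)⟩, n + 1, x, y, hxy, ?_, ?_⟩
  · rw [upd_ne hm, upd_same]
    exact Set.finite_empty.subset fun y hy => hy.2 hy.1.2
  · rw [upd_same]
    exact Set.finite_empty.subset fun y hy => hy.2 hy.1.2

/-! ### The generic points -/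

/-- The set `S` is in the ultrafilter of the point `m`. -/
def Im (π : Pkg P) (m : ℕ) (S : Set J) : Prop := ∃ k, ((π.g k).2.c m \ S).Finite

/-- The package contains the basic names. -/
structure Gk (π : Pkg P) : Prop where
  x : ∀ a : J × ℕ, K.xN a ∈ π.N
  b : ∀ i : J, K.bN i ∈ π.N
  s : ∀ S ∈ Bs, K.sN S ∈ π.N
  o : ∀ S ∈ Bs, oN S ∈ π.N
  w : wN ∈ π.N
  a₁ : ∀ m n, Sys.nm P (A₁ m n) ∈ π.N
  a₂ : ∀ m m', Sys.nm P (A₂ m m') ∈ π.N
  a₃ : ∀ n x, Sys.nm P (A₃ n x) ∈ π.N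
  e : (emp : PName P) ∈ π.N

section

variable {π : Pkg P}

theorem Im.mono {m : ℕ} {S S' : Set J} (h : Im π m S) (h' : (S \ S').Finite) : Im π m S' := by
  obtain ⟨k, hk⟩ := h
  exact ⟨k, diff_fin hk h'⟩

theorem Im.sub {m : ℕ} {S S' : Set J} (h : Im π m S) (h' : S ⊆ S') : Im π m S' :=
  h.mono (Set.finite_empty.subset fun x hx => hx.2 (h' hx.1))

theorem g_le {k l : ℕ} (h : k ≤ l) (m : ℕ) {S : Set J} (hk : ((π.g k).2.c m \ S).Finite) :
    ((π.g l).2.c m \ S).Finite := by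
  have h1 := π.g_le_left k l
  rw [max_eq_right h] at h1
  exact diff_fin (h1.2 m) hk

theorem Im.inter {m : ℕ} {S S' : Set J} (h : Im π m S) (h' : Im π m S') : Im π m (S ∩ S') := by
  obtain ⟨k, hk⟩ := h
  obtain ⟨l, hl⟩ := h'
  refine ⟨max k l, ((g_le (le_max_left k l) m hk).union
    (g_le (le_max_right k l) m hl)).subset fun x hx => ?_⟩
  by_cases hS : x ∈ S
  · exact Or.inr ⟨hx.1, fun h1 => hx.2 ⟨hS, h1⟩⟩
  · exact Or.inl ⟨hx.1, hS⟩

theorem Im.inf {m : ℕ} {S : Set J} (h : Im π m S) : S.Infinite := by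
  obtain ⟨k, hk⟩ := h
  intro hf
  refine (π.g k).2.inf m ((hk.union hf).subset fun x hx => ?_)
  by_cases hS : x ∈ S
  · exact Or.inr hS
  · exact Or.inl ⟨hx, hS⟩

theorem im_univ (m : ℕ) : Im π m Set.univ :=
  ⟨0, Set.finite_empty.subset fun _ hx => hx.2 trivial⟩

variable (g : Gk π)

include g

theorem lev (m n : ℕ) : ∃ x, Im π m (cone n x) := by
  obtain ⟨k, a, ⟨x, hx⟩, hk⟩ := meets (g.a₁ m n) g.e (dense₁ m n)
  exact ⟨x, k, diff_fin (hk.2 m) hx⟩

theorem hit (n : ℕ) (x : J) : ∃ m, Im π m (cone n x) := by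
  obtain ⟨k, a, ⟨m, hm⟩, hk⟩ := meets (g.a₃ n x) g.e (dense₃ n x)
  exact ⟨m, k, diff_fin (hk.2 m) hm⟩

theorem tot (m : ℕ) {S : Set J} (hS : S ∈ Bs) : Im π m S ∨ Im π m Sᶜ := by
  obtain ⟨n, S', h1, h2⟩ := hS
  obtain ⟨x, hx⟩ := lev g m n
  by_cases h3 : x ∈ S'
  · exact Or.inl ((hx.sub fun y hy => h1 x y hy h3).mono h2.2)
  · refine Or.inr ((hx.sub fun y hy hy' => h3 (h1 y x (R.symm hy) hy')).mono
      (Fe.compl h2).2)

theorem sep_pts {m m' : ℕ} (h : m ≠ m') : ∃ S ∈ Bs, Im π m S ∧ Im π m' Sᶜ := by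
  obtain ⟨k, a, ⟨n, x, y, hxy, h1, h2⟩, hk⟩ := meets (g.a₂ m m') g.e (dense₂ h)
  refine ⟨cone n x, bs_of_sat (sat_cone n x), ⟨k, diff_fin (hk.2 m) h1⟩, ?_⟩
  have h3 : Im π m' (cone n y) := ⟨k, diff_fin (hk.2 m') h2⟩
  exact h3.sub fun z hz hz' => hxy (R.trans hz' (R.symm hz))

omit g in
/-- A subcone that avoids finitely many points. -/
theorem exists_avoid (F : Finset ℕ) (n : ℕ) (a : J) {M : ℕ} (hM : n + F.card + 1 ≤ M) :
    ∃ u, R n a u ∧ ∀ m ∈ F, ¬ Im π m (cone M u) := by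
  let u : ℕ → J := fun i => a.filter (· < n) ∪ {n + i}
  have hu : ∀ i, R n a (u i) := by
    intro i j hj
    rw [Finset.mem_union, Finset.mem_filter, Finset.mem_singleton]
    constructor
    · exact fun h => Or.inl ⟨h, hj⟩
    · rintro (h | h)
      · exact h.1
      · omega
  have hne : ∀ i ≤ F.card, ∀ i' ≤ F.card, R M (u i) (u i') → i = i' := by
    intro i hi i' hi' h
    have h1 := (h (n + i) (by omega)).1
      (Finset.mem_union_right _ (Finset.mem_singleton_self _))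
    rw [Finset.mem_union, Finset.mem_filter, Finset.mem_singleton] at h1
    omega
  by_contra hc
  push Not at hc
  have h1 : ∀ i, ∃ m ∈ F, Im π m (cone M (u i)) := fun i => hc (u i) (hu i)
  choose m hm hm' using h1
  obtain ⟨i, hi, i', hi', hii, he⟩ := Finset.exists_ne_map_eq_of_card_lt_of_maps_to
    (s := Finset.range (F.card + 1)) (t := F) (f := m) (by rw [Finset.card_range]; omega)
    fun i _ => hm i
  rw [Finset.mem_range] at hi hi'
  have h2 := hm' i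
  have h3 := hm' i'
  rw [he] at h2
  obtain ⟨z, hz⟩ := (h2.inter h3).inf.nonempty
  exact hii (hne i (by omega) i' (by omega) (R.trans hz.1 (R.symm hz.2)))

/-- The moved condition is compatible. -/
theorem comp_cond (E : Finset J) {M : ℕ} {u v : J} {k : ℕ}
    (h : ∀ m, (π.g k).2.c m ≠ Set.univ → ¬ Im π m (cone M u) ∧ ¬ Im π m (cone M v)) (l : ℕ)
    (hl : k ≤ l) : ∃ q, q ≤ (π.g l).2 ∧ q ≤ D.aq ⟨cs M u v E, cs_mem M u v E⟩ (π.g k).2 := by
  set τ : T := ⟨cs M u v E, cs_mem M u v E⟩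
  have h1 : ∀ m, ((π.g l).2.c m ∩ ⇑τ.1 '' (π.g k).2.c m).Infinite := by
    intro m
    by_cases hm : (π.g k).2.c m = Set.univ
    · rw [hm, Set.image_univ, Equiv.range_eq_univ, Set.inter_univ]
      exact (π.g l).2.inf m
    · obtain ⟨hu, hv⟩ := h m hm
      obtain ⟨w, hw⟩ := lev g m M
      have h2 : Im π m ((π.g l).2.c m) := ⟨l, by
        rw [Set.sdiff_self]
        exact Set.finite_empty⟩
      have h3 : Im π m ((π.g k).2.c m) := ⟨k, by
        rw [Set.sdiff_self]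
        exact Set.finite_empty⟩
      refine ((h2.inter (h3.inter hw)).inf).mono fun z hz => ⟨hz.1, z, hz.2.1, ?_⟩
      have hzw : R M w z := hz.2.2
      refine cs_out ?_ ?_
      · intro h4
        apply hu
        rwa [cone_eq (R.trans h4 hzw.symm)]
      · intro h4
        apply hv
        rwa [cone_eq (R.trans h4 hzw.symm)]
  let q : Kc :=
    { c := fun m => (π.g l).2.c m ∩ ⇑τ.1 '' (π.g k).2.c m
      mem := fun m => bs_inter ((π.g l).2.mem m) (τ.2.1 _ ((π.g k).2.mem m))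
      inf := h1
      fin := by
        refine ((π.g l).2.fin.union (π.g k).2.fin).subset fun m hm => ?_
        by_contra hc
        rw [Set.mem_union, not_or] at hc
        have h2 : (π.g l).2.c m = Set.univ := not_not.1 hc.1
        have h3 : (π.g k).2.c m = Set.univ := not_not.1 hc.2
        apply hm
        rw [h2, h3, Set.image_univ, Equiv.range_eq_univ, Set.inter_univ] }
  refine ⟨q, fun m => ?_, fun m => ?_⟩
  · exact Set.finite_empty.subset fun x hx => hx.2 hx.1.1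
  · exact Set.finite_empty.subset fun x hx => hx.2 hx.1.2

/-- Moving the sets. -/
theorem gen_move {r : ZFSet.{0}} (hr : r ∈ (K.sys D).Ms π) : ∃ (E : Finset J) (N : ℕ),
    ∀ U : Set J → PName P, (∀ S ∈ Bs, U S ∈ π.N) →
      (∀ (ρ : (K.sys D).G) (τ : T), Bl ρ.1 τ.1 → ∀ S p,
        Feq (act ((K.sys D).ac ρ) (U S)) (U (⇑τ.1 '' S)) p) →
      ∀ S ∈ Bs, π.val (U S) ∈ r → ∃ F : Finset ℕ, ∀ M u v, R N u v →
        (∀ m ∈ F, ¬ Im π m (cone M u) ∧ ¬ Im π m (cone M v)) →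
          π.val (U (⇑(cs M u v E) '' S)) ∈ r := by
  classical
  obtain ⟨t, ⟨ht, hs⟩, rfl⟩ := hr
  obtain ⟨_, ⟨E, _, ⟨N, rfl⟩, rfl⟩, hE⟩ := hs.sym
  refine ⟨E.image Prod.fst, N, fun U hU hUact S hS h => ?_⟩
  obtain ⟨k, hk⟩ := (π.val_mem_iff (hU S hS) ht).1 h
  refine ⟨(π.g k).2.fin.toFinset, fun M u v huv hav => ?_⟩
  have hT := cs_mem M u v (E.image Prod.fst)
  refine K.move (τ := (⟨_, hT⟩ : T)) ht (hU _ (hT.1 S hS)) hE ?_ ?_ (fun ρ hρ p =>
    hUact ρ ⟨_, hT⟩ hρ S p) hk (comp_cond g _ fun m hm => hav m ((π.g k).2.fin.mem_toFinset.2 hm))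
  · exact cs_Hn huv
  · intro a ha
    exact cs_fix (Finset.mem_image_of_mem _ ha)

end

end Pool.Agent.R598.PM.KM
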