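import Pool.Agent.R598.PM.KX

/-!
# A crowded denumerable compact Hausdorff space: the topology
-/

set_option autoImplicit false

namespace Pool.Agent.R598.PM.KM

open Pool.Agent.W868 Pool.Agent.W868.PName Pool.Agent.R598.SY Pool.Agent.R598.PM.Lo
open Pool.Agent.R598.PM.K
open ZFSet (pair)

/-- The basic open sets. -/
noncomputable def ov (π : Pkg P) (S : Set J) : ZFSet.{0} := π.val (oN S)

/-- The sets of atoms. -/
noncomputable def kv (π : Pkg P) (S : Set J) : ZFSet.{0} := π.val (K.sN S)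

section

variable {π : Pkg P} (g : Gk π)

include g

theorem val_bN_inj {i k : J} (h : π.val (K.bN i) = π.val (K.bN k)) : i = k := by
  by_contra hik
  obtain ⟨n, hn⟩ := (π.val_eq_iff (g.b i) (g.b k)).1 h
  exact K.not_feq_bN hik _ hn

theorem val_xN_inj {a b : J × ℕ} (h : π.val (K.xN a) = π.val (K.xN b)) : a = b := by
  by_contra hab
  obtain ⟨n, hn⟩ := (π.val_eq_iff (g.x a) (g.x b)).1 h
  exact K.not_feq_xN hab _ hn

theorem bN_ne_nat (i : J) (m : ℕ) : π.val (K.bN i) ≠ nat m := by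
  intro h
  have h1 := CR.finite_nat m
  rw [← h] at h1
  refine Set.infinite_of_injective_forall_mem (f := fun j : ℕ => π.val (K.xN (i, j))) ?_ ?_ h1
  · intro j j' hj
    exact (Prod.mk.inj (val_xN_inj g hj)).2
  · intro j
    exact π.mem_val.2 ⟨_, g.x _, ⊤, K.el_bN.2 ⟨j, rfl, rfl⟩, ⟨0, le_top⟩, rfl⟩

theorem mem_kv {S : Set J} {z : ZFSet.{0}} : z ∈ kv π S ↔ ∃ i ∈ S, z = π.val (K.bN i) := by
  unfold kv
  rw [π.mem_val]
  constructor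
  · rintro ⟨y, hy, c, hc, -, rfl⟩
    obtain ⟨i, hi, rfl, -⟩ := K.el_sN.1 hc
    exact ⟨i, hi, rfl⟩
  · rintro ⟨i, hi, rfl⟩
    exact ⟨K.bN i, g.b i, ⊤, K.el_sN.2 ⟨i, hi, rfl, rfl⟩, ⟨0, le_top⟩, rfl⟩

theorem bN_mem_kv {S : Set J} {i : J} : π.val (K.bN i) ∈ kv π S ↔ i ∈ S := by
  rw [mem_kv g]
  constructor
  · rintro ⟨k, hk, h⟩
    rwa [val_bN_inj g h]
  · exact fun h => ⟨i, h, rfl⟩

theorem kv_inj {S S' : Set J} (h : kv π S = kv π S') : S = S' := by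
  ext i
  rw [← bN_mem_kv g, h, bN_mem_kv g]

theorem mem_ov {S : Set J} {z : ZFSet.{0}} : z ∈ ov π S ↔
    (∃ i ∈ S, z = π.val (K.bN i)) ∨ ∃ m, Im π m S ∧ z = nat m := by
  unfold ov
  rw [π.mem_val]
  constructor
  · rintro ⟨y, hy, c, hc, ⟨k, hk⟩, rfl⟩
    rcases el_oN.1 hc with ⟨i, hi, rfl, -⟩ | ⟨m, q, hq, rfl, rfl⟩
    · exact Or.inl ⟨i, hi, rfl⟩
    · exact Or.inr ⟨m, ⟨k, diff_fin (hk.2 m) hq⟩, π.hat_nat m⟩
  · rintro (⟨i, hi, rfl⟩ | ⟨m, ⟨k, hk⟩, rfl⟩)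
    · exact ⟨K.bN i, g.b i, ⊤, el_oN.2 (Or.inl ⟨i, hi, rfl, rfl⟩), ⟨0, le_top⟩, rfl⟩
    · exact ⟨check (nat m), π.nat_Z m, (⊤, (π.g k).2), el_oN.2 (Or.inr ⟨m, _, hk, rfl, rfl⟩),
        ⟨k, ⟨le_top, le_rfl⟩⟩, π.hat_nat m⟩

theorem bN_mem_ov {S : Set J} {i : J} : π.val (K.bN i) ∈ ov π S ↔ i ∈ S := by
  rw [mem_ov g]
  constructor
  · rintro (⟨k, hk, h⟩ | ⟨m, -, h⟩)
    · rwa [val_bN_inj g h]
    · exact absurd h (bN_ne_nat g i m)
  · exact fun h => Or.inl ⟨i, h, rfl⟩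

theorem nat_mem_ov {S : Set J} {m : ℕ} : nat m ∈ ov π S ↔ Im π m S := by
  rw [mem_ov g]
  constructor
  · rintro (⟨k, hk, h⟩ | ⟨m', h1, h⟩)
    · exact absurd h.symm (bN_ne_nat g k m)
    · rwa [nat_injective h]
  · exact fun h => Or.inr ⟨m, h, rfl⟩

theorem ov_inter {S S' : Set J} : ov π S ∩ ov π S' = ov π (S ∩ S') := by
  ext z
  rw [ZFSet.mem_inter, mem_ov g, mem_ov g, mem_ov g]
  constructor
  · rintro ⟨⟨i, hi, rfl⟩ | ⟨m, hm, rfl⟩, ⟨i', hi', h⟩ | ⟨m', hm', h⟩⟩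
    · rw [← val_bN_inj g h] at hi'
      exact Or.inl ⟨i, ⟨hi, hi'⟩, rfl⟩
    · exact absurd h (bN_ne_nat g i m')
    · exact absurd h.symm (bN_ne_nat g i' m)
    · rw [← nat_injective h] at hm'
      exact Or.inr ⟨m, hm.inter hm', rfl⟩
  · rintro (⟨i, hi, rfl⟩ | ⟨m, hm, rfl⟩)
    · exact ⟨Or.inl ⟨i, hi.1, rfl⟩, Or.inl ⟨i, hi.2, rfl⟩⟩
    · exact ⟨Or.inr ⟨m, hm.sub Set.inter_subset_left, rfl⟩,
        Or.inr ⟨m, hm.sub Set.inter_subset_right, rfl⟩⟩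

theorem ov_empty : ov π ∅ = ∅ := by
  rw [ZFSet.eq_empty]
  intro z hz
  rcases (mem_ov g).1 hz with ⟨i, hi, -⟩ | ⟨m, hm, -⟩
  · exact hi
  · exact hm.inf Set.finite_empty

theorem ov_sub {S S' : Set J} (h : S ⊆ S') : ov π S ⊆ ov π S' := by
  intro z hz
  rw [mem_ov g] at hz ⊢
  rcases hz with ⟨i, hi, rfl⟩ | ⟨m, hm, rfl⟩
  · exact Or.inl ⟨i, h hi, rfl⟩
  · exact Or.inr ⟨m, hm.sub h, rfl⟩

theorem mem_wN {z : ZFSet.{0}} : z ∈ π.val wN ↔ ∃ S ∈ Bs, z = ov π S := by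
  rw [π.mem_val]
  constructor
  · rintro ⟨y, hy, c, hc, -, rfl⟩
    obtain ⟨S, hS, rfl, -⟩ := el_wN.1 hc
    exact ⟨S, hS, rfl⟩
  · rintro ⟨S, hS, rfl⟩
    exact ⟨oN S, g.o S hS, ⊤, el_wN.2 ⟨S, hS, rfl, rfl⟩, ⟨0, le_top⟩, rfl⟩

theorem wN_mem : π.val wN ∈ (K.sys D).Ms π := ⟨_, ⟨g.w, hs_wN⟩, rfl⟩

theorem ov_mem {S : Set J} (h : S ∈ Bs) : ov π S ∈ (K.sys D).Ms π := ⟨_, ⟨g.o S h, hs_oN h⟩, rfl⟩

theorem kv_mem {S : Set J} (h : S ∈ Bs) : kv π S ∈ (K.sys D).Ms π :=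
  ⟨_, ⟨g.s S h, K.hs_sN (D := D) (bs_dfb h)⟩, rfl⟩

theorem bN_mem (i : J) : π.val (K.bN i) ∈ (K.sys D).Ms π := ⟨_, ⟨g.b i, K.hs_bN i⟩, rfl⟩

theorem kv_finite {S : Set J} : {z | z ∈ kv π S}.Finite ↔ S.Finite := by
  have h1 : {z | z ∈ kv π S} = (fun i => π.val (K.bN i)) '' S := by
    ext z
    rw [Set.mem_ofPred_eq, mem_kv g]
    constructor
    · rintro ⟨i, hi, rfl⟩
      exact ⟨i, hi, rfl⟩
    · rintro ⟨i, hi, rfl⟩
      exact ⟨i, hi, rfl⟩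
  rw [h1]
  exact Set.finite_image_iff fun i _ k _ h => val_bN_inj g h

/-! ### Subsets of the set of atoms -/

omit g in
theorem comp_fs {τ : T} (hτ : τ.1 ∈ FS J) (k l : ℕ) (hl : k ≤ l) :
    ∃ q, q ≤ (π.g l).2 ∧ q ≤ D.aq τ (π.g k).2 := by
  have h1 : ∀ m, ((π.g l).2.c m \ ⇑τ.1 '' (π.g k).2.c m).Finite := by
    intro m
    have h2 : ((π.g l).2.c m \ (π.g k).2.c m).Finite := g_le hl m (by
      rw [Set.sdiff_self]
      exact Set.finite_empty)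
    exact diff_fin h2 (fe_image hτ _).2
  exact ⟨(π.g l).2, le_rfl, h1⟩

/-- The subsets of the set of atoms. -/
theorem exists_bs {X : ZFSet.{0}} (hX : X ∈ (K.sys D).Ms π) (hXA : X ⊆ kv π Set.univ) :
    ∃ S ∈ Bs, X = kv π S := by
  classical
  obtain ⟨t, ⟨ht, hs⟩, rfl⟩ := hX
  obtain ⟨_, ⟨E', _, ⟨n, rfl⟩, rfl⟩, hE⟩ := hs.sym
  set S : Set J := {i | π.val (K.bN i) ∈ π.val t} with hS
  set E := E'.image Prod.fst with hE'
  have h1 : ∀ x y : J, x ∉ E → y ∉ E → R n x y → x ∈ S → y ∈ S := by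
    intro x y hx hy hxy hxS
    obtain ⟨k, hk⟩ := (π.val_mem_iff (g.b x) ht).1 hxS
    have hfs : Equiv.swap x y ∈ FS J := swap_mem_FS x y
    have h2 := K.move (τ := (⟨Equiv.swap x y, fs_mem hfs⟩ : T)) (u' := K.bN (Equiv.swap x y x))
      ht (g.b _) hE (swap_Hn hxy) (fun a ha => ?_) (fun ρ hρ p => K.act_bN hρ x p) hk
      (comp_fs hfs k)
    · rwa [Equiv.swap_apply_left] at h2
    · have ha' : a.1 ∈ E := Finset.mem_image_of_mem _ ha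
      refine Equiv.swap_apply_of_ne_of_ne ?_ ?_
      · intro h
        rw [h] at ha'
        exact hx ha'
      · intro h
        rw [h] at ha'
        exact hy ha'
  refine ⟨S, ⟨n, {x | ∃ y, y ∉ E ∧ R n y x ∧ y ∈ S}, ?_, ?_, ?_⟩, ?_⟩
  · rintro x x' hx ⟨y, hy, hyx, hyS⟩
    exact ⟨y, hy, hyx.trans hx, hyS⟩
  · refine E.finite_toSet.subset fun x hx => ?_
    by_contra hc
    exact hx.2 ⟨x, hc, R.refl x, hx.1⟩
  · refine E.finite_toSet.subset fun x hx => ?_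
    by_contra hc
    obtain ⟨⟨y, hy, hyx, hyS⟩, hx⟩ := hx
    exact hx (h1 y x hy hc hyx hyS)
  · ext z
    rw [mem_kv g]
    constructor
    · intro hz
      obtain ⟨i, -, rfl⟩ := (mem_kv g).1 (hXA hz)
      exact ⟨i, hz, rfl⟩
    · rintro ⟨i, hi, rfl⟩
      exact hi

/-! ### Compactness: the main argument -/

/-- The set is covered by finitely many good sets, up to a finite set. -/
def Jd (Good : Set (Set J)) (S : Set J) : Prop :=
  ∃ 𝒮 : Set (Set J), 𝒮.Finite ∧ 𝒮 ⊆ Good ∧ (S \ ⋃₀ 𝒮).Finite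

omit g in
theorem jd_union {Good : Set (Set J)} {A : Finset J} {f : J → Set J} {S : Set J}
    (hS : ∀ x ∈ S, ∃ v ∈ A, x ∈ f v) (h : ∀ v ∈ A, Jd Good (f v)) : Jd Good S := by
  classical
  have h1 : ∀ v, ∃ 𝒮 : Set (Set J), v ∈ A → 𝒮.Finite ∧ 𝒮 ⊆ Good ∧ (f v \ ⋃₀ 𝒮).Finite := by
    intro v
    by_cases hv : v ∈ A
    · obtain ⟨𝒮, h1⟩ := h v hv
      exact ⟨𝒮, fun _ => h1⟩
    · exact ⟨∅, fun h => absurd h hv⟩
  choose 𝒮 h1 using h1
  refine ⟨⋃ v ∈ A, 𝒮 v, A.finite_toSet.biUnion fun v hv => (h1 v hv).1, ?_, ?_⟩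
  · intro s hs
    obtain ⟨v, hv, hs⟩ := Set.mem_iUnion₂.1 hs
    exact (h1 v hv).2.1 hs
  · refine (A.finite_toSet.biUnion fun v hv => (h1 v hv).2.2).subset fun x hx => ?_
    obtain ⟨v, hv, hxv⟩ := hS x hx.1
    refine Set.mem_iUnion₂.2 ⟨v, hv, hxv, fun h2 => hx.2 ?_⟩
    obtain ⟨s, hs, hxs⟩ := h2
    exact ⟨s, Set.mem_iUnion₂.2 ⟨v, hv, hs⟩, hxs⟩

theorem core {Good : Set (Set J)} (hG : Good ⊆ Bs)
    (down : ∀ S ∈ Good, ∀ S' ∈ Bs, S' ⊆ S → S' ∈ Good)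
    (pt : ∀ m, ∃ S ∈ Good, Im π m S) (sing : ∀ i : J, {i} ∈ Good) (E : Finset J) (N : ℕ)
    (mv : ∀ S ∈ Good, ∃ F : Finset ℕ, ∀ M u v, R N u v →
      (∀ m ∈ F, ¬ Im π m (cone M u) ∧ ¬ Im π m (cone M v)) → ⇑(cs M u v E) '' S ∈ Good) :
    ∃ 𝒮 : Set (Set J), 𝒮.Finite ∧ 𝒮 ⊆ Good ∧ ⋃₀ 𝒮 = Set.univ := by
  classical
  choose Sm hSm hSm' using pt
  -- the cones of the level `N`
  have key : ∀ x, Jd Good (cone N x) := by
    intro x
    obtain ⟨m₀, hm₀⟩ := hit g N x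
    set b := Sm m₀ ∩ cone N x with hb
    have hbB : b ∈ Bs := bs_inter (hG (hSm m₀)) (bs_of_sat (sat_cone N x))
    have hbG : b ∈ Good := down _ (hSm m₀) _ hbB Set.inter_subset_left
    have hbinf : b.Infinite := ((hSm' m₀).inter hm₀).inf
    obtain ⟨F, hF⟩ := mv b hbG
    set 𝒮₀ : Set (Set J) := insert b (Sm '' (↑F : Set ℕ)) with h𝒮₀
    have h𝒮fin : 𝒮₀.Finite := ((F.finite_toSet.image _).insert b)
    have h𝒮G : 𝒮₀ ⊆ Good := by
      rintro s (rfl | ⟨m, -, rfl⟩)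
      · exact hbG
      · exact hSm m
    have hB₀ : ∀ 𝒮 : Set (Set J), 𝒮.Finite → 𝒮 ⊆ Bs → ⋃₀ 𝒮 ∈ Bs := by
      intro 𝒮 h1
      induction 𝒮, h1 using Set.Finite.induction_on with
      | empty =>
        intro _
        rw [Set.sUnion_empty]
        exact bs_fin Set.finite_empty
      | @insert s 𝒮 _ _ ih =>
        intro h2
        rw [Set.sUnion_insert]
        exact bs_union (h2 (Or.inl rfl)) (ih fun t ht => h2 (Or.inr ht))
    obtain ⟨n₂, B', hB', hBB'⟩ := hB₀ 𝒮₀ h𝒮fin (h𝒮G.trans hG)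
    obtain ⟨n₁, b₁, hb₁, hbb₁⟩ := hbB
    set n₀ := max N (max n₁ n₂) with hn₀
    have hN0 : N ≤ n₀ := le_max_left _ _
    have h10 : n₁ ≤ n₀ := (le_max_left _ _).trans (le_max_right _ _)
    have h20 : n₂ ≤ n₀ := (le_max_right _ _).trans (le_max_right _ _)
    -- a cone inside `b`
    have hb' : Fe b (b₁ ∩ cone N x) := by
      have h1 := hbb₁.inter (Fe.refl (cone N x))
      have h2 : b ∩ cone N x = b := Set.inter_eq_left.2 Set.inter_subset_right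
      rwa [h2] at h1
    have hsat : Sat n₀ (b₁ ∩ cone N x) := (hb₁.mono h10).inter ((sat_cone N x).mono hN0)
    obtain ⟨a, ha⟩ := (hb'.inf hbinf).nonempty
    set M := n₀ + F.card + 1 with hM
    obtain ⟨u, hau, hu⟩ := exists_avoid (π := π) F n₀ a (le_refl M)
    have hub : cone M u ⊆ b₁ ∩ cone N x := fun z hz =>
      hsat a z (hau.trans (R.mono hz (by omega))) ha
    have hub' : (cone M u \ b).Finite := hb'.2.subset fun z hz => ⟨hub hz.1, hz.2⟩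
    have hxu : R N x u := (hub (R.refl u)).2
    refine jd_union (A := (Finset.range M).powerset.filter fun v => R N x v)
      (f := fun v => cone M v) (fun y hy => ?_) fun v hv => ?_
    · refine ⟨y.filter (· < M), Finset.mem_filter.2 ⟨filter_mem M y, ?_⟩, R_filter M y⟩
      exact R.trans hy ((R_filter M y).mono (by omega)).symm
    · have hxv : R N x v := (Finset.mem_filter.1 hv).2
      by_cases hvB : v ∈ B'
      · refine ⟨𝒮₀, h𝒮fin, h𝒮G, hBB'.2.subset fun z hz => ⟨?_, hz.2⟩⟩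
        exact hB' v z (R.mono hz.1 (by omega)) hvB
      · have hvF : ∀ m ∈ F, ¬ Im π m (cone M v) := by
          intro m hm hmv
          have h1 : Im π m (⋃₀ 𝒮₀) := (hSm' m).sub fun z hz =>
            ⟨Sm m, Or.inr ⟨m, Finset.mem_coe.2 hm, rfl⟩, hz⟩
          have h2 : Im π m B' := h1.mono hBB'.1
          obtain ⟨z, hz⟩ := (h2.inter hmv).inf.nonempty
          exact hvB (hB' z v ((R.mono hz.2 (by omega)).symm) hz.1)
        have h1 := hF M u v (hxu.symm.trans hxv) fun m hm => ⟨hu m hm, hvF m hm⟩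
        refine ⟨{⇑(cs M u v E) '' b}, Set.finite_singleton _, ?_, ?_⟩
        · rintro _ rfl
          exact h1
        · rw [Set.sUnion_singleton]
          exact diff_fin (cs_cone M u v E) (image_diff_fin.2 hub')
  have h1 : Jd Good Set.univ := jd_union (A := (Finset.range N).powerset)
    (f := fun v => cone N v) (fun y _ => ⟨_, filter_mem N y, R_filter N y⟩) fun v _ => key v
  obtain ⟨𝒮, h2, h3, h4⟩ := h1
  refine ⟨𝒮 ∪ (fun i => {i}) '' (Set.univ \ ⋃₀ 𝒮), h2.union (h4.image _), ?_, ?_⟩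
  · rintro s (hs | ⟨i, -, rfl⟩)
    · exact h3 hs
    · exact sing i
  · refine Set.eq_univ_of_forall fun x => ?_
    by_cases hx : x ∈ ⋃₀ 𝒮
    · obtain ⟨s, hs, hxs⟩ := hx
      exact ⟨s, Or.inl hs, hxs⟩
    · exact ⟨{x}, Or.inr ⟨x, ⟨trivial, hx⟩, rfl⟩, rfl⟩

theorem im_sUnion {m : ℕ} {𝒮 : Set (Set J)} (h1 : 𝒮.Finite) : 𝒮 ⊆ Bs → Im π m (⋃₀ 𝒮) →
    ∃ S ∈ 𝒮, Im π m S := by
  induction 𝒮, h1 using Set.Finite.induction_on with
  | empty =>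
    intro _ h
    rw [Set.sUnion_empty] at h
    exact absurd Set.finite_empty h.inf
  | @insert s 𝒮 _ _ ih =>
    intro h2 h
    rcases tot g m (h2 (Or.inl rfl)) with h3 | h3
    · exact ⟨s, Or.inl rfl, h3⟩
    · obtain ⟨t, ht, h4⟩ := ih (fun t ht => h2 (Or.inr ht)) ((h.inter h3).sub fun x hx => by
        rw [Set.sUnion_insert] at hx
        exact hx.1.resolve_left hx.2)
      exact ⟨t, Or.inr ht, h4⟩

/-! ### The topology -/

omit g in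
/-- The set `τ` is the topology with the base of the sets `ov π S`. -/
def IsTau (π : Pkg P) (τ : ZFSet.{0}) : Prop :=
  ∀ O, O ∈ τ ↔ O ∈ (K.sys D).Ms π ∧ O ⊆ ov π Set.univ ∧ ∀ a ∈ O, ∃ S ∈ Bs, a ∈ ov π S ∧ ov π S ⊆ O

theorem exists_tau (hM : IsZF ((K.sys D).Ms π)) : ∃ τ ∈ (K.sys D).Ms π, IsTau π τ := by
  have hX := ov_mem g (bs_of_sat (sat_univ 0))
  have hW := wN_mem g
  obtain ⟨Q, hQ, hQ'⟩ := hM.power _ hX
  have hB := hM.base
  have h1 := hM.sep_mem (Q := fun O => ∀ a ∈ O, ∃ C ∈ π.val wN, a ∈ C ∧ ∀ b ∈ C, b ∈ O) (by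
    (repeat' first
      | assumption
      | exact DfnF.proj _
      | exact DfnF.const (by assumption)
      | apply Dfn.not | apply Dfn.and | apply Dfn.or | apply hB.bex | apply hB.ball
      | apply Dfn.imp | apply Dfn.iff | apply Dfn.ex | apply Dfn.all
      | apply Dfn.eq | apply Dfn.mem)) hQ
  refine ⟨_, h1, fun O => ?_⟩
  rw [ZFSet.mem_sep, hQ', and_assoc]
  refine and_congr_right fun _ => and_congr_right fun hOA => ?_
  constructor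
  · intro h a ha
    obtain ⟨C, hC, hxC, hCO⟩ := h a ha
    obtain ⟨S, hS, rfl⟩ := (mem_wN g).1 hC
    exact ⟨S, hS, hxC, fun b hb => hCO b hb⟩
  · intro h a ha
    obtain ⟨S, hS, h2, h3⟩ := h a ha
    exact ⟨_, (mem_wN g).2 ⟨S, hS, rfl⟩, h2, fun b hb => h3 hb⟩

variable {τ : ZFSet.{0}} (hτ : IsTau π τ)

include hτ

theorem ov_tau {S : Set J} (hS : S ∈ Bs) : ov π S ∈ τ :=
  (hτ _).2 ⟨ov_mem g hS, ov_sub g (Set.subset_univ _), fun _ ha => ⟨S, hS, ha, subset_rfl⟩⟩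

theorem isTop (hM : IsZF ((K.sys D).Ms π)) :
    IsTop ((K.sys D).Ms π) (ov π Set.univ) τ := by
  refine ⟨fun O hO => ((hτ O).1 hO).2.1, ?_, ?_, ?_, ?_⟩
  · refine (hτ _).2 ⟨hM.empty_mem, fun z hz => absurd hz (ZFSet.notMem_empty _), fun x hx =>
      absurd hx (ZFSet.notMem_empty _)⟩
  · exact ov_tau g hτ (bs_of_sat (sat_univ 0))
  · intro U hU V hV
    obtain ⟨h1, h2, h3⟩ := (hτ U).1 hU
    obtain ⟨h1', h2', h3'⟩ := (hτ V).1 hV
    refine (hτ _).2 ⟨?_, fun z hz => h2 (ZFSet.mem_inter.1 hz).1, fun x hx => ?_⟩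
    · have hB := hM.base
      have h4 := hM.sep_mem (Q := fun z => z ∈ V) (by
        (repeat' first
          | assumption
          | exact DfnF.proj _
          | exact DfnF.const (by assumption)
          | apply Dfn.mem)) h1
      have h5 : ZFSet.sep (fun z => z ∈ V) U = U ∩ V := by
        ext z
        rw [ZFSet.mem_sep, ZFSet.mem_inter]
      rwa [h5] at h4
    · rw [ZFSet.mem_inter] at hx
      obtain ⟨S, hS, h4, h5⟩ := h3 x hx.1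
      obtain ⟨S', hS', h4', h5'⟩ := h3' x hx.2
      refine ⟨S ∩ S', bs_inter hS hS', ?_, ?_⟩
      · rw [← ov_inter g]
        exact ZFSet.mem_inter.2 ⟨h4, h4'⟩
      · intro z hz
        rw [← ov_inter g, ZFSet.mem_inter] at hz
        exact ZFSet.mem_inter.2 ⟨h5 hz.1, h5' hz.2⟩
  · intro C hC hCτ
    refine (hτ _).2 ⟨hM.union _ hC, fun z hz => ?_, fun x hx => ?_⟩
    · obtain ⟨O, hO, hz⟩ := ZFSet.mem_sUnion.1 hz
      exact ((hτ O).1 (hCτ hO)).2.1 hz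
    · obtain ⟨O, hO, hxO⟩ := ZFSet.mem_sUnion.1 hx
      obtain ⟨S, hS, h1, h2⟩ := ((hτ O).1 (hCτ hO)).2.2 x hxO
      exact ⟨S, hS, h1, fun z hz => ZFSet.mem_sUnion.2 ⟨O, hO, h2 hz⟩⟩

theorem isHaus : IsHaus (ov π Set.univ) τ := by
  have hdis : ∀ S : Set J, ov π S ∩ ov π Sᶜ = ∅ := by
    intro S
    rw [ov_inter g, Set.inter_compl_self, ov_empty g]
  have hdis' : ∀ S : Set J, ov π Sᶜ ∩ ov π S = ∅ := by
    intro S
    rw [ov_inter g, Set.compl_inter_self, ov_empty g]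
  have hsing : ∀ i : J, ({i} : Set J) ∈ Bs := fun i => bs_fin (Set.finite_singleton i)
  have hnat : ∀ (m : ℕ) (i : J), Im π m ({i} : Set J)ᶜ := by
    intro m i
    refine (im_univ m).mono ((Set.finite_singleton i).subset fun x hx => ?_)
    exact not_not.1 hx.2
  intro a ha b hb hab
  rcases (mem_ov g).1 ha with ⟨i, -, rfl⟩ | ⟨m, -, rfl⟩ <;>
    rcases (mem_ov g).1 hb with ⟨i', -, rfl⟩ | ⟨m', -, rfl⟩
  · have hii : i' ≠ i := fun h => hab (by rw [h])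
    exact ⟨_, ov_tau g hτ (hsing i), _, ov_tau g hτ (bs_compl (hsing i)), (bN_mem_ov g).2 rfl,
      (bN_mem_ov g).2 hii, hdis _⟩
  · exact ⟨_, ov_tau g hτ (hsing i), _, ov_tau g hτ (bs_compl (hsing i)), (bN_mem_ov g).2 rfl,
      (nat_mem_ov g).2 (hnat m' i), hdis _⟩
  · exact ⟨_, ov_tau g hτ (bs_compl (hsing i')), _, ov_tau g hτ (hsing i'),
      (nat_mem_ov g).2 (hnat m i'), (bN_mem_ov g).2 rfl, hdis' _⟩
  · have hmm : m ≠ m' := fun h => hab (by rw [h])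
    obtain ⟨S, hS, h1, h2⟩ := sep_pts g hmm
    exact ⟨_, ov_tau g hτ hS, _, ov_tau g hτ (bs_compl hS), (nat_mem_ov g).2 h1,
      (nat_mem_ov g).2 h2, hdis _⟩

theorem isComp (hM : IsZF ((K.sys D).Ms π)) :
    IsComp ((K.sys D).Ms π) (ov π Set.univ) τ := by
  classical
  intro C hC hCτ hcov
  have hW := wN_mem g
  have hB := hM.base
  have h1 := hM.sep_mem (Q := fun K => ∃ O ∈ C, ∀ b ∈ K, b ∈ O) (by
    (repeat' first
      | assumption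
      | exact DfnF.proj _
      | exact DfnF.const (by assumption)
      | apply Dfn.not | apply Dfn.and | apply Dfn.or | apply hB.bex | apply hB.ball
      | apply Dfn.imp | apply Dfn.iff | apply Dfn.ex | apply Dfn.all
      | apply Dfn.eq | apply Dfn.mem)) hW
  obtain ⟨E, N, hE⟩ := gen_move g h1
  have hE' := hE oN g.o fun ρ τ hρ S p => act_oN hρ S p
  set Good : Set (Set J) := {S | S ∈ Bs ∧ ∃ O ∈ C, ov π S ⊆ O} with hGood
  have hgood : ∀ S ∈ Bs, (π.val (oN S) ∈ ZFSet.sep (fun K => ∃ O ∈ C, ∀ b ∈ K, b ∈ O)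
      (π.val wN) ↔ S ∈ Good) := by
    intro S hS
    rw [ZFSet.mem_sep]
    constructor
    · rintro ⟨-, O, hO, h⟩
      exact ⟨hS, O, hO, fun b hb => h b hb⟩
    · rintro ⟨-, O, hO, h⟩
      exact ⟨(mem_wN g).2 ⟨S, hS, rfl⟩, O, hO, fun b hb => h hb⟩
  have hpt : ∀ a ∈ ov π Set.univ, ∃ S ∈ Good, a ∈ ov π S := by
    intro a ha
    obtain ⟨O, hO, haO⟩ := ZFSet.mem_sUnion.1 (hcov ha)
    obtain ⟨S, hS, h2, h3⟩ := ((hτ O).1 (hCτ hO)).2.2 a haO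
    exact ⟨S, ⟨hS, O, hO, h3⟩, h2⟩
  have hdown : ∀ S ∈ Good, ∀ S' ∈ Bs, S' ⊆ S → S' ∈ Good := by
    rintro S ⟨-, O, hO, h⟩ S' hS' hSS
    exact ⟨hS', O, hO, fun z hz => h (ov_sub g hSS hz)⟩
  have hq1 : ∀ m, ∃ S ∈ Good, Im π m S := by
    intro m
    obtain ⟨S, hS, h5⟩ := hpt (nat m) ((nat_mem_ov g).2 (im_univ m))
    exact ⟨S, hS, (nat_mem_ov g).1 h5⟩
  have hq2 : ∀ i : J, ({i} : Set J) ∈ Good := by
    intro i
    obtain ⟨S, hS, h5⟩ := hpt (π.val (K.bN i)) ((bN_mem_ov g).2 trivial)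
    refine hdown S hS _ (bs_fin (Set.finite_singleton i)) ?_
    rintro _ rfl
    exact (bN_mem_ov g).1 h5
  have hq3 : ∀ S ∈ Good, ∃ F : Finset ℕ, ∀ M u v, R N u v →
      (∀ m ∈ F, ¬ Im π m (cone M u) ∧ ¬ Im π m (cone M v)) → ⇑(cs M u v E) '' S ∈ Good := by
    intro S hS
    obtain ⟨F, hF⟩ := hE' S hS.1 ((hgood S hS.1).2 hS)
    refine ⟨F, fun M u v huv hav => ?_⟩
    exact (hgood _ ((cs_mem M u v E).1 S hS.1)).1 (hF M u v huv hav)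
  obtain ⟨𝒮, h2, h3, h4⟩ := core g (Good := Good) (fun S hS => hS.1) hdown hq1 hq2 E N hq3
  · -- the finite subcover
    have h5 : ∀ S : Set J, ∃ O, S ∈ 𝒮 → O ∈ C ∧ ov π S ⊆ O := by
      intro S
      by_cases hS : S ∈ 𝒮
      · obtain ⟨-, O, hO, h6⟩ := h3 hS
        exact ⟨O, fun _ => ⟨hO, h6⟩⟩
      · exact ⟨∅, fun h => absurd h hS⟩
    choose O h5 using h5
    have hsC : ∀ z ∈ O '' 𝒮, z ∈ C := by
      rintro _ ⟨S, hS, rfl⟩
      exact (h5 S hS).1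
    obtain ⟨F, hF, hFs, n', f, hf', hbij⟩ := CR.fin_bij hM (O '' 𝒮) (h2.image O)
      fun z hz => hM.trans _ hC _ (hsC z hz)
    refine ⟨F, hF, fun z hz => hsC z ((hFs z).1 hz), ⟨n', f, hf', hbij⟩, fun z hz => ?_⟩
    obtain ⟨S, hS, hzS⟩ : ∃ S ∈ 𝒮, z ∈ ov π S := by
      rcases (mem_ov g).1 hz with ⟨i, -, rfl⟩ | ⟨m, hm, rfl⟩
      · have h6 : i ∈ ⋃₀ 𝒮 := by
          rw [h4]
          trivial
        obtain ⟨S, hS, hi⟩ := h6
        exact ⟨S, hS, (bN_mem_ov g).2 hi⟩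
      · rw [← h4] at hm
        obtain ⟨S, hS, h6⟩ := im_sUnion g h2 (fun S hS => (h3 hS).1) hm
        exact ⟨S, hS, (nat_mem_ov g).2 h6⟩
    exact ZFSet.mem_sUnion.2 ⟨O S, (hFs _).2 ⟨S, hS, rfl⟩, (h5 S hS).2 hzS⟩

end

end Pool.Agent.R598.PM.KM
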