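import Pool.Agent.R598.PM.Mod2
import Pool.Agent.R598.PM.TopDefs2

/-!
# The traces of the neighbourhoods of the isolated points of a remainder
-/

set_option autoImplicit false

namespace Pool.Agent.R598.PM

open Pool.Agent.W868
open ZFSet (pair)

theorem mem_rem {X h x : ZFSet.{0}} : x ∈ rem X h ↔ x ∈ X ∧ ¬ ∃ d, pair d x ∈ h := by
  rw [rem, ZFSet.mem_sep]

section

variable {M : Set ZFSet.{0}} (hM : IsZF M) {D σ X τ h : ZFSet.{0}}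
  (hX : X ∈ M) (hD : D ∈ M) (hτ : τ ∈ M) (hh : h ∈ M) (hT : IsTop M X τ) (hC : IsComp M X τ)
  (hH : IsHaus X τ) (hI : IsInj D X h)
  (hE : ∀ S ∈ M, S ⊆ D → ∃ O ∈ τ, ∀ d x, pair d x ∈ h → (x ∈ O ↔ d ∈ S))
  (hd : ∀ O ∈ τ, O ≠ ∅ → ∃ d x, pair d x ∈ h ∧ x ∈ O)

include hM hτ hT in
theorem union2 {U V : ZFSet.{0}} (hU : U ∈ τ) (hV : V ∈ τ) : U ∪ V ∈ τ := by
  have h1 := hT.2.2.2.2 {U, V} (hM.pairing _ (hM.trans _ hτ _ hU) _ (hM.trans _ hτ _ hV))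
    (fun z hz => by
      rcases ZFSet.mem_pair.1 hz with rfl | rfl
      · exact hU
      · exact hV)
  have h2 : ZFSet.sUnion {U, V} = U ∪ V := by
    ext z
    rw [ZFSet.mem_sUnion, ZFSet.mem_union]
    constructor
    · rintro ⟨w, hw, hz⟩
      rcases ZFSet.mem_pair.1 hw with rfl | rfl
      · exact Or.inl hz
      · exact Or.inr hz
    · rintro (hz | hz)
      · exact ⟨U, ZFSet.mem_pair.2 (Or.inl rfl), hz⟩
      · exact ⟨V, ZFSet.mem_pair.2 (Or.inr rfl), hz⟩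
  rwa [h2] at h1

include hI in
theorem h_dom {d x : ZFSet.{0}} (hdx : pair d x ∈ h) : d ∈ D ∧ x ∈ X :=
  ZFSet.pair_mem_prod.1 (hI.1.1 hdx)

include hI in
theorem h_fun {d x x' : ZFSet.{0}} (hdx : pair d x ∈ h) (hdx' : pair d x' ∈ h) : x = x' :=
  (hI.1.2 d (h_dom hI hdx).1).unique hdx hdx'

theorem haus_ne {O : ZFSet.{0}} {z : ZFSet.{0}} (hz : z ∈ O) : O ≠ ∅ := by
  rintro rfl
  exact ZFSet.notMem_empty _ hz

include hM hD hT hH hI hE hd in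
theorem single_open {d x : ZFSet.{0}} (hdx : pair d x ∈ h) : ({x} : ZFSet.{0}) ∈ τ := by
  obtain ⟨hdD, hxX⟩ := h_dom hI hdx
  obtain ⟨O, hO, h1⟩ := hE {d} (hM.single_mem (hM.trans _ hD _ hdD)) fun z hz => by
    rw [ZFSet.mem_singleton.1 hz]
    exact hdD
  have h2 : O = {x} := by
    ext y
    rw [ZFSet.mem_singleton]
    constructor
    · intro hy
      by_contra hyx
      obtain ⟨U, hU, V, hV, hyU, hxV, hUV⟩ := hH y (hT.1 O hO hy) x hxX hyx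
      obtain ⟨d', x', h3, h4⟩ := hd (U ∩ O) (hT.2.2.2.1 U hU O hO)
        (haus_ne (ZFSet.mem_inter.2 ⟨hyU, hy⟩))
      rw [ZFSet.mem_inter] at h4
      have h5 := ZFSet.mem_singleton.1 ((h1 d' x' h3).1 h4.2)
      rw [h5] at h3
      rw [h_fun hI h3 hdx] at h4
      have h6 : x ∈ U ∩ V := ZFSet.mem_inter.2 ⟨h4.1, hxV⟩
      rw [hUV] at h6
      exact ZFSet.notMem_empty _ h6
    · rintro rfl
      exact (h1 d y hdx).2 (ZFSet.mem_singleton.2 rfl)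
  rwa [h2] at hO

include hM hX hD hτ hh hT hH hI hE hd in
/-- The set of the singletons of the points of the discrete space. -/
theorem exists_sg : ∃ Sg ∈ M, Sg ⊆ τ ∧ (∀ O ∈ Sg, ∃ d x, pair d x ∈ h ∧ O = {x}) ∧
    ∀ d x, pair d x ∈ h → ({x} : ZFSet.{0}) ∈ Sg := by
  have hB := hM.base
  have h1 := hM.sep_mem (Q := fun O => ∃ x ∈ X, ∃ d ∈ D, pair d x ∈ h ∧ (∀ y ∈ O, y = x) ∧ x ∈ O)
    (by
    (repeat' first
      | assumption
      | exact DfnF.proj _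
      | exact DfnF.const (by assumption)
      | apply Dfn.not | apply Dfn.and | apply Dfn.or | apply hB.bex | apply hB.ball
      | apply Dfn.imp | apply Dfn.iff | apply Dfn.ex | apply Dfn.all
      | apply Dfn.eq | apply Dfn.mem | apply hB.pair')) hτ
  refine ⟨_, h1, fun z hz => (ZFSet.mem_sep.1 hz).1, fun O hO => ?_, fun d x hdx => ?_⟩
  · obtain ⟨-, x, hx, d, hd', h2, h3, h4⟩ := ZFSet.mem_sep.1 hO
    refine ⟨d, x, h2, ?_⟩
    ext y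
    rw [ZFSet.mem_singleton]
    constructor
    · exact h3 y
    · rintro rfl
      exact h4
  · refine ZFSet.mem_sep.2 ⟨single_open hM hD hT hH hI hE hd hdx, x, (h_dom hI hdx).2, d,
      (h_dom hI hdx).1, hdx, fun y hy => ZFSet.mem_singleton.1 hy, ZFSet.mem_singleton.2 rfl⟩

include hM hX hD hτ hh hT hC hH hI hE hd in
theorem out_fin {W : ZFSet.{0}} (hW : W ∈ τ) (hr : ∀ x ∈ rem X h, x ∈ W) :
    {d | ∃ x, pair d x ∈ h ∧ x ∉ W}.Finite := by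
  obtain ⟨Sg, hSg, h1, h2, h3⟩ := exists_sg hM hX hD hτ hh hT hH hI hE hd
  obtain ⟨F, hF, hFC, hFf, hFX⟩ := hC (insert W Sg) (hM.insert_mem (hM.trans _ hτ _ hW) hSg)
    (fun z hz => by
      rcases ZFSet.mem_insert_iff.1 hz with rfl | hz
      · exact hW
      · exact h1 hz)
    (fun x hx => by
      by_cases hxr : ∃ d, pair d x ∈ h
      · obtain ⟨d, hdx⟩ := hxr
        exact ZFSet.mem_sUnion.2 ⟨{x}, ZFSet.mem_insert_iff.2 (Or.inr (h3 d x hdx)),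
          ZFSet.mem_singleton.2 rfl⟩
      · exact ZFSet.mem_sUnion.2 ⟨W, ZFSet.mem_insert_iff.2 (Or.inl rfl),
          hr x (mem_rem.2 ⟨hx, hxr⟩)⟩)
  have hfin : {z | z ∈ F}.Finite := (finIn_iff hM fun z hz => hM.trans _ hF _ hz).1 hFf
  refine (hfin.biUnion (t := fun O => {d | ∃ x, pair d x ∈ h ∧ O = {x}}) fun O _ =>
    Set.Subsingleton.finite ?_).subset ?_
  · rintro d ⟨x, hdx, rfl⟩ d' ⟨x', hdx', he⟩
    have h4 : x = x' := by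
      have h5 : x ∈ ({x'} : ZFSet.{0}) := he ▸ ZFSet.mem_singleton.2 rfl
      exact ZFSet.mem_singleton.1 h5
    subst h4
    exact hI.2 _ _ _ hdx hdx'
  · rintro d ⟨x, hdx, hxW⟩
    obtain ⟨O, hO, hxO⟩ := ZFSet.mem_sUnion.1 (hFX (h_dom hI hdx).2)
    refine Set.mem_iUnion₂.2 ⟨O, hO, x, hdx, ?_⟩
    rcases ZFSet.mem_insert_iff.1 (hFC hO) with rfl | hO'
    · exact absurd hxO hxW
    · obtain ⟨d', x', -, rfl⟩ := h2 O hO'
      rw [ZFSet.mem_singleton.1 hxO]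

include hT hH in
theorem shrink {s : Set ZFSet.{0}} (hs : s.Finite) : ∀ {O r : ZFSet.{0}}, O ∈ τ → r ∈ O → r ∉ s →
    ∃ O₁ ∈ τ, r ∈ O₁ ∧ O₁ ⊆ O ∧ ∀ x ∈ s, x ∉ O₁ := by
  induction s, hs using Set.Finite.induction_on with
  | empty => exact fun {O r} hO hr _ => ⟨O, hO, hr, subset_rfl, fun x hx => hx.elim⟩
  | @insert a s _ _ ih =>
    intro O r hO hr hrs
    rw [Set.mem_insert_iff, not_or] at hrs
    obtain ⟨O₁, hO₁, h1, h2, h3⟩ := ih hO hr hrs.2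
    by_cases ha : a ∈ X
    · obtain ⟨U, hU, V, hV, hrU, haV, hUV⟩ := hH r (hT.1 O hO hr) a ha hrs.1
      refine ⟨O₁ ∩ U, hT.2.2.2.1 _ hO₁ _ hU, ZFSet.mem_inter.2 ⟨h1, hrU⟩,
        fun z hz => h2 (ZFSet.mem_inter.1 hz).1, ?_⟩
      rintro x (rfl | hx) hx'
      · have h6 : x ∈ U ∩ V := ZFSet.mem_inter.2 ⟨(ZFSet.mem_inter.1 hx').2, haV⟩
        rw [hUV] at h6
        exact ZFSet.notMem_empty _ h6
      · exact h3 x hx (ZFSet.mem_inter.1 hx').1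
    · refine ⟨O₁, hO₁, h1, h2, ?_⟩
      rintro x (rfl | hx) hx'
      · exact ha (hT.1 _ hO₁ hx')
      · exact h3 x hx hx'

include hT hH hI hd in
theorem inf_trace {O r : ZFSet.{0}} (hO : O ∈ τ) (hr : r ∈ O) (hr' : r ∈ rem X h) :
    {d | ∃ x ∈ O, pair d x ∈ h}.Infinite := by
  intro hf
  have hs : {x | ∃ d, d ∈ {d | ∃ x ∈ O, pair d x ∈ h} ∧ pair d x ∈ h}.Finite := by
    refine (hf.biUnion (t := fun d => {x | pair d x ∈ h}) fun d _ =>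
      Set.Subsingleton.finite fun x hx x' hx' => h_fun hI hx hx').subset ?_
    rintro x ⟨d, h1, h2⟩
    exact Set.mem_iUnion₂.2 ⟨d, h1, h2⟩
  obtain ⟨O₁, hO₁, h1, h2, h3⟩ := shrink hT hH hs hO hr fun h4 => by
    obtain ⟨d, -, h5⟩ := h4
    exact (mem_rem.1 hr').2 ⟨d, h5⟩
  obtain ⟨d, x, h4, h5⟩ := hd O₁ hO₁ (haus_ne h1)
  exact h3 x ⟨d, ⟨x, h2 h5, h4⟩, h4⟩ h5

include hM hX hD hτ hh hT hC hH hI hE hd in
theorem exists_good {f : ZFSet.{0}} (hf : IsBij (rem X h) (insert ZFSet.omega ZFSet.omega) f)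
    (hhom : ∀ S ∈ M, S ⊆ insert ZFSet.omega ZFSet.omega →
        ((ZFSet.omega ∈ S → FinIn M (ZFSet.omega \ S)) ↔
          ∃ O ∈ τ, ∀ x y, pair x y ∈ f → (x ∈ O ↔ y ∈ S))) (n : ℕ) :
    ∃ O ∈ τ, ∃ O' ∈ τ, (∀ z ∈ O, z ∉ O') ∧
      ∀ x y, pair x y ∈ f → (y = nat n → x ∈ O) ∧ (¬ y = nat n → x ∈ O') := by
  have hn : nat n ∈ ZFSet.omega := mem_omega_iff.2 ⟨n, rfl⟩
  obtain ⟨r, hr, hrn⟩ := hf.2 (nat n) (ZFSet.mem_insert_iff.2 (Or.inr hn))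
  obtain ⟨hrX, hrh⟩ := mem_rem.1 hr
  obtain ⟨O₁, hO₁, hO₁'⟩ := (hhom {nat n} (hM.single_mem (hM.nat_mem n)) (fun z hz => by
    rw [ZFSet.mem_singleton.1 hz]
    exact ZFSet.mem_insert_iff.2 (Or.inr hn))).1 fun h1 => by
      have h2 := ZFSet.mem_singleton.1 h1
      rw [← h2] at hn
      exact absurd hn (ZFSet.mem_irrefl _)
  obtain ⟨Sg, hSg, h1, h2, h3⟩ := exists_sg hM hX hD hτ hh hT hH hI hE hd
  have hB := hM.base
  have hrM := hM.trans _ hX _ hrX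
  have hVc := hM.sep_mem (Q := fun V => ∃ U ∈ τ, r ∈ U ∧ ∀ z ∈ U, ¬ z ∈ V)
    (by
    (repeat' first
      | assumption
      | exact DfnF.proj _
      | exact DfnF.const (by assumption)
      | apply Dfn.not | apply Dfn.and | apply Dfn.or | apply hB.bex | apply hB.ball
      | apply Dfn.imp | apply Dfn.iff | apply Dfn.ex | apply Dfn.all
      | apply Dfn.eq | apply Dfn.mem | apply hB.pair')) hτ
  set Vc := ZFSet.sep (fun V => ∃ U ∈ τ, r ∈ U ∧ ∀ z ∈ U, ¬ z ∈ V) τ with hVcd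
  obtain ⟨F, hF, hFC, hFf, hFX⟩ := hC (insert O₁ (Vc ∪ Sg))
    (hM.insert_mem (hM.trans _ hτ _ hO₁) (hM.union_mem hVc hSg))
    (fun z hz => by
      rcases ZFSet.mem_insert_iff.1 hz with rfl | hz
      · exact hO₁
      · rcases ZFSet.mem_union.1 hz with hz | hz
        · exact (ZFSet.mem_sep.1 hz).1
        · exact h1 hz)
    (fun x hx => by
      by_cases hxr : ∃ d, pair d x ∈ h
      · obtain ⟨d, hdx⟩ := hxr
        exact ZFSet.mem_sUnion.2 ⟨{x}, ZFSet.mem_insert_iff.2 (Or.inr (ZFSet.mem_union.2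
          (Or.inr (h3 d x hdx)))), ZFSet.mem_singleton.2 rfl⟩
      · by_cases hxr' : r = x
        · subst hxr'
          exact ZFSet.mem_sUnion.2 ⟨O₁, ZFSet.mem_insert_iff.2 (Or.inl rfl),
            (hO₁' r (nat n) hrn).2 (ZFSet.mem_singleton.2 rfl)⟩
        · obtain ⟨U, hU, V, hV, hrU, hxV, hUV⟩ := hH r hrX x hx hxr'
          refine ZFSet.mem_sUnion.2 ⟨V, ZFSet.mem_insert_iff.2 (Or.inr (ZFSet.mem_union.2
            (Or.inl (ZFSet.mem_sep.2 ⟨hV, U, hU, hrU, fun z hz hz' => ?_⟩)))), hxV⟩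
          have h6 : z ∈ U ∩ V := ZFSet.mem_inter.2 ⟨hz, hz'⟩
          rw [hUV] at h6
          exact ZFSet.notMem_empty _ h6)
  have hfin : {z | z ∈ F}.Finite := (finIn_iff hM fun z hz => hM.trans _ hF _ hz).1 hFf
  have hind : ∀ s : Set ZFSet.{0}, s.Finite → (∀ V ∈ s, V ∈ Vc) →
      ∃ O ∈ τ, r ∈ O ∧ ∀ V ∈ s, ∀ z ∈ O, z ∉ V := by
    intro s hs
    induction s, hs using Set.Finite.induction_on with
    | empty => exact fun _ => ⟨X, hT.2.2.1, hrX, fun V hV => hV.elim⟩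
    | @insert a s _ _ ih =>
      intro h4
      obtain ⟨O, hO, h5, h6⟩ := ih fun V hV => h4 V (Or.inr hV)
      obtain ⟨-, U, hU, hrU, h7⟩ := ZFSet.mem_sep.1 (h4 a (Or.inl rfl))
      refine ⟨O ∩ U, hT.2.2.2.1 _ hO _ hU, ZFSet.mem_inter.2 ⟨h5, hrU⟩, ?_⟩
      rintro V (rfl | hV) z hz
      · exact h7 z (ZFSet.mem_inter.1 hz).2
      · exact h6 V hV z (ZFSet.mem_inter.1 hz).1
  obtain ⟨O, hO, hrO, h4⟩ := hind {V | V ∈ F ∧ V ∈ Vc} (hfin.subset fun V hV => hV.1)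
    fun V hV => hV.2
  have hF' := hM.sep_mem (Q := fun V => V ∈ Vc)
    (by
    (repeat' first
      | assumption
      | exact DfnF.proj _
      | exact DfnF.const (by assumption)
      | apply Dfn.mem)) hF
  have hO' := hT.2.2.2.2 _ hF' fun V hV => (ZFSet.mem_sep.1 (ZFSet.mem_sep.1 hV).2).1
  refine ⟨O, hO, _, hO', fun z hz hz' => ?_, fun x y hxy => ⟨fun hy => ?_, fun hy => ?_⟩⟩
  · obtain ⟨V, hV, hzV⟩ := ZFSet.mem_sUnion.1 hz'
    obtain ⟨hVF, hVV⟩ := ZFSet.mem_sep.1 hV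
    exact h4 V ⟨hVF, hVV⟩ z hz hzV
  · rw [hy] at hxy
    rwa [hf.1.2 _ _ _ hxy hrn]
  · obtain ⟨hxr, -⟩ := ZFSet.pair_mem_prod.1 (hf.1.1.1 hxy)
    obtain ⟨hxX, hxh⟩ := mem_rem.1 hxr
    obtain ⟨V, hV, hxV⟩ := ZFSet.mem_sUnion.1 (hFX hxX)
    rcases ZFSet.mem_insert_iff.1 (hFC hV) with rfl | hV'
    · exact absurd (ZFSet.mem_singleton.1 ((hO₁' x y hxy).1 hxV)) hy
    · rcases ZFSet.mem_union.1 hV' with hV' | hV'
      · exact ZFSet.mem_sUnion.2 ⟨V, ZFSet.mem_sep.2 ⟨hV, hV'⟩, hxV⟩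
      · obtain ⟨d, x', hdx, rfl⟩ := h2 V hV'
        rw [← ZFSet.mem_singleton.1 hxV] at hdx
        exact absurd ⟨d, hdx⟩ hxh

end

/-- The family of the traces. -/
theorem trace_family {M : Set ZFSet.{0}} (hM : IsZF M) {D σ : ZFSet.{0}} (hD : D ∈ M)
    (hσ : ∀ S ∈ M, S ⊆ D → S ∈ σ) (hN : NInfRem M D σ) :
    ∃ r ∈ M, (∀ (n : ℕ) S, pair (nat n) S ∈ r → S ∈ M ∧ S ⊆ D) ∧
      (∀ n : ℕ, ∃ S, pair (nat n) S ∈ r) ∧
      (∀ (n : ℕ) S S', pair (nat n) S ∈ r → pair (nat n) S' ∈ r → {z | z ∈ S ∧ z ∉ S'}.Finite) ∧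
      (∀ (n m : ℕ) S S', n ≠ m → pair (nat n) S ∈ r → pair (nat m) S' ∈ r →
        {z | z ∈ S ∧ z ∈ S'}.Finite) ∧
      ∀ (n : ℕ) S, pair (nat n) S ∈ r → {z | z ∈ S}.Infinite := by
  obtain ⟨X, hX, τ, hτ, h, hh, ⟨hT, hC, hH, hI, hE', hd⟩, f, hf, hbij, hhom⟩ := hN
  have hE : ∀ S ∈ M, S ⊆ D → ∃ O ∈ τ, ∀ d x, pair d x ∈ h → (x ∈ O ↔ d ∈ S) :=
    fun S hS hSD => (hE' S hS hSD).1 (hσ S hS hSD)
  obtain ⟨Q, hQ, hQ'⟩ := hM.power _ hD
  have hB := hM.base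
  have hω := hM.infinity
  have hω1 := hM.insert_mem hω hω
  have h1 := hM.sep_mem (Q := fun z => ∃ a ∈ ZFSet.omega, ∃ S ∈ Q, z = pair a S ∧
    ∃ O ∈ τ, ∃ O' ∈ τ, (∀ z ∈ O, ¬ z ∈ O') ∧
      (∀ x ∈ X, ∀ y ∈ insert ZFSet.omega ZFSet.omega, pair x y ∈ f →
        ((y = a → x ∈ O) ∧ (¬ y = a → x ∈ O'))) ∧
      ∀ d ∈ D, (d ∈ S ↔ ∃ x ∈ O, pair d x ∈ h))
    (by
    (repeat' first
      | assumption
      | exact DfnF.proj _
      | exact DfnF.const (by assumption)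
      | apply Dfn.not | apply Dfn.and | apply Dfn.or | apply hB.bex | apply hB.ball
      | apply Dfn.imp | apply Dfn.iff | apply Dfn.ex | apply Dfn.all
      | apply Dfn.eq | apply Dfn.mem | apply hB.pair')) (hM.prod_mem hω hQ)
  set r := ZFSet.sep (fun z => ∃ a ∈ ZFSet.omega, ∃ S ∈ Q, z = pair a S ∧
    ∃ O ∈ τ, ∃ O' ∈ τ, (∀ z ∈ O, ¬ z ∈ O') ∧
      (∀ x ∈ X, ∀ y ∈ insert ZFSet.omega ZFSet.omega, pair x y ∈ f →
        ((y = a → x ∈ O) ∧ (¬ y = a → x ∈ O'))) ∧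
      ∀ d ∈ D, (d ∈ S ↔ ∃ x ∈ O, pair d x ∈ h)) (ZFSet.prod ZFSet.omega Q) with hr
  have hmem : ∀ (n : ℕ) S, pair (nat n) S ∈ r ↔ (S ∈ M ∧ S ⊆ D) ∧ ∃ O ∈ τ, ∃ O' ∈ τ,
      (∀ z ∈ O, ¬ z ∈ O') ∧
      (∀ x y, pair x y ∈ f → ((y = nat n → x ∈ O) ∧ (¬ y = nat n → x ∈ O'))) ∧
      ∀ d, (d ∈ S ↔ ∃ x ∈ O, pair d x ∈ h) := by
    intro n S
    rw [hr, ZFSet.mem_sep]
    constructor
    · rintro ⟨-, a, -, S', hS', he, O, hO, O', hO', h2, h3, h4⟩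
      obtain ⟨rfl, rfl⟩ := ZFSet.pair_inj.1 he
      refine ⟨(hQ' S).1 hS', O, hO, O', hO', h2, fun x y hxy => ?_, fun d => ⟨fun hdS => ?_, ?_⟩⟩
      · obtain ⟨h5, h6⟩ := ZFSet.pair_mem_prod.1 (hbij.1.1.1 hxy)
        exact h3 x (mem_rem.1 h5).1 y h6 hxy
      · exact (h4 d (((hQ' S).1 hS').2 hdS)).1 hdS
      · rintro ⟨x, hx, hdx⟩
        exact (h4 d (h_dom hI hdx).1).2 ⟨x, hx, hdx⟩
    · rintro ⟨hS, O, hO, O', hO', h2, h3, h4⟩
      exact ⟨ZFSet.pair_mem_prod.2 ⟨mem_omega_iff.2 ⟨n, rfl⟩, (hQ' S).2 hS⟩, nat n,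
        mem_omega_iff.2 ⟨n, rfl⟩, S, (hQ' S).2 hS, rfl, O, hO, O', hO', h2,
        fun x _ y _ hxy => h3 x y hxy, fun d _ => h4 d⟩
  have hout := fun {W : ZFSet.{0}} (hW : W ∈ τ) => out_fin hM hX hD hτ hh hT hC hH hI hE hd hW
  have hy : ∀ x ∈ rem X h, ∃ y, pair x y ∈ f := fun x hx => (hbij.1.1.2 x hx).exists
  refine ⟨r, h1, fun n S hS => ((hmem n S).1 hS).1, fun n => ?_, ?_, ?_, ?_⟩
  · obtain ⟨O, hO, O', hO', h2, h3⟩ := exists_good hM hX hD hτ hh hT hC hH hI hE hd hbij hhom n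
    have hOM := hM.trans _ hτ _ hO
    have h4 := hM.sep_mem (Q := fun d => ∃ x ∈ O, pair d x ∈ h)
      (by
      (repeat' first
        | assumption
        | exact DfnF.proj _
        | exact DfnF.const (by assumption)
        | apply Dfn.not | apply Dfn.and | apply Dfn.or | apply hB.bex | apply hB.ball
        | apply Dfn.imp | apply Dfn.iff | apply Dfn.ex | apply Dfn.all
        | apply Dfn.eq | apply Dfn.mem | apply hB.pair')) hD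
    refine ⟨_, (hmem n _).2 ⟨⟨h4, fun z hz => (ZFSet.mem_sep.1 hz).1⟩, O, hO, O', hO', h2, h3,
      fun d => ?_⟩⟩
    rw [ZFSet.mem_sep]
    constructor
    · exact fun h => h.2
    · rintro ⟨x, hx, hdx⟩
      exact ⟨(h_dom hI hdx).1, x, hx, hdx⟩
  · intro n S S' hS hS'
    obtain ⟨-, O, hO, O', hO', h2, h3, h4⟩ := (hmem n S).1 hS
    obtain ⟨-, U, hU, U', hU', h2', h3', h4'⟩ := (hmem n S').1 hS'
    refine (hout (union2 hM hτ hT hO' hU) fun x hx => ?_).subset ?_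
    · obtain ⟨y, hxy⟩ := hy x hx
      by_cases hyn : y = nat n
      · exact ZFSet.mem_union.2 (Or.inr ((h3' x y hxy).1 hyn))
      · exact ZFSet.mem_union.2 (Or.inl ((h3 x y hxy).2 hyn))
    · rintro d ⟨hdS, hdS'⟩
      obtain ⟨x, hx, hdx⟩ := (h4 d).1 hdS
      refine ⟨x, hdx, fun hxW => ?_⟩
      rcases ZFSet.mem_union.1 hxW with h5 | h5
      · exact h2 x hx h5
      · exact hdS' ((h4' d).2 ⟨x, h5, hdx⟩)
  · intro n m S S' hnm hS hS'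
    obtain ⟨-, O, hO, O', hO', h2, h3, h4⟩ := (hmem n S).1 hS
    obtain ⟨-, U, hU, U', hU', h2', h3', h4'⟩ := (hmem m S').1 hS'
    refine (hout (union2 hM hτ hT hO' hU') fun x hx => ?_).subset ?_
    · obtain ⟨y, hxy⟩ := hy x hx
      by_cases hyn : y = nat n
      · refine ZFSet.mem_union.2 (Or.inr ((h3' x y hxy).2 fun hym => hnm ?_))
        exact nat_injective (hyn.symm.trans hym)
      · exact ZFSet.mem_union.2 (Or.inl ((h3 x y hxy).2 hyn))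
    · rintro d ⟨hdS, hdS'⟩
      obtain ⟨x, hx, hdx⟩ := (h4 d).1 hdS
      obtain ⟨x', hx', hdx'⟩ := (h4' d).1 hdS'
      obtain rfl := h_fun hI hdx hdx'
      refine ⟨x, hdx, fun hxW => ?_⟩
      rcases ZFSet.mem_union.1 hxW with h5 | h5
      · exact h2 x hx h5
      · exact h2' x hx' h5
  · intro n S hS
    obtain ⟨-, O, hO, O', hO', h2, h3, h4⟩ := (hmem n S).1 hS
    obtain ⟨x, hx, hxn⟩ := hbij.2 (nat n)
      (ZFSet.mem_insert_iff.2 (Or.inr (mem_omega_iff.2 ⟨n, rfl⟩)))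
    have h5 := inf_trace hT hH hI hd hO ((h3 x _ hxn).1 rfl) hx
    have h6 : {d | ∃ x ∈ O, pair d x ∈ h} = {z | z ∈ S} := by
      ext d
      exact (h4 d).symm
    rwa [h6] at h5

end Pool.Agent.R598.PM
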