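import Pool.Agent.R598.PM.KY
import Pool.Agent.R598.PM.Trace

/-!
# A crowded denumerable compact Hausdorff space: the remainders
-/

set_option autoImplicit false

namespace Pool.Agent.R598.PM.KM

open Pool.Agent.W868 Pool.Agent.W868.PName Pool.Agent.R598.SY Pool.Agent.R598.PM.Lo
open Pool.Agent.R598.PM.K
open ZFSet (pair)

section

variable {π : Pkg P} (g : Gk π)

include g

theorem diff_kv {S S' : Set J} (h : {z | z ∈ kv π S ∧ z ∉ kv π S'}.Finite) : (S \ S').Finite := by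
  refine (kv_finite g).1 (h.subset fun z hz => ?_)
  obtain ⟨i, hi, rfl⟩ := (mem_kv g).1 hz
  exact ⟨(bN_mem_kv g).2 hi.1, fun h1 => hi.2 ((bN_mem_kv g).1 h1)⟩

theorem inter_kv {S S' : Set J} (h : {z | z ∈ kv π S ∧ z ∈ kv π S'}.Finite) :
    (S ∩ S').Finite := by
  refine (kv_finite g).1 (h.subset fun z hz => ?_)
  obtain ⟨i, hi, rfl⟩ := (mem_kv g).1 hz
  exact ⟨(bN_mem_kv g).2 hi.1, (bN_mem_kv g).2 hi.2⟩

theorem kv_univ_mem : kv π Set.univ ∈ (K.sys D).Ms π := kv_mem g (bs_of_sat (sat_univ 0))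

omit g in
theorem sat_sup {N : ℕ} {S : Set J} (h : Sat N S) : Sup D₀ ∅ (Hn N) S :=
  fun τ _ h3 _ x hx => h x (τ x) (h3 x).symm hx

/-- The space `ω ∪ {ω}` is not a remainder. -/
theorem not_nInf (hM : IsZF ((K.sys D).Ms π)) {σ : ZFSet.{0}}
    (hσ : ∀ S ∈ (K.sys D).Ms π, S ⊆ kv π Set.univ → S ∈ σ) :
    ¬ NInfRem ((K.sys D).Ms π) (kv π Set.univ) σ := by
  classical
  intro hN
  obtain ⟨r, hr, hra, hrb, hrc, hrd, hre⟩ := trace_family hM (kv_univ_mem g) hσ hN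
  obtain ⟨E, N, hEN⟩ := gen_move g hr
  have hmv : ∀ n : ℕ, ∀ S ∈ Bs, pair (nat n) (kv π S) ∈ r → ∃ F : Finset ℕ, ∀ M u v,
      R N u v → (∀ m ∈ F, ¬ Im π m (cone M u) ∧ ¬ Im π m (cone M v)) →
        pair (nat n) (kv π (⇑(cs M u v E) '' S)) ∈ r := by
    intro n S hS h
    have hv : ∀ S ∈ Bs, π.val (opN (check (nat n)) (K.sN S)) = pair (nat n) (kv π S) := by
      intro S hS
      have h0 : π.val (check (nat n)) = nat n := π.hat_nat n
      rw [π.val_opN (π.nat_Z n) (g.s S hS), h0]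
      rfl
    obtain ⟨F, hF⟩ := hEN (fun S => opN (check (nat n)) (K.sN S))
      (fun S hS => π.opN_mem (π.nat_Z n) (g.s S hS)) (fun ρ τ hρ S p => by
        change Feq (act ((K.sys D).ac ρ) (opN (check (nat n)) (K.sN S)))
          (opN (check (nat n)) (K.sN (⇑τ.1 '' S))) p
        rw [act_opN ((K.sys D).top ρ), act_check ((K.sys D).top ρ)]
        exact feq_opN (Feq.refl _ _) (K.act_sN hρ S p)) S hS (by
        change π.val (opN (check (nat n)) (K.sN S)) ∈ r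
        rwa [hv S hS])
    refine ⟨F, fun M u v huv hav => ?_⟩
    have h1 := hF M u v huv hav
    change π.val (opN (check (nat n)) (K.sN _)) ∈ r at h1
    rwa [hv _ ((cs_mem M u v E).1 S hS)] at h1
  have key : ∀ n : ℕ, ∀ S ∈ Bs, pair (nat n) (kv π S) ∈ r → ∃ S', Sat N S' ∧ Fe S S' := by
    intro n S hS h
    obtain ⟨n₁, S₁, hS₁, hSS₁⟩ := id hS
    set M₀ := max N n₁ with hM₀
    have hS₁' : Sat M₀ S₁ := hS₁.mono (le_max_right _ _)
    refine ⟨S₁, ?_, hSS₁⟩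
    intro a b hab ha
    by_contra hb
    obtain ⟨F, hF⟩ := hmv n S hS h
    obtain ⟨u, hau, hu⟩ := exists_avoid (π := π) F M₀ a (le_refl (M₀ + F.card + 1))
    obtain ⟨v, hbv, hv⟩ := exists_avoid (π := π) F M₀ b (le_refl (M₀ + F.card + 1))
    set M := M₀ + F.card + 1 with hMd
    have huv : R N u v := ((hau.mono (le_max_left _ _)).symm.trans hab).trans
      (hbv.mono (le_max_left _ _))
    have h1 := hF M u v huv fun m hm => ⟨hu m hm, hv m hm⟩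
    have h2 := diff_kv g (hrc n _ _ h1 h)
    have h3 : cone M u ⊆ S₁ := fun z hz => hS₁' a z (hau.trans (R.mono hz (by omega))) ha
    have h4 : (cone M u \ S).Finite := hSS₁.2.subset fun z hz => ⟨h3 hz.1, hz.2⟩
    have h5 : (cone M v \ S₁).Finite :=
      diff_fin (diff_fin (diff_fin (cs_cone M u v E) (image_diff_fin.2 h4)) h2) hSS₁.1
    refine cone_inf M v (h5.subset fun z hz => ⟨hz, fun hz' => hb ?_⟩)
    exact hS₁' z b ((R.symm (R.mono hz (by omega))).trans hbv.symm) hz'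
  have h1 : ∀ n : ℕ, ∃ S S', S ∈ Bs ∧ pair (nat n) (kv π S) ∈ r ∧ Sat N S' ∧ Fe S S' := by
    intro n
    obtain ⟨X, hX⟩ := hrb n
    obtain ⟨S, hS, rfl⟩ := exists_bs g (hra n X hX).1 (hra n X hX).2
    obtain ⟨S', h2, h3⟩ := key n S hS hX
    exact ⟨S, S', hS, hX, h2, h3⟩
  choose S S' hS hr' hS' hSS' using h1
  have h2 : {S | Sup D₀ ∅ (Hn N) S}.Finite := of_D₀.finite ∅ ⟨N, rfl⟩
  obtain ⟨n, -, m, -, hnm, he⟩ := Set.infinite_univ.exists_ne_map_eq_of_mapsTo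
    (f := S') (s := Set.univ) (fun n _ => sat_sup (hS' n)) h2
  have h3 : (S n).Infinite := fun h => hre n _ (hr' n) ((kv_finite g).2 h)
  have h4 : (S n ∩ S m).Finite := inter_kv g (hrd n m _ _ hnm (hr' n) (hr' m))
  have h5 : Fe (S n) (S m) := by
    have h6 := hSS' n
    rw [he] at h6
    exact h6.trans (hSS' m).symm
  refine h3 ((h4.union h5.1).subset fun x hx => ?_)
  by_cases hxm : x ∈ S m
  · exact Or.inl ⟨hx, hxm⟩
  · exact Or.inr ⟨hx, hxm⟩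

/-- The discrete space has a denumerable remainder. -/
theorem denRem (hM : IsZF ((K.sys D).Ms π)) {σ : ZFSet.{0}}
    (hσ : ∀ S ∈ (K.sys D).Ms π, S ⊆ kv π Set.univ → S ∈ σ) :
    DenRem ((K.sys D).Ms π) (kv π Set.univ) σ := by
  have hB := hM.base
  have hD := kv_univ_mem g
  have hX := ov_mem g (bs_of_sat (sat_univ 0))
  obtain ⟨τ, hτM, hτ⟩ := exists_tau g hM
  have hω := hM.infinity
  have h1 := hM.sep_mem (Q := fun z => ∃ a ∈ kv π Set.univ, z = pair a a) (by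
    (repeat' first
      | assumption
      | exact DfnF.proj _
      | exact DfnF.const (by assumption)
      | apply Dfn.not | apply Dfn.and | apply Dfn.or | apply hB.bex | apply hB.ball
      | apply Dfn.imp | apply Dfn.iff | apply Dfn.ex | apply Dfn.all
      | apply Dfn.eq | apply Dfn.mem | apply hB.pair')) (hM.prod_mem hD hX)
  have h2 := hM.sep_mem (Q := fun z => ∃ a ∈ ZFSet.omega, z = pair a a) (by
    (repeat' first
      | assumption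
      | exact DfnF.proj _
      | exact DfnF.const (by assumption)
      | apply Dfn.not | apply Dfn.and | apply Dfn.or | apply hB.bex | apply hB.ball
      | apply Dfn.imp | apply Dfn.iff | apply Dfn.ex | apply Dfn.all
      | apply Dfn.eq | apply Dfn.mem | apply hB.pair')) (hM.prod_mem hω hω)
  set h := ZFSet.sep (fun z => ∃ a ∈ kv π Set.univ, z = pair a a)
    (ZFSet.prod (kv π Set.univ) (ov π Set.univ)) with hh
  set f := ZFSet.sep (fun z => ∃ a ∈ ZFSet.omega, z = pair a a)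
    (ZFSet.prod ZFSet.omega ZFSet.omega) with hf
  have hDX : ∀ z, z ∈ kv π Set.univ → z ∈ ov π Set.univ := by
    intro z hz
    obtain ⟨i, -, rfl⟩ := (mem_kv g).1 hz
    exact (bN_mem_ov g).2 trivial
  have hmem : ∀ d x, pair d x ∈ h ↔ d = x ∧ d ∈ kv π Set.univ := by
    intro d x
    rw [hh, ZFSet.mem_sep, ZFSet.pair_mem_prod]
    constructor
    · rintro ⟨-, a, ha, he⟩
      obtain ⟨rfl, rfl⟩ := ZFSet.pair_inj.1 he
      exact ⟨rfl, ha⟩
    · rintro ⟨rfl, hd⟩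
      exact ⟨⟨hd, hDX _ hd⟩, d, hd, rfl⟩
  have hmemf : ∀ d x, pair d x ∈ f ↔ d = x ∧ d ∈ ZFSet.omega := by
    intro d x
    rw [hf, ZFSet.mem_sep, ZFSet.pair_mem_prod]
    constructor
    · rintro ⟨-, a, ha, he⟩
      obtain ⟨rfl, rfl⟩ := ZFSet.pair_inj.1 he
      exact ⟨rfl, ha⟩
    · rintro ⟨rfl, hd⟩
      exact ⟨⟨hd, hd⟩, d, hd, rfl⟩
  have hrem : rem (ov π Set.univ) h = ZFSet.omega := by
    ext z
    unfold rem
    rw [ZFSet.mem_sep, mem_omega_iff]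
    constructor
    · rintro ⟨hz, hz'⟩
      rcases (mem_ov g).1 hz with ⟨i, -, rfl⟩ | ⟨m, -, rfl⟩
      · exact absurd ⟨_, (hmem _ _).2 ⟨rfl, (bN_mem_kv g).2 trivial⟩⟩ hz'
      · exact ⟨m, rfl⟩
    · rintro ⟨m, rfl⟩
      refine ⟨(nat_mem_ov g).2 (im_univ m), ?_⟩
      rintro ⟨d, hd⟩
      obtain ⟨rfl, h3⟩ := (hmem _ _).1 hd
      obtain ⟨i, -, h4⟩ := (mem_kv g).1 h3
      exact bN_ne_nat g i m h4.symm
  refine ⟨_, hX, τ, hτM, h, h1, ⟨isTop g hτ hM, isComp g hτ hM, isHaus g hτ, ?_, ?_, ?_⟩,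
    f, h2, ?_⟩
  · refine ⟨⟨fun z hz => (ZFSet.mem_sep.1 hz).1, fun d hd => ⟨d, (hmem d d).2 ⟨rfl, hd⟩,
      fun y hy => ((hmem d y).1 hy).1.symm⟩⟩, fun a b c h3 h4 => ?_⟩
    rw [((hmem _ _).1 h3).1, ((hmem _ _).1 h4).1]
  · intro S hS hSD
    refine ⟨fun _ => ?_, fun _ => hσ S hS hSD⟩
    obtain ⟨S₀, hS₀, rfl⟩ := exists_bs g hS hSD
    refine ⟨ov π S₀, ov_tau g hτ hS₀, fun d x hdx => ?_⟩
    obtain ⟨rfl, hd⟩ := (hmem _ _).1 hdx
    obtain ⟨i, -, rfl⟩ := (mem_kv g).1 hd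
    rw [bN_mem_ov g, bN_mem_kv g]
  · intro O hO hne
    obtain ⟨a, ha⟩ : ∃ a, a ∈ O := by
      by_contra hc
      exact hne ((ZFSet.eq_empty _).2 fun z hz => hc ⟨z, hz⟩)
    obtain ⟨S, hS, haS, hSO⟩ := ((hτ O).1 hO).2.2 a ha
    have h3 : ∃ i, i ∈ S := by
      rcases (mem_ov g).1 haS with ⟨i, hi, -⟩ | ⟨m, hm, -⟩
      · exact ⟨i, hi⟩
      · exact hm.inf.nonempty
    obtain ⟨i, hi⟩ := h3
    exact ⟨_, _, (hmem _ _).2 ⟨rfl, (bN_mem_kv g).2 trivial⟩, hSO ((bN_mem_ov g).2 hi)⟩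
  · rw [hrem]
    refine ⟨⟨⟨fun z hz => (ZFSet.mem_sep.1 hz).1, fun d hd => ⟨d, (hmemf d d).2 ⟨rfl, hd⟩,
      fun y hy => ((hmemf d y).1 hy).1.symm⟩⟩, fun a b c h3 h4 => ?_⟩, fun b hb =>
        ⟨b, hb, (hmemf b b).2 ⟨rfl, hb⟩⟩⟩
    rw [((hmemf _ _).1 h3).1, ((hmemf _ _).1 h4).1]

theorem not_fin (hM : IsZF ((K.sys D).Ms π)) : ¬ FinIn ((K.sys D).Ms π) (kv π Set.univ) := by
  rw [finIn_iff hM fun z hz => hM.trans _ (kv_univ_mem g) _ hz, kv_finite g]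
  exact Set.infinite_univ

end

/-- The discrete topology. -/
theorem disc {M : Set ZFSet.{0}} (hM : IsZF M) {X : ZFSet.{0}} (hX : X ∈ M) :
    ∃ σ ∈ M, (∀ z, z ∈ σ ↔ z ∈ M ∧ z ⊆ X) ∧ IsTop M X σ ∧ IsHaus X σ ∧ LocComp M X σ := by
  obtain ⟨σ, hσ, hσ'⟩ := hM.power _ hX
  have hB := hM.base
  have hsing : ∀ x ∈ X, ({x} : ZFSet.{0}) ∈ σ := fun x hx =>
    (hσ' _).2 ⟨hM.single_mem (hM.trans _ hX _ hx), fun z hz => by
      rw [ZFSet.mem_singleton.1 hz]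
      exact hx⟩
  refine ⟨σ, hσ, hσ', ⟨fun O hO => ((hσ' O).1 hO).2, ?_, ?_, ?_, ?_⟩, ?_, ?_⟩
  · exact (hσ' _).2 ⟨hM.empty_mem, fun z hz => absurd hz (ZFSet.notMem_empty _)⟩
  · exact (hσ' _).2 ⟨hX, subset_rfl⟩
  · intro U hU V hV
    obtain ⟨h1, h2⟩ := (hσ' U).1 hU
    obtain ⟨h1', h2'⟩ := (hσ' V).1 hV
    have h4 := hM.sep_mem (Q := fun z => z ∈ V) (by
      (repeat' first
        | assumption
        | exact DfnF.proj _
        | exact DfnF.const (by assumption)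
        | apply Dfn.mem)) h1
    have h5 : ZFSet.sep (fun z => z ∈ V) U = U ∩ V := by
      ext z
      rw [ZFSet.mem_sep, ZFSet.mem_inter]
    rw [h5] at h4
    exact (hσ' _).2 ⟨h4, fun z hz => h2 (ZFSet.mem_inter.1 hz).1⟩
  · intro C hC hCσ
    refine (hσ' _).2 ⟨hM.union _ hC, fun z hz => ?_⟩
    obtain ⟨O, hO, hz⟩ := ZFSet.mem_sUnion.1 hz
    exact ((hσ' O).1 (hCσ hO)).2 hz
  · intro x hx y hy hxy
    refine ⟨{x}, hsing x hx, {y}, hsing y hy, ZFSet.mem_singleton.2 rfl,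
      ZFSet.mem_singleton.2 rfl, ?_⟩
    rw [ZFSet.eq_empty]
    intro z hz
    rw [ZFSet.mem_inter, ZFSet.mem_singleton, ZFSet.mem_singleton] at hz
    exact hxy (hz.1.symm.trans hz.2)
  · intro x hx
    have hxM := hM.trans _ hX _ hx
    refine ⟨{x}, hM.single_mem hxM, ((hσ' _).1 (hsing x hx)).2, ⟨{x}, hsing x hx,
      ZFSet.mem_singleton.2 rfl, subset_rfl⟩, ?_⟩
    intro C hC hCσ hcov
    obtain ⟨O, hO, hxO⟩ := ZFSet.mem_sUnion.1 (hcov (ZFSet.mem_singleton.2 rfl))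
    have hOM := hM.trans _ hC _ hO
    refine ⟨{O}, hM.single_mem hOM, fun z hz => by
      rwa [ZFSet.mem_singleton.1 hz], (finIn_iff hM fun z hz => by
        rwa [ZFSet.mem_singleton.1 hz]).2 ?_, fun z hz => ?_⟩
    · refine (Set.finite_singleton O).subset fun z hz => ?_
      exact ZFSet.mem_singleton.1 hz
    · rw [ZFSet.mem_singleton.1 hz]
      exact ZFSet.mem_sUnion.2 ⟨O, ZFSet.mem_singleton.2 rfl, hxO⟩

theorem bs_countable : Bs.Countable := by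
  have h1 : Bs ⊆ Dfb D₀ := fun S hS => bs_dfb hS
  exact (of_D₀.countable ctb_D₀).mono h1

/-- The existence of the model. -/
theorem exists_model : ∃ π : Pkg P, Gk π ∧ IsZF ((K.sys D).Ms π) ∧ ((K.sys D).Ms π).Countable := by
  obtain ⟨π, hA, -, hcl⟩ := exists_pkg (K.sys D).rules (Set.Finite.countable (by
    unfold Sys.rules
    exact Set.toFinite _)) (Set.range K.xN ∪ (Set.range K.bN ∪ ((K.sN : Set J → PName P) '' Bs ∪
      (oN '' Bs ∪ ({wN, emp} ∪ (Set.range (fun t : ℕ × ℕ => Sys.nm P (A₁ t.1 t.2)) ∪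
        (Set.range (fun t : ℕ × ℕ => Sys.nm P (A₂ t.1 t.2)) ∪
          Set.range fun t : ℕ × J => Sys.nm P (A₃ t.1 t.2))))))))
    ((Set.countable_range _).union ((Set.countable_range _).union ((bs_countable.image _).union
      ((bs_countable.image _).union ((Set.toFinite _).countable.union
        ((Set.countable_range _).union ((Set.countable_range _).union
          (Set.countable_range _)))))))) ⊤
  have hCld : (K.sys D).Cld π := fun ρ hρ => hcl ρ hρ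
  have hM : IsZF ((K.sys D).Ms π) := SY.T_ZF.main SY.T_TRU.main SY.T_SEP.main _ _ π hCld
  refine ⟨π, ⟨fun a => hA (Or.inl ⟨a, rfl⟩), fun i => hA (Or.inr (Or.inl ⟨i, rfl⟩)),
    fun S hS => hA (Or.inr (Or.inr (Or.inl ⟨S, hS, rfl⟩))),
    fun S hS => hA (Or.inr (Or.inr (Or.inr (Or.inl ⟨S, hS, rfl⟩)))),
    hA (Or.inr (Or.inr (Or.inr (Or.inr (Or.inl (Or.inl rfl)))))),
    fun m n => hA (Or.inr (Or.inr (Or.inr (Or.inr (Or.inr (Or.inl ⟨(m, n), rfl⟩)))))),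
    fun m n => hA (Or.inr (Or.inr (Or.inr (Or.inr (Or.inr (Or.inr (Or.inl ⟨(m, n), rfl⟩))))))),
    fun n x => hA (Or.inr (Or.inr (Or.inr (Or.inr (Or.inr (Or.inr (Or.inr ⟨(n, x), rfl⟩))))))),
    hA (Or.inr (Or.inr (Or.inr (Or.inr (Or.inl (Or.inr rfl))))))⟩, hM,
    (π.cnt.mono fun _ h => h.1).image _⟩

/-- The main result. -/
theorem main : ∃ M : Set ZFSet.{0}, M.Countable ∧ IsZF M ∧ ∃ D ∈ M, ∃ σ ∈ M,
    (∀ z, z ∈ σ ↔ z ∈ M ∧ z ⊆ D) ∧ ¬ FinIn M D ∧ IsTop M D σ ∧ IsHaus D σ ∧ LocComp M D σ ∧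
      DenRem M D σ ∧ ¬ NInfRem M D σ := by
  obtain ⟨π, g, hM, hct⟩ := exists_model
  obtain ⟨σ, hσ, hσ', h1, h2, h3⟩ := disc hM (kv_univ_mem g)
  exact ⟨_, hct, hM, _, kv_univ_mem g, σ, hσ, hσ', not_fin g hM, h1, h2, h3,
    denRem g hM fun S hS hSD => (hσ' S).2 ⟨hS, hSD⟩,
    not_nInf g hM fun S hS hSD => (hσ' S).2 ⟨hS, hSD⟩⟩

end Pool.Agent.R598.PM.KM
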