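import Pool.Agent.R598.PM.Base
import Pool.Agent.R598.PM.Defs
import Pool.Agent.R598.CR.Main

/-!
# Permutation models realized by symmetric submodels: the power set of the set of atoms
-/

set_option autoImplicit false

namespace Pool.Agent.R598.PM

open Pool.Agent.W868 Pool.Agent.W868.PName Pool.Agent.R598.SY
open ZFSet (pair)

variable {I : Type}

/-! ### Sets of atoms with a support -/

variable (D : PD I)

/-- The sets of atoms with a support. -/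
def Dfb : Set (Set I) := {S | ∃ E : Finset I, ∃ H ∈ D.Φ, Sup D E H S}

/-- Each group of the filter has finitely many orbits. -/
def OF : Prop := ∀ E : Finset I, ∀ H ∈ D.Φ, ∃ (α : Type) (c : I → α), (Set.range c).Finite ∧
  ∀ x y, c x = c y → ∃ τ ∈ D.T, τ ∈ H ∧ (∀ e ∈ E, τ e = e) ∧ τ x = y

/-- The family of sets is invariant. -/
def Inv (𝒱 : Set (Set I)) : Prop := ∀ τ ∈ D.T, ∀ S ∈ 𝒱, τ '' S ∈ 𝒱

variable {D}

theorem OF.finite (h : OF D) (E : Finset I) {H : Subgroup (Equiv.Perm I)} (hH : H ∈ D.Φ) :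
    {S | Sup D E H S}.Finite := by
  obtain ⟨α, c, hc, h1⟩ := h E H hH
  refine Set.Finite.of_finite_image (f := fun S => c '' S)
    (hc.finite_subsets.subset ?_) ?_
  · rintro _ ⟨S, -, rfl⟩
    exact Set.image_subset_range c S
  · have key : ∀ S, Sup D E H S → ∀ S', Sup D E H S' → c '' S = c '' S' → S ⊆ S' := by
      intro S hS S' hS' he x hx
      have h2 : c x ∈ c '' S' := he ▸ Set.mem_image_of_mem c hx
      obtain ⟨y, hy, hyx⟩ := h2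
      obtain ⟨τ, h3, h4, h5, rfl⟩ := h1 y x hyx
      exact hS' τ h3 h4 h5 y hy
    intro S hS S' hS' he
    exact (key S hS S' hS' he).antisymm (key S' hS' S hS he.symm)

theorem OF.countable [Countable I] (h : OF D) (hΦ : D.Φ.Countable) : (Dfb D).Countable := by
  have h1 : Dfb D = ⋃ E : Finset I, ⋃ H ∈ D.Φ, {S | Sup D E H S} := by
    ext S
    simp [Dfb]
  rw [h1]
  exact Set.countable_iUnion fun E => hΦ.biUnion fun H hH => (h.finite E hH).countable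

theorem dfb_image {S : Set I} (h : S ∈ Dfb D) {τ : Equiv.Perm I} (hτ : τ ∈ D.T) :
    τ '' S ∈ Dfb D := by
  classical
  obtain ⟨E, H, hH, hS⟩ := h
  obtain ⟨E₀, K, hK, h1⟩ := D.conj H hH τ hτ
  refine ⟨E.image τ ∪ E₀, K, hK, ?_⟩
  rintro κ hκ hκK hfix _ ⟨x, hx, rfl⟩
  refine ⟨(τ⁻¹ * κ * τ) x, hS _ (D.T.mul_mem (D.T.mul_mem (D.T.inv_mem hτ) hκ) hτ)
    (h1 κ hκ hκK fun i hi => hfix i (Finset.mem_union_right _ hi)) ?_ x hx, ?_⟩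
  · intro i hi
    have h2 := hfix (τ i) (Finset.mem_union_left _ (Finset.mem_image_of_mem _ hi))
    change τ.symm (κ (τ i)) = i
    rw [h2, Equiv.symm_apply_apply]
  · change τ (τ.symm (κ (τ x))) = κ (τ x)
    rw [Equiv.apply_symm_apply]

theorem Sup.mono {E E' : Finset I} {H H' : Subgroup (Equiv.Perm I)} {S : Set I}
    (h : Sup D E H S) (hE : E ⊆ E') (hH : H' ≤ H) : Sup D E' H' S :=
  fun τ h1 h2 h3 => h τ h1 (hH h2) fun i hi => h3 i (hE hi)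

theorem Sup.iff {E : Finset I} {H : Subgroup (Equiv.Perm I)} {S : Set I} (h : Sup D E H S)
    {τ : Equiv.Perm I} (h1 : τ ∈ D.T) (h2 : τ ∈ H) (h3 : ∀ i ∈ E, τ i = i) (x : I) :
    τ x ∈ S ↔ x ∈ S := by
  constructor
  · intro hx
    have h4 := h τ⁻¹ (D.T.inv_mem h1) (H.inv_mem h2) (fun i hi => by
      rw [Equiv.Perm.inv_eq_iff_eq, h3 i hi]) _ hx
    change τ.symm (τ x) ∈ S at h4
    rwa [Equiv.symm_apply_apply] at h4
  · exact h τ h1 h2 h3 x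

theorem dfb_bool {S S' : Set I} (h : S ∈ Dfb D) (h' : S' ∈ Dfb D) {R : Set I}
    (hR : ∀ x y, (x ∈ S ↔ y ∈ S) → (x ∈ S' ↔ y ∈ S') → x ∈ R → y ∈ R) : R ∈ Dfb D := by
  classical
  obtain ⟨E, H, hH, hS⟩ := h
  obtain ⟨E', H', hH', hS'⟩ := h'
  obtain ⟨L, hL, h1, h2⟩ := D.dir H hH H' hH'
  have h3 := hS.mono (Finset.subset_union_left (s₂ := E')) h1
  have h4 := hS'.mono (Finset.subset_union_right (s₁ := E)) h2
  refine ⟨E ∪ E', L, hL, fun τ h5 h6 h7 x hx => ?_⟩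
  exact hR x (τ x) (h3.iff h5 h6 h7 x).symm (h4.iff h5 h6 h7 x).symm hx

theorem dfb_union {S S' : Set I} (h : S ∈ Dfb D) (h' : S' ∈ Dfb D) : S ∪ S' ∈ Dfb D :=
  dfb_bool h h' fun _ _ h1 h2 h3 => h3.imp h1.1 h2.1

theorem dfb_inter {S S' : Set I} (h : S ∈ Dfb D) (h' : S' ∈ Dfb D) : S ∩ S' ∈ Dfb D :=
  dfb_bool h h' fun _ _ h1 h2 h3 => ⟨h1.1 h3.1, h2.1 h3.2⟩

theorem dfb_diff {S S' : Set I} (h : S ∈ Dfb D) (h' : S' ∈ Dfb D) : S \ S' ∈ Dfb D :=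
  dfb_bool h h' fun _ _ h1 h2 h3 => ⟨h1.1 h3.1, fun h4 => h3.2 (h2.2 h4)⟩

theorem dfb_univ : (Set.univ : Set I) ∈ Dfb D := by
  obtain ⟨H, hH⟩ := D.ne
  exact ⟨∅, H, hH, fun _ _ _ _ _ _ => trivial⟩

theorem dfb_fin {S : Set I} (h : S.Finite) : S ∈ Dfb D := by
  classical
  obtain ⟨H, hH⟩ := D.ne
  refine ⟨h.toFinset, H, hH, fun τ _ _ h1 x hx => ?_⟩
  rw [h1 x (h.mem_toFinset.2 hx)]
  exact hx

/-- Finite modifications. -/
theorem dfb_mod {S S' : Set I} (h : S ∈ Dfb D) (h1 : (S \ S').Finite) (h2 : (S' \ S).Finite) :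
    S' ∈ Dfb D := by
  have h3 : S' = (S \ (S \ S')) ∪ (S' \ S) := by
    ext x
    simp only [Set.mem_union, Set.mem_sdiff]
    tauto
  rw [h3]
  exact dfb_union (dfb_diff h (dfb_fin h1)) (dfb_fin h2)

/-! ### Names -/

/-- The name for a set of sets of atoms. -/
noncomputable def vN (𝒱 : Set (Set I)) : PName (Cd I) :=
  PName.mk {S // S ∈ 𝒱} (fun S => sN S.1) (fun _ => ⊤)

/-- The name for a family of sets of sets of atoms. -/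
noncomputable def fN {ι : Type} (k : ι → PName (Cd I)) (V : ι → Set (Set I)) : PName (Cd I) :=
  PName.mk ι (fun n => opN (k n) (vN (V n))) (fun _ => ⊤)

theorem el_vN {𝒱 : Set (Set I)} {z : PName (Cd I)} {c : Cd I} :
    El (vN 𝒱) z c ↔ ∃ S ∈ 𝒱, z = sN S ∧ c = ⊤ := by
  rw [vN, el_mk]
  constructor
  · rintro ⟨⟨i, hi⟩, rfl, rfl⟩
    exact ⟨i, hi, rfl, rfl⟩
  · rintro ⟨i, hi, rfl, rfl⟩
    exact ⟨⟨i, hi⟩, rfl, rfl⟩

theorem el_fN {ι : Type} {k : ι → PName (Cd I)} {V : ι → Set (Set I)} {z : PName (Cd I)}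
    {c : Cd I} : El (fN k V) z c ↔ ∃ n, z = opN (k n) (vN (V n)) ∧ c = ⊤ := by
  rw [fN, el_mk]
  constructor
  · rintro ⟨n, rfl, rfl⟩
    exact ⟨n, rfl, rfl⟩
  · rintro ⟨n, rfl, rfl⟩
    exact ⟨n, rfl, rfl⟩

theorem act_vN {𝒱 : Set (Set I)} (h : Inv D 𝒱) (ρ : (sys D).G) (p : Cd I) :
    Feq (act ((sys D).ac ρ) (vN 𝒱)) (vN 𝒱) p := by
  obtain ⟨τ, hτ, hρ⟩ := ρ.2
  rw [feq_iff']
  constructor
  · intro a c ha q hq hqc
    obtain ⟨z, d, hz, rfl, rfl⟩ := el_act.1 ha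
    obtain ⟨S, hS, rfl, rfl⟩ := el_vN.1 hz
    exact ⟨q, le_rfl, _, ⊤, el_vN.2 ⟨_, h τ hτ S hS, rfl, rfl⟩, le_top, act_sN hρ S q⟩
  · intro a c ha q hq hqc
    obtain ⟨S, hS, rfl, rfl⟩ := el_vN.1 ha
    refine ⟨q, le_rfl, _, ⊤, el_act.2 ⟨_, ⊤, el_vN.2 ⟨_, h τ⁻¹ (D.T.inv_mem hτ) S hS, rfl, rfl⟩,
      rfl, ((sys D).top ρ).symm⟩, le_top, ?_⟩
    have h1 := act_sN hρ (⇑(τ⁻¹ : Equiv.Perm I) '' S) q
    rwa [← Set.image_comp, show ⇑τ ∘ ⇑(τ⁻¹ : Equiv.Perm I) = id from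
      funext fun i => Equiv.apply_symm_apply τ i, Set.image_id] at h1

theorem hs_sN' {S : Set I} (h : S ∈ Dfb D) : (sys D).HS (sN S) := by
  obtain ⟨E, H, hH, h⟩ := h
  exact hs_sN hH h

theorem hs_vN {𝒱 : Set (Set I)} (h : Inv D 𝒱) (h' : 𝒱 ⊆ Dfb D) : (sys D).HS (vN 𝒱) := by
  obtain ⟨H, hH⟩ := D.ne
  refine (sys D).hs_iff.2 ⟨⟨_, ⟨∅, H, hH, rfl⟩, fun ρ _ p => act_vN h ρ p⟩, fun z c hz => ?_⟩
  obtain ⟨S, hS, rfl, rfl⟩ := el_vN.1 hz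
  exact hs_sN' (h' hS)

theorem hs_fN {ι : Type} {k : ι → PName (Cd I)} {V : ι → Set (Set I)}
    (hk : ∀ n, (sys D).HS (k n)) (hk' : ∀ n (ρ : (sys D).G), act ((sys D).ac ρ) (k n) = k n)
    (h : ∀ n, Inv D (V n)) (h' : ∀ n, V n ⊆ Dfb D) : (sys D).HS (fN k V) := by
  obtain ⟨H, hH⟩ := D.ne
  refine (sys D).hs_iff.2 ⟨⟨_, ⟨∅, H, hH, rfl⟩, fun ρ _ p => ?_⟩, fun z c hz => ?_⟩
  · have key : ∀ n q, Feq (act ((sys D).ac ρ) (opN (k n) (vN (V n)))) (opN (k n) (vN (V n))) q := by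
      intro n q
      rw [act_opN ((sys D).top ρ)]
      refine feq_opN ?_ (act_vN (h n) ρ q)
      rw [hk' n ρ]
      exact Feq.refl _ _
    rw [feq_iff']
    constructor
    · intro a c ha q hq hqc
      obtain ⟨z, d, hz, rfl, rfl⟩ := el_act.1 ha
      obtain ⟨n, rfl, rfl⟩ := el_fN.1 hz
      exact ⟨q, le_rfl, _, ⊤, el_fN.2 ⟨n, rfl, rfl⟩, le_top, key n q⟩
    · intro a c ha q hq hqc
      obtain ⟨n, rfl, rfl⟩ := el_fN.1 ha
      exact ⟨q, le_rfl, _, ⊤, el_act.2 ⟨_, ⊤, el_fN.2 ⟨n, rfl, rfl⟩,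
        rfl, ((sys D).top ρ).symm⟩, le_top, key n q⟩
  · obtain ⟨n, rfl, rfl⟩ := el_fN.1 hz
    exact (sys D).hs_opN (hk n) (hs_vN (h n) (h' n))

/-! ### The model -/

variable (D) in
/-- The package contains the basic names. -/
structure Gd (π : Pkg (Cd I)) : Prop where
  b : ∀ i, bN i ∈ π.N
  s : ∀ S ∈ Dfb D, sN S ∈ π.N

/-- The set of the atoms with index in `S`. -/
noncomputable def ev (π : Pkg (Cd I)) (S : Set I) : ZFSet.{0} := π.val (sN S)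

section

variable {π : Pkg (Cd I)} (g : Gd D π)

include g

theorem val_bN_inj {i k : I} (h : π.val (bN i) = π.val (bN k)) : i = k := by
  by_contra hik
  obtain ⟨n, hn⟩ := (π.val_eq_iff (g.b i) (g.b k)).1 h
  exact not_feq_bN hik _ hn

theorem mem_ev {S : Set I} {z : ZFSet.{0}} : z ∈ ev π S ↔ ∃ i ∈ S, z = π.val (bN i) := by
  unfold ev
  rw [π.mem_val]
  constructor
  · rintro ⟨y, hy, c, hc, -, rfl⟩
    obtain ⟨i, hi, rfl, -⟩ := el_sN.1 hc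
    exact ⟨i, hi, rfl⟩
  · rintro ⟨i, hi, rfl⟩
    exact ⟨bN i, g.b i, ⊤, el_sN.2 ⟨i, hi, rfl, rfl⟩, ⟨0, le_top⟩, rfl⟩

theorem bN_mem_ev {S : Set I} {i : I} : π.val (bN i) ∈ ev π S ↔ i ∈ S := by
  rw [mem_ev g]
  constructor
  · rintro ⟨k, hk, h⟩
    rwa [val_bN_inj g h]
  · exact fun h => ⟨i, h, rfl⟩

theorem ev_subset {S S' : Set I} : ev π S ⊆ ev π S' ↔ S ⊆ S' := by
  constructor
  · intro h i hi
    exact (bN_mem_ev g).1 (h ((bN_mem_ev g).2 hi))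
  · intro h z hz
    obtain ⟨i, hi, rfl⟩ := (mem_ev g).1 hz
    exact (bN_mem_ev g).2 (h hi)

theorem ev_inj {S S' : Set I} (h : ev π S = ev π S') : S = S' := by
  ext i
  rw [← bN_mem_ev g, h, bN_mem_ev g]

theorem ev_union {S S' : Set I} : ev π S ∪ ev π S' = ev π (S ∪ S') := by
  ext z
  rw [ZFSet.mem_union, mem_ev g, mem_ev g, mem_ev g]
  constructor
  · rintro (⟨i, hi, rfl⟩ | ⟨i, hi, rfl⟩)
    · exact ⟨i, Or.inl hi, rfl⟩
    · exact ⟨i, Or.inr hi, rfl⟩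
  · rintro ⟨i, hi | hi, rfl⟩
    · exact Or.inl ⟨i, hi, rfl⟩
    · exact Or.inr ⟨i, hi, rfl⟩

theorem ev_inter {S S' : Set I} : ev π S ∩ ev π S' = ev π (S ∩ S') := by
  ext z
  rw [ZFSet.mem_inter]
  constructor
  · rintro ⟨h, h'⟩
    obtain ⟨i, hi, rfl⟩ := (mem_ev g).1 h
    exact (bN_mem_ev g).2 ⟨hi, (bN_mem_ev g).1 h'⟩
  · intro h
    obtain ⟨i, hi, rfl⟩ := (mem_ev g).1 h
    exact ⟨(bN_mem_ev g).2 hi.1, (bN_mem_ev g).2 hi.2⟩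

theorem ev_diff {S S' : Set I} : ev π S \ ev π S' = ev π (S \ S') := by
  ext z
  rw [ZFSet.mem_sdiff]
  constructor
  · rintro ⟨h, h'⟩
    obtain ⟨i, hi, rfl⟩ := (mem_ev g).1 h
    exact (bN_mem_ev g).2 ⟨hi, fun h2 => h' ((bN_mem_ev g).2 h2)⟩
  · intro h
    obtain ⟨i, hi, rfl⟩ := (mem_ev g).1 h
    exact ⟨(bN_mem_ev g).2 hi.1, fun h2 => hi.2 ((bN_mem_ev g).1 h2)⟩

theorem ev_empty : ev π ∅ = ∅ := by
  rw [ZFSet.eq_empty]
  intro z hz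
  obtain ⟨i, hi, -⟩ := (mem_ev g).1 hz
  exact hi

theorem ev_sep {Q : ZFSet.{0} → Prop} {S : Set I} :
    ZFSet.sep Q (ev π S) = ev π {i | i ∈ S ∧ Q (π.val (bN i))} := by
  ext z
  rw [ZFSet.mem_sep]
  constructor
  · rintro ⟨h, h'⟩
    obtain ⟨i, hi, rfl⟩ := (mem_ev g).1 h
    exact (bN_mem_ev g).2 ⟨hi, h'⟩
  · intro h
    obtain ⟨i, hi, rfl⟩ := (mem_ev g).1 h
    exact ⟨(bN_mem_ev g).2 hi.1, hi.2⟩

theorem ev_mem {S : Set I} (h : S ∈ Dfb D) : ev π S ∈ (sys D).Ms π :=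
  ⟨_, ⟨g.s S h, hs_sN' h⟩, rfl⟩

theorem ev_finite {S : Set I} : {z | z ∈ ev π S}.Finite ↔ S.Finite := by
  have h1 : {z | z ∈ ev π S} = (fun i => π.val (bN i)) '' S := by
    ext z
    rw [Set.mem_ofPred_eq, mem_ev g]
    constructor
    · rintro ⟨i, hi, rfl⟩
      exact ⟨i, hi, rfl⟩
    · rintro ⟨i, hi, rfl⟩
      exact ⟨i, hi, rfl⟩
  rw [h1]
  exact Set.finite_image_iff fun i _ k _ h => val_bN_inj g h

theorem finIn_ev (hM : IsZF ((sys D).Ms π)) {S : Set I} :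
    FinIn ((sys D).Ms π) (ev π S) ↔ S.Finite := by
  constructor
  · rintro ⟨n, h⟩
    by_contra hS
    have h1 : {z | z ∈ ev π S}.Infinite := fun h2 => hS ((ev_finite g).1 h2)
    exact CR.infIn_of_infinite (M := (sys D).Ms π) h1 n h
  · intro hS
    by_contra h
    have h1 : CR.InfIn ((sys D).Ms π) (ev π S) := fun n hn => h ⟨n, hn⟩
    exact CR.InfIn.infinite hM (ev_mem g (dfb_fin hS)) h1 ((ev_finite g).2 hS)

omit g in
theorem exists_supp {x : ZFSet.{0}} (hx : x ∈ (sys D).Ms π) :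
    ∃ t ∈ π.N, π.val t = x ∧ ∃ E, ∃ H ∈ D.Φ, (sys D).Fix (fixE D E H) t := by
  obtain ⟨t, ⟨ht, hs⟩, rfl⟩ := hx
  obtain ⟨_, ⟨E, H, hH, rfl⟩, hE⟩ := hs.sym
  exact ⟨t, ht, rfl, E, H, hH, hE⟩

/-- The subsets of the set of atoms. -/
theorem exists_dfb {X : ZFSet.{0}} (hX : X ∈ (sys D).Ms π) (hXA : X ⊆ ev π Set.univ) :
    ∃ S ∈ Dfb D, X = ev π S := by
  classical
  obtain ⟨t, ht, rfl, E, H, hH, hE⟩ := exists_supp hX
  refine ⟨{i | π.val (bN i) ∈ π.val t}, ⟨E.image Prod.fst, H, hH, fun τ h1 h2 h3 i hi => ?_⟩, ?_⟩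
  · exact move ht (g.b _) (g.b _) hE h1 h2 (fun a ha => h3 _ (Finset.mem_image_of_mem _ ha))
      (fun ρ hρ p => act_bN hρ i p) hi
  · ext z
    rw [mem_ev g]
    constructor
    · intro hz
      obtain ⟨i, -, rfl⟩ := (mem_ev g).1 (hXA hz)
      exact ⟨i, hz, rfl⟩
    · rintro ⟨i, hi, rfl⟩
      exact hi

/-- The supports of the sequences. -/
theorem exists_seq {r : ZFSet.{0}} (hr : r ∈ (sys D).Ms π) : ∃ E : Finset I, ∃ H ∈ D.Φ,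
    ∀ τ ∈ D.T, τ ∈ H → (∀ i ∈ E, τ i = i) → ∀ n : ℕ, ∀ S ∈ Dfb D,
      pair (nat n) (ev π S) ∈ r → pair (nat n) (ev π (τ '' S)) ∈ r := by
  classical
  obtain ⟨t, ht, rfl, E, H, hH, hE⟩ := exists_supp hr
  refine ⟨E.image Prod.fst, H, hH, fun τ h1 h2 h3 n S hS h => ?_⟩
  have hn : check (nat n) ∈ π.N := π.nat_Z n
  have hn' : π.val (check (nat n)) = nat n := π.hat_nat n
  have hS1 := g.s S hS
  have hS2 := g.s _ (dfb_image hS h1)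
  unfold ev at h ⊢
  rw [← hn', ← π.val_opN hn hS1] at h
  rw [← hn', ← π.val_opN hn hS2]
  refine move ht (π.opN_mem hn hS1) (π.opN_mem hn hS2) hE h1 h2
    (fun a ha => h3 _ (Finset.mem_image_of_mem _ ha)) (fun ρ hρ p => ?_) h
  rw [act_opN ((sys D).top ρ), act_check ((sys D).top ρ)]
  exact feq_opN (Feq.refl _ _) (act_sN hρ S p)

theorem mem_vN {𝒱 : Set (Set I)} (h : 𝒱 ⊆ Dfb D) {z : ZFSet.{0}} :
    z ∈ π.val (vN 𝒱) ↔ ∃ S ∈ 𝒱, z = ev π S := by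
  rw [π.mem_val]
  constructor
  · rintro ⟨y, hy, c, hc, -, rfl⟩
    obtain ⟨S, hS, rfl, -⟩ := el_vN.1 hc
    exact ⟨S, hS, rfl⟩
  · rintro ⟨S, hS, rfl⟩
    exact ⟨sN S, g.s S (h hS), ⊤, el_vN.2 ⟨S, hS, rfl, rfl⟩, ⟨0, le_top⟩, rfl⟩

omit g in
theorem mem_fN {ι : Type} {k : ι → PName (Cd I)} {V : ι → Set (Set I)}
    (hk : ∀ n, k n ∈ π.N) (hV : ∀ n, vN (V n) ∈ π.N) {x y : ZFSet.{0}} :
    pair x y ∈ π.val (fN k V) ↔ ∃ n, x = π.val (k n) ∧ y = π.val (vN (V n)) := by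
  rw [π.mem_val]
  constructor
  · rintro ⟨w, hw, c, hc, -, h⟩
    obtain ⟨n, rfl, -⟩ := el_fN.1 hc
    rw [π.val_opN (hk n) (hV n)] at h
    obtain ⟨h1, h2⟩ := ZFSet.pair_inj.1 h
    exact ⟨n, h1.symm, h2.symm⟩
  · rintro ⟨n, rfl, rfl⟩
    exact ⟨_, π.opN_mem (hk n) (hV n), ⊤, el_fN.2 ⟨n, rfl, rfl⟩, ⟨0, le_top⟩,
      π.val_opN (hk n) (hV n)⟩

end

/-- The existence of the model. -/
theorem exists_model [Countable I] (hof : OF D) (hΦ : D.Φ.Countable) (X : Set (PName (Cd I)))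
    (hX : X.Countable) : ∃ π : Pkg (Cd I), Gd D π ∧ IsZF ((sys D).Ms π) ∧
      ((sys D).Ms π).Countable ∧ X ⊆ π.N := by
  obtain ⟨π, hA, -, hcl⟩ := exists_pkg (sys D).rules (Set.Finite.countable (by
    unfold Sys.rules
    exact Set.toFinite _)) ((X ∪ Set.range bN) ∪ (sN '' Dfb D))
    ((hX.union (Set.countable_range _)).union ((hof.countable hΦ).image _)) ⊤
  have hCld : (sys D).Cld π := fun ρ hρ => hcl ρ hρ
  have hM : IsZF ((sys D).Ms π) := SY.T_ZF.main SY.T_TRU.main SY.T_SEP.main _ _ π hCld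
  exact ⟨π, ⟨fun i => hA (Or.inl (Or.inr ⟨i, rfl⟩)), fun S hS => hA (Or.inr ⟨S, hS, rfl⟩)⟩, hM,
    (π.cnt.mono fun _ h => h.1).image _, fun x hx => hA (Or.inl (Or.inl hx))⟩

end Pool.Agent.R598.PM
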