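import Pool.Agent.R598.PM.FS

/-!
# A strongly filterbase infinite set that is not dyadically filterbase infinite
-/

set_option autoImplicit false

namespace Pool.Agent.R598.PM.St

open Pool.Agent.W868 Pool.Agent.W868.PName Pool.Agent.R598.SY
open ZFSet (pair)

theorem mono (n m : ℕ) (h : n ≤ m) (x y : ℕ × ℕ) (h' : min x.1 m = min y.1 m) :
    min x.1 n = min y.1 n := by
  omega

/-- The permutation model. -/
noncomputable def D : PD (ℕ × ℕ) := mkPD (fun n x => min x.1 n) mono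

/-- The columns. -/
def Cl (n : ℕ) : Set (ℕ × ℕ) := {x | x.1 = n}

theorem Cl_dfb (n : ℕ) : Cl n ∈ Dfb D := by
  refine dfb_mkPD' (n + 1) fun x y h hx => ?_
  have h1 : x.1 = n := hx
  have h2 : min x.1 (n + 1) = min y.1 (n + 1) := h
  change y.1 = n
  omega

theorem Cl_inf (n : ℕ) : (Cl n).Infinite := by
  refine Set.infinite_of_injective_forall_mem (f := fun m : ℕ => (n, m)) ?_ fun m => rfl
  intro m m' h
  exact (Prod.mk.inj h).2

theorem of_D : OF D := of_mkPD fun n =>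
  (Set.finite_Iic n).subset (by rintro _ ⟨x, rfl⟩; exact Nat.min_le_right x.1 n)

/-- The names of the indices. -/
noncomputable def kN (n : ℕ) : PName (Cd (ℕ × ℕ)) := check (nat n)

theorem strongInf {π : Pkg (Cd (ℕ × ℕ))} (g : Gd D π) (hM : IsZF ((sys D).Ms π))
    (hv : ∀ n : ℕ, vN (md _ (Cl n)) ∈ π.N) (hf : fN kN (fun n => md _ (Cl n)) ∈ π.N) :
    StrongInf ((sys D).Ms π) (ev π Set.univ) := by
  have hk : ∀ t, kN t ∈ π.N := fun t => π.nat_Z _
  have hkv : ∀ t, π.val (kN t) = nat t := fun t => π.hat_nat t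
  have hmem : ∀ n {z}, z ∈ π.val (vN (md _ (Cl n))) ↔ ∃ S ∈ md _ (Cl n), z = ev π S :=
    fun n {z} => mem_vN g (md_dfb (Cl_dfb n))
  refine ⟨π.val (fN kN fun n => md _ (Cl n)), ⟨_, ⟨hf, hs_fN (fun t => ?_) (fun t ρ => ?_)
    (fun t => inv_md _) (fun t => md_dfb (Cl_dfb _))⟩, rfl⟩, fun n => π.val (vN (md _ (Cl n))),
    ?_, fun n => fbi_md g hM (Cl_dfb n) (Cl_inf n), fun n => fin_md g hM (Cl_dfb n), ?_, ?_⟩
  · exact (sys D).hs_check _
  · exact act_check ((sys D).top ρ) _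
  · intro n y
    rw [mem_fN hk hv]
    constructor
    · rintro ⟨t, h1, h2⟩
      rw [hkv] at h1
      rw [h2, nat_injective h1]
    · rintro rfl
      exact ⟨n, (hkv n).symm, rfl⟩
  · intro i j hij
    refine ⟨_, (hmem _).2 ⟨_, Fe.refl _, rfl⟩, _, (hmem _).2 ⟨_, Fe.refl _, rfl⟩, ?_⟩
    rw [ev_inter g, finIn_ev g hM]
    refine Set.finite_empty.subset fun x hx => ?_
    have h1 : x.1 = i := hx.1
    have h2 : x.1 = j := hx.2
    exact hij (h1.symm.trans h2)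
  · intro n c hc
    rw [ev_sep g, finIn_ev g hM]
    intro hfin
    have h1 : ∀ i ∈ Finset.range n, ({x | π.val (bN x) ∈ c i} \ Cl i).Finite := by
      intro i hi
      obtain ⟨S, hS, h2⟩ := (hmem i).1 (hc i (Finset.mem_range.1 hi))
      refine hS.1.subset fun x hx => ⟨?_, hx.2⟩
      have h3 : π.val (bN x) ∈ c i := hx.1
      rw [h2] at h3
      exact (bN_mem_ev g).1 h3
    refine Cl_inf n ((((Finset.range n).finite_toSet.biUnion h1).union hfin).subset fun x hx => ?_)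
    by_cases h2 : ∃ i < n, π.val (bN x) ∈ c i
    · obtain ⟨i, hi, h3⟩ := h2
      refine Or.inl (Set.mem_iUnion₂.2 ⟨i, Finset.mem_coe.2 (Finset.mem_range.2 hi), h3, ?_⟩)
      intro h4
      have h5 : x.1 = n := hx
      have h6 : x.1 = i := h4
      omega
    · exact Or.inr ⟨trivial, fun i hi h3 => h2 ⟨i, hi, h3⟩⟩

/-! ### The other part -/

theorem type {S : Set (ℕ × ℕ)} (h : S ∈ Dfb D) :
    (∃ F : Finset ℕ, Fe S {x | x.1 ∈ F}) ∨ ∃ F : Finset ℕ, Fe S {x | x.1 ∉ F} := by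
  classical
  obtain ⟨E, n, hE⟩ := dfb_mkPD h
  have h1 : ∀ x ∉ E, (x ∈ S ↔ ∃ y, y ∉ E ∧ min y.1 n = min x.1 n ∧ y ∈ S) := by
    intro x hx
    constructor
    · exact fun h => ⟨x, hx, rfl, h⟩
    · rintro ⟨y, hy, h2, h3⟩
      exact hE y hy x hx h2 h3
  have h2 : ∀ R : Set (ℕ × ℕ), (∀ x ∉ E, (x ∈ S ↔ x ∈ R)) → Fe S R := by
    intro R hR
    constructor
    · refine E.finite_toSet.subset fun x hx => ?_
      by_contra hc
      exact hx.2 ((hR x hc).1 hx.1)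
    · refine E.finite_toSet.subset fun x hx => ?_
      by_contra hc
      exact hx.2 ((hR x hc).2 hx.1)
  let P : ℕ → Prop := fun k => ∃ y, y ∉ E ∧ min y.1 n = min k n ∧ y ∈ S
  have hP : ∀ k, n ≤ k → (P k ↔ P n) := by
    intro k hk
    change (∃ y, y ∉ E ∧ min y.1 n = min k n ∧ y ∈ S) ↔
      ∃ y, y ∉ E ∧ min y.1 n = min n n ∧ y ∈ S
    rw [min_eq_right hk, min_self]
  by_cases hPn : P n
  · refine Or.inr ⟨(Finset.range n).filter fun k => ¬ P k, h2 _ fun x hx => ?_⟩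
    rw [h1 x hx]
    change P x.1 ↔ x.1 ∉ (Finset.range n).filter fun k => ¬ P k
    rw [Finset.mem_filter, Finset.mem_range]
    constructor
    · exact fun h3 h4 => h4.2 h3
    · intro h3
      by_contra h4
      refine h3 ⟨?_, h4⟩
      by_contra h5
      exact h4 ((hP _ (not_lt.1 h5)).2 hPn)
  · refine Or.inl ⟨(Finset.range n).filter fun k => P k, h2 _ fun x hx => ?_⟩
    rw [h1 x hx]
    change P x.1 ↔ x.1 ∈ (Finset.range n).filter fun k => P k
    rw [Finset.mem_filter, Finset.mem_range]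
    constructor
    · intro h4
      refine ⟨?_, h4⟩
      by_contra h5
      exact hPn ((hP _ (not_lt.1 h5)).1 h4)
    · exact fun h3 => h3.2

section

variable {π : Pkg (Cd (ℕ × ℕ))} (g : Gd D π) (hM : IsZF ((sys D).Ms π))
  {V : ℕ → ℕ → ZFSet.{0}}
  (hV : ∀ n i, 1 ≤ n → 1 ≤ i → i ≤ 2 ^ n → ∀ U ∈ V n i, ∃ S ∈ Dfb D, U = ev π S)
  (hne : ∀ n i, 1 ≤ n → 1 ≤ i → i ≤ 2 ^ n → ∃ U, U ∈ V n i)
  (hinf : ∀ n i, 1 ≤ n → 1 ≤ i → i ≤ 2 ^ n → ∀ S, ev π S ∈ V n i → S.Infinite)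
  (h3 : ∀ n, 1 ≤ n → ∀ i j, 1 ≤ i → i ≤ 2 ^ n → 1 ≤ j → j ≤ 2 ^ n → i ≠ j →
    ∀ W ∈ V n i, ∀ G ∈ V n j, ∃ U ∈ V (n + 1) (2 * i - 1), ∃ U' ∈ V (n + 1) (2 * i),
          FinIn ((sys D).Ms π) ((U ∪ U') \ W) ∧ FinIn ((sys D).Ms π) ((U ∪ U') ∩ G))
  (h4 : ∀ n, 1 ≤ n → ∀ c : ℕ → ZFSet.{0}, (∀ i, 1 ≤ i → i ≤ 2 ^ n → c i ∈ V n i) →
        FinIn ((sys D).Ms π) (ZFSet.sep (fun z => ∀ i, 1 ≤ i → i ≤ 2 ^ n → z ∉ c i)
          (ev π Set.univ)))

include g hM hV hne h3 h4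

theorem almost_disj {n i j : ℕ} (hn : 1 ≤ n) (hi : 1 ≤ i) (hi' : i ≤ 2 ^ n) (hj : 1 ≤ j)
    (hj' : j ≤ 2 ^ n) (hij : i ≠ j) {S S' : Set (ℕ × ℕ)} (hS : ev π S ∈ V n i)
    (hS' : ev π S' ∈ V n j) : (S ∩ S').Finite := by
  have h1 : ∀ l, ∃ R R' : Set (ℕ × ℕ), 1 ≤ l → l ≤ 2 ^ n →
      ev π R ∈ V (n + 1) (2 * l - 1) ∧ ev π R' ∈ V (n + 1) (2 * l) ∧
        ((R ∪ R') ∩ (S ∩ S')).Finite := by
    intro l
    by_cases hl : 1 ≤ l ∧ l ≤ 2 ^ n
    · have hl2 : 2 * l ≤ 2 ^ (n + 1) := by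
        rw [pow_succ]
        omega
      obtain ⟨W, hW⟩ := hne n l hn hl.1 hl.2
      by_cases hlj : l = j
      · subst hlj
        obtain ⟨U, hU, U', hU', -, h5⟩ := h3 n hn l i hl.1 hl.2 hi hi' hij.symm W hW _ hS
        obtain ⟨R, -, rfl⟩ := hV _ _ (by omega) (by omega) (by omega) U hU
        obtain ⟨R', -, rfl⟩ := hV _ _ (by omega) (by omega) (by omega) U' hU'
        rw [ev_union g, ev_inter g, finIn_ev g hM] at h5
        exact ⟨R, R', fun _ _ => ⟨hU, hU', h5.subset fun x hx => ⟨hx.1, hx.2.1⟩⟩⟩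
      · obtain ⟨U, hU, U', hU', -, h5⟩ := h3 n hn l j hl.1 hl.2 hj hj' hlj W hW _ hS'
        obtain ⟨R, -, rfl⟩ := hV _ _ (by omega) (by omega) (by omega) U hU
        obtain ⟨R', -, rfl⟩ := hV _ _ (by omega) (by omega) (by omega) U' hU'
        rw [ev_union g, ev_inter g, finIn_ev g hM] at h5
        exact ⟨R, R', fun _ _ => ⟨hU, hU', h5.subset fun x hx => ⟨hx.1, hx.2.2⟩⟩⟩
    · exact ⟨∅, ∅, fun h h' => absurd ⟨h, h'⟩ hl⟩
  choose R R' h1 using h1
  have h5 := h4 (n + 1) (by omega) (fun k => if k % 2 = 1 then ev π (R ((k + 1) / 2)) else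
    ev π (R' (k / 2))) (by
      intro k hk hk'
      rw [pow_succ] at hk'
      by_cases h6 : k % 2 = 1
      · simp only [if_pos h6]
        have h7 := (h1 ((k + 1) / 2) (by omega) (by omega)).1
        rwa [show 2 * ((k + 1) / 2) - 1 = k by omega] at h7
      · simp only [if_neg h6]
        have h7 := (h1 (k / 2) (by omega) (by omega)).2.1
        rwa [show 2 * (k / 2) = k by omega] at h7)
  rw [ev_sep g, finIn_ev g hM] at h5
  have h6 : ∀ l ∈ Finset.Icc 1 (2 ^ n), ((R l ∪ R' l) ∩ (S ∩ S')).Finite := by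
    intro l hl
    rw [Finset.mem_Icc] at hl
    exact (h1 l hl.1 hl.2).2.2
  refine (((Finset.Icc 1 (2 ^ n)).finite_toSet.biUnion h6).union h5).subset fun x hx => ?_
  by_cases h7 : ∃ l ∈ Finset.Icc 1 (2 ^ n), x ∈ R l ∪ R' l
  · obtain ⟨l, hl, h8⟩ := h7
    exact Or.inl (Set.mem_iUnion₂.2 ⟨l, Finset.mem_coe.2 hl, h8, hx⟩)
  · refine Or.inr ⟨trivial, fun k hk hk' h8 => ?_⟩
    rw [pow_succ] at hk'
    by_cases h9 : k % 2 = 1
    · rw [if_pos h9] at h8
      exact h7 ⟨(k + 1) / 2, Finset.mem_Icc.2 ⟨by omega, by omega⟩,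
        Or.inl ((bN_mem_ev g).1 h8)⟩
    · rw [if_neg h9] at h8
      exact h7 ⟨k / 2, Finset.mem_Icc.2 ⟨by omega, by omega⟩,
        Or.inr ((bN_mem_ev g).1 h8)⟩

include hinf

theorem descent (m : ℕ) : ∀ n, 1 ≤ n → ∀ i, 1 ≤ i → i ≤ 2 ^ n → ∀ S, ev π S ∈ V n i →
    ∀ F : Finset ℕ, F.card = m → Fe S {x | x.1 ∈ F} → False := by
  induction m using Nat.strong_induction_on with
  | _ m ih =>
    intro n hn i hi hi' S hS F hF hSF
    have hn2 : 2 ≤ 2 ^ n := by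
      calc 2 = 2 ^ 1 := rfl
        _ ≤ 2 ^ n := Nat.pow_le_pow_right (by omega) hn
    have hi2 : 2 * i ≤ 2 ^ (n + 1) := by
      rw [pow_succ]
      omega
    obtain ⟨j, hj, hj', hij⟩ : ∃ j, 1 ≤ j ∧ j ≤ 2 ^ n ∧ i ≠ j := by
      by_cases h : i = 1
      · exact ⟨2, by omega, hn2, by omega⟩
      · exact ⟨1, le_rfl, by omega, h⟩
    obtain ⟨G, hG⟩ := hne n j hn hj hj'
    obtain ⟨U, hU, U', hU', h5, -⟩ := h3 n hn i j hi hi' hj hj' hij _ hS _ hG
    obtain ⟨R, hR, rfl⟩ := hV _ _ (by omega) (by omega) (by omega) U hU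
    obtain ⟨R', hR', rfl⟩ := hV _ _ (by omega) (by omega) (by omega) U' hU'
    rw [ev_union g, ev_diff g, finIn_ev g hM] at h5
    have h6 : (R \ S).Finite := h5.subset fun x hx => ⟨Or.inl hx.1, hx.2⟩
    have h7 : (R' \ S).Finite := h5.subset fun x hx => ⟨Or.inr hx.1, hx.2⟩
    have h8 := almost_disj g hM hV hne h3 h4 (by omega : 1 ≤ n + 1)
      (by omega : 1 ≤ 2 * i - 1) (by omega) (by omega : 1 ≤ 2 * i) hi2 (by omega) hU hU'
    have h9 : (R' : Set (ℕ × ℕ)).Infinite := hinf _ _ (by omega) (by omega) (by omega) R' hU'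
    rcases type hR with ⟨F₁, hF₁⟩ | ⟨F₁, hF₁⟩
    · have h10 : ∀ k ∈ F₁, k ∈ F := by
        intro k hk
        by_contra hc
        refine Cl_inf k ((diff_fin (diff_fin hF₁.2 h6) hSF.1).subset fun x hx => ?_)
        have h11 : x.1 = k := hx
        refine ⟨?_, fun h12 => ?_⟩
        · change x.1 ∈ F₁
          rw [h11]
          exact hk
        · apply hc
          rw [← h11]
          exact h12
      have h11 : F₁ ≠ F := by
        rintro rfl
        refine h9 ((h8.union (diff_fin (diff_fin h7 hSF.1) hF₁.2)).subset fun x hx => ?_)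
        by_cases h12 : x ∈ R
        · exact Or.inl ⟨h12, hx⟩
        · exact Or.inr ⟨hx, h12⟩
      have h12 : F₁.card < m := by
        rw [← hF]
        exact Finset.card_lt_card (Finset.ssubset_iff_subset_ne.2 ⟨h10, h11⟩)
      exact ih _ h12 (n + 1) (by omega) (2 * i - 1) (by omega) (by omega) R hU F₁ rfl hF₁
    · obtain ⟨k, hk⟩ := Infinite.exists_notMem_finset (F ∪ F₁)
      rw [Finset.mem_union, not_or] at hk
      refine Cl_inf k ((diff_fin (diff_fin hF₁.2 h6) hSF.1).subset fun x hx => ?_)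
      have h11 : x.1 = k := hx
      refine ⟨?_, fun h12 => ?_⟩
      · change x.1 ∉ F₁
        rw [h11]
        exact hk.2
      · apply hk.1
        rw [← h11]
        exact h12

theorem contra : False := by
  obtain ⟨U, hU⟩ := hne 1 1 le_rfl le_rfl (by norm_num)
  obtain ⟨U', hU'⟩ := hne 1 2 le_rfl (by norm_num) (by norm_num)
  obtain ⟨S, hS, rfl⟩ := hV 1 1 le_rfl le_rfl (by norm_num) U hU
  obtain ⟨S', hS', rfl⟩ := hV 1 2 le_rfl (by norm_num) (by norm_num) U' hU'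
  have h5 := almost_disj g hM hV hne h3 h4 (n := 1) (i := 1) (j := 2) le_rfl le_rfl
    (by norm_num) (by norm_num) (by norm_num) (by norm_num) hU hU'
  rcases type hS with ⟨F, hF⟩ | ⟨F, hF⟩
  · exact descent g hM hV hne hinf h3 h4 _ 1 le_rfl 1 le_rfl (by norm_num) S hU F rfl hF
  · rcases type hS' with ⟨F', hF'⟩ | ⟨F', hF'⟩
    · exact descent g hM hV hne hinf h3 h4 _ 1 le_rfl 2 (by norm_num) (by norm_num) S' hU' F'
        rfl hF'
    · obtain ⟨k, hk⟩ := Infinite.exists_notMem_finset (F ∪ F')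
      rw [Finset.mem_union, not_or] at hk
      refine Cl_inf k ((h5.union (hF.2.union hF'.2)).subset fun x hx => ?_)
      have h11 : x.1 = k := hx
      by_cases h12 : x ∈ S
      · by_cases h13 : x ∈ S'
        · exact Or.inl ⟨h12, h13⟩
        · refine Or.inr (Or.inr ⟨?_, h13⟩)
          change x.1 ∉ F'
          rw [h11]
          exact hk.2
      · refine Or.inr (Or.inl ⟨?_, h12⟩)
        change x.1 ∉ F
        rw [h11]
        exact hk.1

end

theorem not_dyadInf {π : Pkg (Cd (ℕ × ℕ))} (g : Gd D π) (hM : IsZF ((sys D).Ms π)) :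
    ¬ DyadInf ((sys D).Ms π) (ev π Set.univ) := by
  rintro ⟨v, hv, V, h1, h2⟩
  have hVM : ∀ n i, 1 ≤ n → 1 ≤ i → i ≤ 2 ^ n → V n i ∈ (sys D).Ms π := by
    intro n i hn hi hi'
    have h3 := (h1 n i hn hi hi' (V n i)).2 rfl
    exact (hM.of_pair_mem (hM.trans _ hv _ h3)).2
  refine contra g hM (V := V) ?_ ?_ ?_ ?_ ?_
  · intro n i hn hi hi' U hU
    exact exists_dfb g (hM.trans _ (hVM n i hn hi hi') _ hU) (((h2 n hn).1 i hi hi').1.2.1 U hU).1
  · intro n i hn hi hi'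
    exact ((h2 n hn).1 i hi hi').1.1
  · intro n i hn hi hi' S hS
    have h3 := ((h2 n hn).1 i hi hi').2.2 _ hS
    rwa [finIn_ev g hM] at h3
  · intro n hn
    exact (h2 n hn).2.2.1
  · intro n hn
    exact (h2 n hn).2.2.2

/-- The model. -/
theorem main : ∃ M : Set ZFSet.{0}, M.Countable ∧ IsZF M ∧ ∃ A ∈ M,
    StrongInf M A ∧ ¬ DyadInf M A := by
  obtain ⟨π, g, hM, hc, hX⟩ := exists_model of_D ctb_mkPD
    (Set.range (fun n : ℕ => vN (md _ (Cl n))) ∪ {fN kN fun n => md _ (Cl n)})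
    ((Set.countable_range _).union (Set.countable_singleton _))
  exact ⟨(sys D).Ms π, hc, hM, ev π Set.univ, ev_mem g dfb_univ,
    strongInf g hM (fun t => hX (Or.inl ⟨t, rfl⟩)) (hX (Or.inr rfl)), not_dyadInf g hM⟩

end Pool.Agent.R598.PM.St
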